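import Pool.Agent.Lib.ArchG.Gf

namespace ArchG

open Arch PowerSeries Finset

/-- The series `q = C - 1`, where `C` is the generating function of all arch systems. -/
noncomputable def q : ℚ⟦X⟧ := Cat - 1

theorem Cat_eq_q : Cat = 1 + q := by rw [q]; ring

theorem q_eq : X * (Cat * Cat) = q := by
  rw [q]; linear_combination -Cat_eq

theorem constantCoeff_Cat : constantCoeff Cat = 1 := by
  rw [Cat_eq]; simp

theorem constantCoeff_q : constantCoeff q = 0 := by
  rw [q]; simp [constantCoeff_Cat]

theorem ne_zero_of_cc {x : ℚ⟦X⟧} (h : constantCoeff x = 1) : x ≠ 0 := by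
  intro h0; rw [h0] at h; simp at h

theorem cc_inv {x : ℚ⟦X⟧} (h : constantCoeff x = 1) : constantCoeff x⁻¹ = 1 := by
  rw [PowerSeries.constantCoeff_inv, h, inv_one]

theorem mul_inv' {x : ℚ⟦X⟧} (h : constantCoeff x = 1) : x * x⁻¹ = 1 :=
  PowerSeries.mul_inv_cancel _ (by rw [h]; exact one_ne_zero)

/-- The coordinate in which `X ↦ ⟨X⟩` is multiplication by `q`. -/
noncomputable def phi (A : Arch) : ℚ⟦X⟧ := (Cat - F A) * (Cat - q * F A)⁻¹

theorem cc_den (A : Arch) : constantCoeff (Cat - q * F A) = 1 := by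
  simp [constantCoeff_Cat, constantCoeff_q]

theorem phi_den (A : Arch) : phi A * (Cat - q * F A) = Cat - F A := by
  rw [phi, mul_assoc, PowerSeries.inv_mul_cancel _ (by rw [cc_den]; exact one_ne_zero), mul_one]

theorem phi_rel (A : Arch) : F A * (1 - q * phi A) = Cat * (1 - phi A) := by
  linear_combination phi_den A

theorem phi_unique {A : Arch} {y : ℚ⟦X⟧} (h : F A * (1 - q * y) = Cat * (1 - y)) : phi A = y := by
  have h1 : (phi A - y) * (Cat - q * F A) = 0 := by linear_combination phi_rel A - h
  rcases mul_eq_zero.1 h1 with h2 | h2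
  · exact sub_eq_zero.1 h2
  · exact absurd h2 (ne_zero_of_cc (cc_den A))

theorem phi_nil : phi Arch.nil = 1 := by
  apply phi_unique
  rw [F_nil]; ring

theorem phi_wrap (Z : Arch) : phi (wrap Z) = q * phi Z := by
  apply phi_unique
  have h1 := F_wrap Z
  have h2 := phi_rel Z
  have h3 := q_eq
  have h4 := Cat_eq_q
  -- F_w * (1 - t F_Z) = 1
  have h5 : F (wrap Z) * (1 - X * F Z) = 1 := by linear_combination h1
  linear_combination (Cat * (1 - q * phi Z)) * h5 + (X * Cat * F (wrap Z)) * h2
    + (F (wrap Z) * (1 - phi Z)) * h3 + F (wrap Z) * (-1 + q * phi Z) * h4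

theorem phi_nest (a : ℕ) : phi (nest a) = q ^ a := by
  induction a with
  | zero => simp [nest, phi_nil]
  | succ a ih => rw [nest, phi_wrap, ih, pow_succ']

theorem one_sub_q_ne : (1 - q : ℚ⟦X⟧) ≠ 0 := ne_zero_of_cc (by simp [constantCoeff_q])

/-! ### The recursion for a list of atoms -/

/-- Abel summation. -/
theorem abel {R : Type*} [CommRing R] (T V : ℕ → R) (n : ℕ) :
    ∑ i ∈ range (n + 1), (T (i + 1) - T (i + 2)) * V (i + 1) =
      T 1 * V 1 + ∑ i ∈ range n, T (i + 2) * (V (i + 2) - V (i + 1)) - T (n + 2) * V (n + 1) := by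
  induction n with
  | zero => simp; ring
  | succ n ih =>
    rw [sum_range_succ, ih, sum_range_succ _ n]
    ring

/-- `C - F` for a list of atoms. -/
noncomputable def DD (L : List Arch) : ℚ⟦X⟧ := Cat - F (atoms L)

theorem DD_single (Z : Arch) : DD [Z] = Cat - F (wrap Z) := rfl

theorem DD_rec (Z1 Z : Arch) (M : List Arch) :
    Cat * DD (Z1 :: M ++ [Z]) * (1 - X * F (wrap Z1) * F (wrap Z)) =
      (Cat - F (wrap Z1)) * DD (M ++ [Z]) +
      Cat * X * F (wrap Z1) * ∑ j ∈ range M.length,
        DD (Z1 :: (M.take j ++ [M.getD j Arch.nil])) *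
          (DD (M.drop (j + 1) ++ [Z]) - DD (M.drop j ++ [Z])) := by
  set m := M.length with hm
  set L0 := Z1 :: (M ++ [Z]) with hL0
  have hlen : (M ++ [Z]).length + 1 = m + 2 := by simp [hm]
  have h := F_atoms Z1 (M ++ [Z])
  rw [hlen] at h
  set T : ℕ → ℚ⟦X⟧ := fun i => Cat - pg Z1 (M ++ [Z]) i with hT
  set V : ℕ → ℚ⟦X⟧ := fun i => DD (L0.drop i) with hV
  have hV0 : V 0 = DD (Z1 :: M ++ [Z]) := rfl
  have hF0 : F (atoms (Z1 :: (M ++ [Z]))) = Cat - V 0 := by
    rw [hV0, DD]; ring_nf; rfl
  have hTm : T (m + 2) = V 0 := by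
    simp only [hT]
    rw [pg_add_two, hV0, DD, List.take_of_length_le (by simp [hm])]
    rfl
  have hT1 : T 1 = Cat - F Z1 := rfl
  have h1 : ∑ i ∈ range (m + 2), (pg Z1 (M ++ [Z]) (i + 1) - pg Z1 (M ++ [Z]) i) *
      F (atoms ((Z1 :: (M ++ [Z])).drop i)) = Cat * (Cat - V 0) - (F Z1 * V 0 +
        ∑ i ∈ range (m + 1), (T (i + 1) - T (i + 2)) * V (i + 1)) := by
    have e1 : ∀ i, (pg Z1 (M ++ [Z]) (i + 1) - pg Z1 (M ++ [Z]) i) *
        F (atoms ((Z1 :: (M ++ [Z])).drop i)) =
        Cat * (pg Z1 (M ++ [Z]) (i + 1) - pg Z1 (M ++ [Z]) i) -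
        (pg Z1 (M ++ [Z]) (i + 1) - pg Z1 (M ++ [Z]) i) * V i := by
      intro i
      simp only [hV, DD, hL0]
      ring
    rw [sum_congr rfl fun i _ => e1 i, sum_sub_distrib, ← mul_sum, sum_range_sub,
      sum_range_succ' _ (m + 1), pg_zero]
    have e2 : pg Z1 (M ++ [Z]) (m + 2) = Cat - V 0 := by
      rw [← hTm]; simp only [hT]; ring
    have e3 : ∀ i, pg Z1 (M ++ [Z]) (i + 1 + 1) - pg Z1 (M ++ [Z]) (i + 1) =
        T (i + 1) - T (i + 2) := by
      intro i; simp only [hT]; ring
    rw [e2, sum_congr rfl fun i _ => by rw [e3 i], pg_one]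
    ring
  rw [hF0, h1, abel T V m, hTm] at h
  have hVm : V (m + 1) = Cat - F (wrap Z) := by
    simp only [hV, hL0, List.drop_succ_cons]
    rw [hm, List.drop_left, DD_single]
  have hV1 : V 1 = DD (M ++ [Z]) := rfl
  have hS : ∑ i ∈ range m, T (i + 2) * (V (i + 2) - V (i + 1)) = ∑ j ∈ range m,
        DD (Z1 :: (M.take j ++ [M.getD j Arch.nil])) *
          (DD (M.drop (j + 1) ++ [Z]) - DD (M.drop j ++ [Z])) := by
    refine sum_congr rfl fun j hj => ?_
    have hj' : j < M.length := mem_range.1 hj
    have e1 : T (j + 2) = DD (Z1 :: (M.take j ++ [M.getD j Arch.nil])) := by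
      simp only [hT]
      rw [pg_add_two, DD, List.take_succ_cons, List.take_append_of_le_length (by omega),
        List.take_succ_eq_append_getElem hj', List.getD_eq_getElem _ _ hj']
    have e2 : V (j + 2) = DD (M.drop (j + 1) ++ [Z]) := by
      simp only [hV, hL0, List.drop_succ_cons]
      rw [List.drop_append_of_le_length (by omega)]
    have e3 : V (j + 1) = DD (M.drop j ++ [Z]) := by
      simp only [hV, hL0, List.drop_succ_cons]
      rw [List.drop_append_of_le_length (by omega)]
    rw [e1, e2, e3]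
  rw [← hS, ← hV0, ← hV1]
  rw [hT1, hVm] at h
  set S := ∑ i ∈ range m, T (i + 2) * (V (i + 2) - V (i + 1))
  have h2 := Cat_eq
  have h3 : F (wrap Z1) * (1 - X * F Z1) = 1 := by linear_combination F_wrap Z1
  linear_combination (-Cat * F (wrap Z1)) * h + (Cat * F (wrap Z1) - F (wrap Z1) * V 1) * h2
    + (-Cat * V 0 + Cat * V 1) * h3

/-! ### The closed form -/

theorem cc_one_sub (x : ℚ⟦X⟧) : constantCoeff (1 - q * x) = 1 := by
  simp [constantCoeff_q]

/-- The function `e` of a list of entries and one more variable. -/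
noncomputable def ee : List ℚ⟦X⟧ → ℚ⟦X⟧ → ℚ⟦X⟧
  | [], _ => 1
  | a :: A, z => (1 - q * z) * (1 - q * (a * z))⁻¹ * (ee A z + q * (1 - a) *
      ∑ j : Fin A.length, ee (a :: A.take j) (A.getD j 0) * (1 - q * A.getD j 0)⁻¹ *
        (ee (A.drop (j + 1)) z - A.getD j 0 * ee (A.drop j) z))
  termination_by A _ => A.length
  decreasing_by
    · simp
    · simp
    · simp
    · simp

theorem ee_nil (z : ℚ⟦X⟧) : ee [] z = 1 := by rw [ee]

theorem ee_cons (a : ℚ⟦X⟧) (A : List ℚ⟦X⟧) (z : ℚ⟦X⟧) : ee (a :: A) z =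
    (1 - q * z) * (1 - q * (a * z))⁻¹ * (ee A z + q * (1 - a) *
      ∑ j ∈ range A.length, ee (a :: A.take j) (A.getD j 0) * (1 - q * A.getD j 0)⁻¹ *
        (ee (A.drop (j + 1)) z - A.getD j 0 * ee (A.drop j) z)) := by
  rw [ee, Finset.sum_range]

/-- The entries of a list of atoms. -/
noncomputable def ent (L : List Arch) : List ℚ⟦X⟧ := L.map fun Y => phi (wrap Y)

theorem DD_phi (Z : Arch) : DD [Z] * (1 - q * phi (wrap Z)) = Cat * (1 - q) * phi (wrap Z) := by
  rw [DD_single]
  linear_combination -phi_rel (wrap Z)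

theorem getD_ent {M : List Arch} {j : ℕ} (hj : j < M.length) :
    (ent M).getD j 0 = phi (wrap (M.getD j Arch.nil)) := by
  rw [ent, List.getD_eq_getElem _ _ (by simpa using hj), List.getD_eq_getElem _ _ hj,
    List.getElem_map]

theorem prod_drop {A : List ℚ⟦X⟧} {j : ℕ} (hj : j < A.length) :
    (A.drop j).prod = A.getD j 0 * (A.drop (j + 1)).prod := by
  rw [List.drop_eq_getElem_cons hj, List.prod_cons, List.getD_eq_getElem _ _ hj]

theorem DD_closed (L : List Arch) (Z : Arch) :
    DD (L ++ [Z]) * (1 - q * phi (wrap Z)) = Cat * (1 - q) *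
      ((ent L).prod * (phi (wrap Z) * ee (ent L) (phi (wrap Z)))) := by
  generalize hn : L.length = n
  induction n using Nat.strong_induction_on generalizing L Z with
  | _ n ih =>
    cases L with
    | nil =>
      have h := DD_phi Z
      simp only [ent, List.map_nil, List.prod_nil, ee_nil, List.nil_append]
      linear_combination h
    | cons Z1 M =>
      have hM : M.length < n := by rw [← hn, List.length_cons]; omega
      have hrec := DD_rec Z1 Z M
      have hent : ent (Z1 :: M) = phi (wrap Z1) :: ent M := rfl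
      rw [hent, List.prod_cons, ee_cons]
      have hlen : (ent M).length = M.length := by simp [ent]
      have ih0 := ih M.length hM M Z rfl
      have hr1 := phi_rel (wrap Z1)
      have hrZ := phi_rel (wrap Z)
      set a := phi (wrap Z1) with ha
      set z := phi (wrap Z) with hz
      set F1 := F (wrap Z1) with hF1
      set FZ := F (wrap Z) with hFZ
      set V0 := DD (Z1 :: M ++ [Z]) with hV0
      set S := ∑ j ∈ range (ent M).length, ee (a :: (ent M).take j) ((ent M).getD j 0) *
        (1 - q * (ent M).getD j 0)⁻¹ *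
        (ee ((ent M).drop (j + 1)) z - (ent M).getD j 0 * ee ((ent M).drop j) z) with hS
      set P := (ent M).prod with hP
      set SS := ∑ j ∈ range M.length,
        DD (Z1 :: (M.take j ++ [M.getD j Arch.nil])) *
          (DD (M.drop (j + 1) ++ [Z]) - DD (M.drop j ++ [Z])) with hSS
      have hSum : SS * (1 - q * z) = (Cat * (1 - q)) ^ 2 * (a * P * z) * S := by
        rw [hSS, hS, hlen, sum_mul, mul_sum]
        refine sum_congr rfl fun j hj => ?_
        have hj' : j < M.length := mem_range.1 hj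
        have hj'' : j < (ent M).length := by rw [hlen]; exact hj'
        have i1 := ih (j + 1) (by omega) (Z1 :: M.take j) (M.getD j Arch.nil)
          (by simp; omega)
        have i2 := ih (M.drop (j + 1)).length (by rw [List.length_drop]; omega)
          (M.drop (j + 1)) Z rfl
        have i3 := ih (M.drop j).length (by rw [List.length_drop]; omega) (M.drop j) Z rfl
        have t1 : ent (Z1 :: M.take j) = a :: (ent M).take j := by
          simp [ent, List.map_take, ha]
        have t2 : ent (M.drop (j + 1)) = (ent M).drop (j + 1) := by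
          simp [ent, List.map_drop]
        have t3 : ent (M.drop j) = (ent M).drop j := by
          simp [ent, List.map_drop]
        rw [t1, ← getD_ent hj', List.prod_cons] at i1
        rw [t2] at i2
        rw [t3, prod_drop hj''] at i3
        have hPj : P = ((ent M).take j).prod * ((ent M).getD j 0 *
            ((ent M).drop (j + 1)).prod) := by
          rw [← prod_drop hj'', List.prod_take_mul_prod_drop]
        have hw := mul_inv' (cc_one_sub ((ent M).getD j 0))
        rw [hPj]
        set Aj := (ent M).getD j 0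
        have i1' : DD (Z1 :: (M.take j ++ [M.getD j Arch.nil])) = Cat * (1 - q) *
            (a * ((ent M).take j).prod * (Aj * ee (a :: (ent M).take j) Aj)) *
            (1 - q * Aj)⁻¹ := by
          rw [← i1, mul_assoc, hw, mul_one]; rfl
        rw [i1', mul_assoc, sub_mul, i2, i3]
        ring
      have hD1 : (Cat - F1) * (1 - q * a) = Cat * (1 - q) * a := by
        linear_combination -hr1
      have e1 : Cat * V0 * ((1 - q * a) * (1 - q * z) -
          X * (F1 * (1 - q * a)) * (FZ * (1 - q * z))) =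
          ((Cat - F1) * (1 - q * a)) * (DD (M ++ [Z]) * (1 - q * z)) +
          Cat * X * (F1 * (1 - q * a)) * (SS * (1 - q * z)) := by
        linear_combination ((1 - q * a) * (1 - q * z)) * hrec
      rw [hr1, hrZ, ih0, hD1, hSum] at e1
      have h3 := q_eq
      have e2 : Cat * (1 - q) * (V0 * (1 - q * (a * z)) -
          Cat * (1 - q) * (a * P * z * (ee (ent M) z + q * (1 - a) * S))) = 0 := by
        linear_combination e1 + (Cat * V0 * ((1 - a) * (1 - z)) +
          (1 - a) * ((Cat * (1 - q)) ^ 2 * (a * P * z) * S)) * h3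
      have hw := mul_inv' (cc_one_sub (a * z))
      have e3 : V0 * (1 - q * (a * z)) =
          Cat * (1 - q) * (a * P * z * (ee (ent M) z + q * (1 - a) * S)) := by
        rcases mul_eq_zero.1 e2 with h6 | h6
        · rcases mul_eq_zero.1 h6 with h7 | h7
          · exact absurd h7 (ne_zero_of_cc constantCoeff_Cat)
          · exact absurd h7 one_sub_q_ne
        · exact sub_eq_zero.1 h6
      have e4 : V0 = Cat * (1 - q) * (a * P * z * (ee (ent M) z + q * (1 - a) * S)) *
          (1 - q * (a * z))⁻¹ := by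
        rw [← e3, mul_assoc, hw, mul_one]
      rw [e4]
      ring

/-- The value of `phi` on a nonempty list of atoms. -/
theorem phi_atoms (L : List Arch) (Z : Arch) :
    phi (atoms (L ++ [Z])) * (1 - q * phi (wrap Z) * (1 - (ent L).prod *
      ee (ent L) (phi (wrap Z)))) = (ent L).prod * (phi (wrap Z) * ee (ent L) (phi (wrap Z))) := by
  have h1 := DD_closed L Z
  have h2 := phi_rel (atoms (L ++ [Z]))
  set f := phi (atoms (L ++ [Z])) with hf
  set z := phi (wrap Z) with hz
  set Y := (ent L).prod * (z * ee (ent L) z) with hY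
  rw [DD] at h1
  set G := F (atoms (L ++ [Z])) with hG
  have h3 : Cat * (1 - q) * (f * (1 - q * z + q * Y) - Y) = 0 := by
    linear_combination (1 - q * f) * h1 + (1 - q * z) * h2
  rcases mul_eq_zero.1 h3 with h6 | h6
  · rcases mul_eq_zero.1 h6 with h7 | h7
    · exact absurd h7 (ne_zero_of_cc constantCoeff_Cat)
    · exact absurd h7 one_sub_q_ne
  · linear_combination h6 + f * q * (-hY + hY)

end ArchG
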