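import Mathlib

/-!
Arch systems, containment and Wilf-equivalence.

An arch system is a noncrossing perfect matching of `2n` points on a line. A nonempty one is
`⟨X⟩ Y`, where `⟨X⟩` is its first atom (an arch enclosing the arch system `X`) and `Y` is the
arch system to the right of it.
-/

namespace ArchG

/-- Arch systems: the empty one, and `⟨X⟩ Y` for arch systems `X`, `Y`. -/
inductive Arch : Type
  | nil : Arch
  | cons : Arch → Arch → Arch
  deriving DecidableEq

namespace Arch

/-- The number of arches. -/
def size : Arch → ℕ
  | nil => 0
  | cons X Y => X.size + Y.size + 1

/-- Concatenation: `X` to the left of `Z`. -/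
def append : Arch → Arch → Arch
  | nil, Z => Z
  | cons X Y, Z => cons X (append Y Z)

/-- The atom `⟨X⟩`: one arch added that encloses all of `X`. -/
def wrap (X : Arch) : Arch := cons X nil

/-- `atoms [X₁, …, Xₖ]` is the concatenation `⟨X₁⟩ … ⟨Xₖ⟩` of atoms. -/
def atoms : List Arch → Arch
  | [] => nil
  | X :: L => cons X (atoms L)

/-- `nest a` is `a` nested arches. -/
def nest : ℕ → Arch
  | 0 => nil
  | a + 1 => wrap (nest a)

/-- `Contains X A`: deleting some arches of `X` leaves `A`. In `⟨X⟩ Y` the outer arch of the
first atom is either kept, and then arches of `X` and of `Y` are deleted, or it is deleted, which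
leaves `X Y`, and then further arches are deleted. -/
inductive Contains : Arch → Arch → Prop
  | nil : Contains nil nil
  | keep {X Y A B : Arch} : Contains X A → Contains Y B → Contains (cons X Y) (cons A B)
  | delete {X Y A : Arch} : Contains (append X Y) A → Contains (cons X Y) A

/-- The number of arch systems with `n` arches that avoid `A`. -/
noncomputable def avoiders (A : Arch) (n : ℕ) : ℕ :=
  Set.ncard {X : Arch | X.size = n ∧ ¬ Contains X A}

/-- Wilf-equivalence: `Av(A)` and `Av(B)` have equally many elements of each size. -/
def WilfEquiv (A B : Arch) : Prop := ∀ n, avoiders A n = avoiders B n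

/-- The number of Wilf-equivalence classes of arch systems with `n` arches. -/
noncomputable def wilfClasses (n : ℕ) : ℕ :=
  Set.ncard (avoiders '' {A : Arch | A.size = n})

end Arch

open Arch

/-- A step: either one arch is put around everything (`wrap`), or one arch is put around
everything and then the atoms `⟨X₁⟩, …, ⟨Xᵣ⟩` are placed to the left of it
(`join [X₁, …, Xᵣ]`). -/
inductive Step : Type
  | wrap : Step
  | join : List Arch → Step
  deriving DecidableEq

namespace Step

/-- The arch system obtained from `X` by one step. -/
def apply : Step → Arch → Arch
  | wrap, X => X.wrap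
  | join l, X => atoms (l ++ [X])

/-- The number of arches a step adds. -/
def weight : Step → ℕ
  | wrap => 1
  | join l => (l.map fun X => X.size + 1).sum + 1

end Step

/-- The arch system built by a list of steps from the empty one; the last step of the list is
done first. -/
def chain : List Step → Arch
  | [] => nil
  | s :: w => s.apply (chain w)

/-- The total number of arches a list of steps adds. -/
def weight (w : List Step) : ℕ := (w.map Step.weight).sum


/-! ### Numbers of atoms -/

namespace Arch

/-- The number of atoms of an arch system. -/
def len : Arch → ℕ
  | nil => 0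
  | cons _ Y => Y.len + 1

end Arch

namespace Arch

/-- The number of arches with at least three atoms inside. -/
def inner : Arch → ℕ
  | nil => 0
  | cons X Y => X.inner + (if 3 ≤ X.len then 1 else 0) + Y.inner

/-- The number of branching vertices: arches with at least three atoms inside, plus one if the
system itself has at least three atoms. -/
def branching (A : Arch) : ℕ := A.inner + (if 3 ≤ A.len then 1 else 0)

end Arch

namespace Arch

/-- The sum of `(k - 1) (k - 2) / 2` over all arches with `k ≥ 1` atoms inside. -/
def innerExcess : Arch → ℕ
  | nil => 0
  | cons X Y => X.innerExcess + (X.len - 1).choose 2 + Y.innerExcess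

/-- The sum of `(k - 1) (k - 2) / 2` over all arches, and the system itself, that have `k ≥ 1`
atoms inside. -/
def excess (A : Arch) : ℕ := A.innerExcess + (A.len - 1).choose 2

end Arch

/-! ### Cohorts -/

namespace Arch

/-- An atom or the empty system. -/
def AtomOrEmpty (a : Arch) : Prop := a = nil ∨ ∃ X, a = wrap X

/-- The relation `∼`, whose classes are the cohorts: the finest equivalence relation with
the four rules. -/
inductive Cohort : Arch → Arch → Prop
  | refl (A : Arch) : Cohort A A
  | symm {A B : Arch} : Cohort A B → Cohort B A
  | trans {A B C : Arch} : Cohort A B → Cohort B C → Cohort A C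
  | wrap {A B : Arch} : Cohort A B → Cohort A.wrap B.wrap
  | ctx {a b : Arch} (P Q : Arch) : AtomOrEmpty a → AtomOrEmpty b → Cohort a b →
      Cohort (P.append (a.append Q)) (P.append (b.append Q))
  | comm {a b : Arch} (P Q : Arch) : AtomOrEmpty a → AtomOrEmpty b →
      Cohort (P.append (a.append (b.append Q))) (P.append (b.append (a.append Q)))
  | rot {a b c : Arch} : AtomOrEmpty a → AtomOrEmpty b → AtomOrEmpty c →
      Cohort (a.append (b.append c).wrap) ((a.append b).wrap.append c)

end Arch

/-! ### Replacing the inside of an arch -/

/-- `Replace X Y s A B`: `B` arises from `A` by replacing one occurrence of `X` as the complete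
inside of an arch (or as the whole system) by `Y`; `s` is the number of arches of `A` outside
this occurrence. -/
inductive Replace (X Y : Arch) : ℕ → Arch → Arch → Prop
  | whole : Replace X Y 0 X Y
  | inside {s : ℕ} {A B : Arch} (P Q : Arch) : Replace X Y s A B →
      Replace X Y (s + P.size + Q.size + 1) (P.append (Arch.cons A Q)) (P.append (Arch.cons B Q))

/-! ### Good sets of steps -/

/-- `l` and `l'` agree up to some place, at this place `l` has the smaller arch system, and all
later ones of `l` are at least as large, all later ones of `l'` are larger. -/
def Separated (l l' : List Arch) : Prop := ∃ p Y r Y' r', l = p ++ Y :: r ∧ l' = p ++ Y' :: r' ∧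
  (∀ Z ∈ r, Y.size ≤ Z.size) ∧ (∀ Z ∈ Y' :: r', Y.size < Z.size)

/-- A set of steps is good if each of its joins has at least two atoms, and if any two of its
joins with equally many atoms are equal or separated. -/
def Good (S : Set Step) : Prop :=
  (∀ l, Step.join l ∈ S → 2 ≤ l.length) ∧
  ∀ l l', Step.join l ∈ S → Step.join l' ∈ S → l.length = l'.length →
    l = l' ∨ Separated l l' ∨ Separated l' l

end ArchG
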