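import Pool.Agent.Lib.ArchG.Comm

namespace ArchG

open Arch PowerSeries Finset

/-! ### Equivalent systems have the same series -/

theorem EE_single (a z : ℚ⟦X⟧) : EE [a] z = 1 := by
  have h1 : ee [a] z = (1 - q * z) * (1 - q * (a * z))⁻¹ := by
    rw [ee_cons, ee_nil]; simp
  have h2 := mul_inv' (cc_one_sub (a * z))
  have h3 : 1 - q * (z * (1 - a * ee [a] z)) = ee [a] z := by
    rw [h1]
    linear_combination (1 - q * z) * (-1) * h2
  rw [EE, List.prod_singleton, h3]
  exact mul_inv' (cc_ee [a] z)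

theorem phi_two (Y Z : Arch) : phi ((wrap Y).append (wrap Z)) = phi (wrap Y) * phi (wrap Z) := by
  have h := phi_atoms_EE [Y] Z
  have e : atoms ([Y] ++ [Z]) = (wrap Y).append (wrap Z) := rfl
  rw [e, ent_cons] at h
  have e2 : ent [] = [] := rfl
  rw [e2, EE_single, List.prod_singleton, mul_one, ← phi_wrap, ← phi_wrap] at h
  exact h

theorem phi_append_atoms {a b : Arch} (ha : AtomOrEmpty a) (hb : AtomOrEmpty b) :
    phi (a.append b) = phi a * phi b := by
  rcases ha with rfl | ⟨Y, rfl⟩
  · rw [nil_append, phi_nil, one_mul]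
  · rcases hb with rfl | ⟨Z, rfl⟩
    · rw [append_nil, phi_nil, mul_one]
    · exact phi_two Y Z

theorem phi_of_F {A B : Arch} (h : F A = F B) : phi A = phi B := by rw [phi, phi, h]

theorem phi_ctx {a b : Arch} (P Q : Arch) (ha : AtomOrEmpty a) (hb : AtomOrEmpty b)
    (h : phi a = phi b) : phi (P.append (a.append Q)) = phi (P.append (b.append Q)) := by
  rcases ha with rfl | ⟨Y, rfl⟩ <;> rcases hb with rfl | ⟨Z, rfl⟩
  · rfl
  · have := size_eq_of_phi h
    simp at this
  · have := size_eq_of_phi h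
    simp at this
  · have h1 : phi Y = phi Z := by
      rw [phi_wrap, phi_wrap] at h
      exact mul_left_cancel₀ q_ne_zero h
    obtain ⟨LP, rfl⟩ := exists_atoms P
    obtain ⟨LQ, rfl⟩ := exists_atoms Q
    obtain ⟨W, _, w2⟩ := factor_one LP LQ Y Z
    have e : ∀ Z : Arch, (atoms LP).append ((wrap Z).append (atoms LQ)) =
        atoms (LP ++ Z :: LQ) := by
      intro Z; rw [atoms_append, atoms_cons]; rfl
    rw [e, e, ← sub_eq_zero, w2, h1]
    ring

theorem phi_comm {a b : Arch} (P Q : Arch) (ha : AtomOrEmpty a) (hb : AtomOrEmpty b) :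
    phi (P.append (a.append (b.append Q))) = phi (P.append (b.append (a.append Q))) := by
  rcases ha with rfl | ⟨Y, rfl⟩
  · rfl
  · rcases hb with rfl | ⟨Z, rfl⟩
    · rfl
    · apply phi_of_F
      obtain ⟨LP, rfl⟩ := exists_atoms P
      obtain ⟨LQ, rfl⟩ := exists_atoms Q
      have e : ∀ Y Z : Arch, (atoms LP).append ((wrap Y).append ((wrap Z).append (atoms LQ))) =
          atoms (LP ++ Y :: Z :: LQ) := by
        intro Y Z; rw [atoms_append, atoms_cons, atoms_cons]; rfl
      rw [e, e]
      exact F_swap LP LQ Y Z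

/-- Equivalent systems have the same series. -/
theorem phi_of_cohort {A B : Arch} (h : Cohort A B) : phi A = phi B := by
  induction h with
  | refl => rfl
  | symm _ ih => exact ih.symm
  | trans _ _ ih1 ih2 => exact ih1.trans ih2
  | wrap _ ih => rw [phi_wrap, phi_wrap, ih]
  | ctx P Q ha hb _ ih => exact phi_ctx P Q ha hb ih
  | comm P Q ha hb => exact phi_comm P Q ha hb
  | @rot a b c ha hb hc =>
    rw [phi_append_atoms ha (Or.inr ⟨_, rfl⟩), phi_wrap, phi_append_atoms hb hc,
      phi_append_atoms (Or.inr ⟨_, rfl⟩) hc, phi_wrap, phi_append_atoms ha hb]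
    ring

theorem wilf_of_phi {A B : Arch} (h : phi A = phi B) : WilfEquiv A B := by
  intro m
  exact (agree_iff (N := m + 1)).2 (by rw [h]; exact Cg.refl _ _) m (Nat.lt_succ_self m)

theorem wilf_of_cohort {A B : Arch} (h : Cohort A B) : WilfEquiv A B :=
  wilf_of_phi (phi_of_cohort h)

theorem size_of_cohort {A B : Arch} (h : Cohort A B) : A.size = B.size :=
  size_eq_of_phi (phi_of_cohort h)

end ArchG
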