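import Pool.Agent.Lib.ArchG.Basic

namespace ArchG

open Arch Finset

namespace Arch

@[simp] theorem size_nil : nil.size = 0 := rfl
@[simp] theorem size_cons (X Y : Arch) : (cons X Y).size = X.size + Y.size + 1 := rfl
@[simp] theorem nil_append (Z : Arch) : nil.append Z = Z := rfl
@[simp] theorem cons_append (X Y Z : Arch) : (cons X Y).append Z = cons X (Y.append Z) := rfl

@[simp] theorem size_append (X Y : Arch) : (X.append Y).size = X.size + Y.size := by
  induction X with
  | nil => simp
  | cons A B _ ih => simp [ih]; omega

@[simp] theorem append_nil (X : Arch) : X.append nil = X := by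
  induction X with
  | nil => rfl
  | cons A B _ ih => simp [ih]

theorem append_assoc (X Y Z : Arch) : (X.append Y).append Z = X.append (Y.append Z) := by
  induction X with
  | nil => rfl
  | cons A B _ ih => simp [ih]

@[simp] theorem size_wrap (X : Arch) : X.wrap.size = X.size + 1 := by simp [wrap]

@[simp] theorem size_nest (a : ℕ) : (nest a).size = a := by
  induction a with
  | zero => rfl
  | succ a ih => simp [nest, ih]

/-! ### Containment -/

theorem contains_nil (X : Arch) : Contains X nil := by
  generalize h : X.size = n
  induction n using Nat.strong_induction_on generalizing X with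
  | _ n ih =>
    cases X with
    | nil => exact Contains.nil
    | cons A B =>
      refine Contains.delete (ih (A.append B).size ?_ _ rfl)
      simp at h ⊢; omega

theorem Contains.append' {X A Y B : Arch} (h : Contains X A) (h' : Contains Y B) :
    Contains (X.append Y) (A.append B) := by
  induction h with
  | nil => simpa using h'
  | keep _ _ ih1 ih2 => exact Contains.keep ‹_› ih2
  | @delete P Q R _ ih =>
    rw [cons_append]
    refine Contains.delete ?_
    rw [← append_assoc]
    exact ih

theorem contains_split {Y Z P : Arch} (h : Contains (Y.append Z) P) :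
    ∃ P1 P2, P = P1.append P2 ∧ Contains Y P1 ∧ Contains Z P2 := by
  generalize hn : Y.size = n
  induction n using Nat.strong_induction_on generalizing Y Z P with
  | _ n ih =>
    cases Y with
    | nil => exact ⟨nil, P, rfl, Contains.nil, h⟩
    | cons A B =>
      rw [cons_append] at h
      cases h with
      | @keep _ _ A' B' h1 h2 =>
        obtain ⟨Q1, Q2, hQ, k1, k2⟩ := ih B.size (by simp at hn; omega) h2 rfl
        refine ⟨cons A' Q1, Q2, by simp [hQ], Contains.keep h1 k1, k2⟩
      | delete h1 =>
        rw [← append_assoc] at h1
        obtain ⟨Q1, Q2, hQ, k1, k2⟩ := ih (A.append B).size (by simp at hn ⊢; omega) h1 rfl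
        exact ⟨Q1, Q2, hQ, Contains.delete k1, k2⟩

theorem Contains.refl' (X : Arch) : Contains X X := by
  induction X with
  | nil => exact Contains.nil
  | cons A B ih1 ih2 => exact Contains.keep ih1 ih2

theorem Contains.trans' {X Y Z : Arch} (h : Contains X Y) (h' : Contains Y Z) : Contains X Z := by
  generalize hn : X.size + Y.size = n
  induction n using Nat.strong_induction_on generalizing X Y Z with
  | _ n ih =>
    cases h with
    | nil => exact h'
    | @keep X1 X2 A B h1 h2 =>
      cases h' with
      | keep k1 k2 =>
        exact Contains.keep (ih _ (by simp at hn; omega) h1 k1 rfl)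
          (ih _ (by simp at hn; omega) h2 k2 rfl)
      | delete k =>
        refine Contains.delete (ih _ ?_ (h1.append' h2) k rfl)
        simp at hn ⊢; omega
    | @delete X1 X2 _ h1 =>
      refine Contains.delete (ih _ ?_ h1 h' rfl)
      simp at hn ⊢; omega

theorem contains_inside {Y Z R : Arch} (h : Contains Y (cons Z R)) : Contains Y Z := by
  refine h.trans' (Contains.delete ?_)
  have := (Contains.refl' Z).append' (contains_nil R)
  simpa using this

theorem contains_left {Y A B : Arch} (h : Contains Y (A.append B)) : Contains Y A := by
  refine h.trans' ?_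
  have := (Contains.refl' A).append' (contains_nil B)
  simpa using this

theorem contains_right {Y A B : Arch} (h : Contains Y (A.append B)) : Contains Y B := by
  refine h.trans' ?_
  have := (contains_nil A).append' (Contains.refl' B)
  simpa using this

theorem not_contains_nil_cons (A B : Arch) : ¬ Contains nil (cons A B) := by
  intro h; cases h

theorem contains_cons_iff (y z Z R : Arch) : Contains (cons y z) (cons Z R) ↔
    (Contains y Z ∧ Contains z R) ∨ ∃ P1 P2, cons Z R = P1.append P2 ∧ Contains y P1 ∧
      Contains z P2 := by
  constructor
  · intro h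
    cases h with
    | keep h1 h2 => exact Or.inl ⟨h1, h2⟩
    | delete h => exact Or.inr (contains_split h)
  · rintro (⟨h1, h2⟩ | ⟨P1, P2, h, h1, h2⟩)
    · exact Contains.keep h1 h2
    · rw [h]; exact Contains.delete (h1.append' h2)

theorem contains_of_right {y z A : Arch} (h : Contains z A) : Contains (cons y z) A := by
  refine Contains.delete ?_
  have := (contains_nil y).append' h
  simpa using this

theorem contains_of_left {y z A : Arch} (h : Contains y A) : Contains (cons y z) A := by
  refine Contains.delete ?_
  have := h.append' (contains_nil z)
  simpa using this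

theorem append_eq_nil {P Q : Arch} (h : P.append Q = nil) : P = nil ∧ Q = nil := by
  cases P with
  | nil => exact ⟨rfl, h⟩
  | cons A B => simp at h

@[simp] theorem atoms_nil : atoms [] = nil := rfl
@[simp] theorem atoms_cons (X : Arch) (L : List Arch) : atoms (X :: L) = cons X (atoms L) := rfl

theorem atoms_append (L M : List Arch) : atoms (L ++ M) = (atoms L).append (atoms M) := by
  induction L with
  | nil => rfl
  | cons X L ih => simp [ih]

@[simp] theorem size_atoms (L : List Arch) : (atoms L).size = (L.map fun X => X.size + 1).sum := by
  induction L with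
  | nil => rfl
  | cons X L ih => simp [ih]; omega

theorem atoms_split {L : List Arch} {P Q : Arch} (h : atoms L = P.append Q) :
    ∃ i ≤ L.length, P = atoms (L.take i) ∧ Q = atoms (L.drop i) := by
  induction L generalizing P with
  | nil =>
    obtain ⟨rfl, rfl⟩ := append_eq_nil h.symm
    exact ⟨0, le_rfl, rfl, rfl⟩
  | cons X L ih =>
    cases P with
    | nil => exact ⟨0, Nat.zero_le _, rfl, by simpa using h.symm⟩
    | cons A B =>
      simp only [atoms_cons, cons_append, cons.injEq] at h
      obtain ⟨i, hi, h1, h2⟩ := ih h.2
      refine ⟨i + 1, by simpa using hi, ?_, ?_⟩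
      · simp [← h1, h.1]
      · simpa using h2

/-- The prefix conditions of a nonempty list of atoms: `Pre Z L i y` says that `y` contains the
first `i` atoms of `Z :: L`, except that for `i = 1` only the inside `Z` of the first atom is
asked for. -/
def Pre (Z : Arch) (L : List Arch) : ℕ → Arch → Prop
  | 0, _ => True
  | 1, y => Contains y Z
  | i + 2, y => Contains y (atoms ((Z :: L).take (i + 2)))

theorem Pre.succ {Z : Arch} {L : List Arch} {i : ℕ} {y : Arch} (h : Pre Z L (i + 1) y) :
    Pre Z L i y := by
  match i with
  | 0 => trivial
  | 1 =>
    have h' : Contains y (atoms ((Z :: L).take 2)) := h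
    rw [List.take_succ_cons, atoms_cons] at h'
    exact contains_inside h'
  | i + 2 =>
    have h' : Contains y (atoms ((Z :: L).take (i + 3))) := h
    have e : atoms ((Z :: L).take (i + 3)) =
        (atoms ((Z :: L).take (i + 2))).append (atoms (((Z :: L).take (i + 3)).drop (i + 2))) := by
      rw [← atoms_append]
      congr 1
      conv_lhs => rw [← List.take_append_drop (i + 2) ((Z :: L).take (i + 3))]
      rw [List.take_take]
      simp
    rw [e] at h'
    exact contains_left h'

theorem Pre.mono {Z : Arch} {L : List Arch} {i j : ℕ} (hij : i ≤ j) {y : Arch}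
    (h : Pre Z L j y) : Pre Z L i y := by
  induction hij with
  | refl => exact h
  | step _ ih => exact ih (Pre.succ h)

theorem contains_drop {L : List Arch} {i j : ℕ} (hij : i ≤ j) {z : Arch}
    (h : Contains z (atoms (L.drop i))) : Contains z (atoms (L.drop j)) := by
  have e : atoms (L.drop i) = (atoms ((L.drop i).take (j - i))).append (atoms (L.drop j)) := by
    rw [← atoms_append]
    congr 1
    conv_lhs => rw [← List.take_append_drop (j - i) (L.drop i)]
    rw [List.drop_drop]
    congr 2
    omega
  rw [e] at h
  exact contains_right h

theorem contains_atoms_iff (y z Z : Arch) (L : List Arch) :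
    Contains (cons y z) (atoms (Z :: L)) ↔
      ∃ i ≤ (Z :: L).length, Pre Z L i y ∧ Contains z (atoms ((Z :: L).drop i)) := by
  constructor
  · intro h
    rw [atoms_cons, contains_cons_iff] at h
    rcases h with ⟨h1, h2⟩ | ⟨P1, P2, h, h1, h2⟩
    · exact ⟨1, by simp, h1, by simpa using h2⟩
    · obtain ⟨i, hi, rfl, rfl⟩ := atoms_split (L := Z :: L) h
      refine ⟨i, hi, ?_, h2⟩
      match i with
      | 0 => trivial
      | 1 =>
        rw [List.take_succ_cons, atoms_cons] at h1
        exact contains_inside h1
      | i + 2 => exact h1
  · rintro ⟨i, hi, h1, h2⟩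
    match i with
    | 0 => exact contains_of_right h2
    | 1 => exact Contains.keep h1 (by simpa using h2)
    | i + 2 =>
      refine Contains.delete ?_
      have h3 := Contains.append' (show Contains y (atoms ((Z :: L).take (i + 2))) from h1) h2
      rwa [← atoms_append, List.take_append_drop] at h3

end Arch

end ArchG
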