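import Pool.Agent.Lib.ArchG.Replace

namespace ArchG

open Arch PowerSeries Finset

/-! ### Adjacent atoms commute

The generating functions of the segments of a list of `k` atoms form an upper triangular matrix
`M` with `M = 1 + X (M - E) M`, where `E` is bidiagonal. Exchanging two adjacent atoms changes `E`
by an explicit intertwiner, hence `M` too, and the corner entry of `M` stays the same. -/

/-- The generating function of a segment. -/
noncomputable def GG (L : List Arch) (i j : ℕ) : ℚ⟦X⟧ :=
  if j ≤ L.length then F (atoms ((L.take j).drop i)) else Cat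

/-- The modified generating function of a segment. -/
noncomputable def bG (L : List Arch) (i j : ℕ) : ℚ⟦X⟧ :=
  if j = i + 1 ∧ i < L.length then F (L.getD i Arch.nil) else GG L i j

theorem GG_zero {L : List Arch} {i j : ℕ} (h : j ≤ i) (hj : j ≤ L.length) : GG L i j = 0 := by
  rw [GG, if_pos hj, List.drop_of_length_le (by rw [List.length_take]; omega), atoms_nil, F_nil]

theorem GG_last (L : List Arch) (i : ℕ) : GG L i (L.length + 1) = Cat := by
  rw [GG, if_neg (by omega)]

theorem bG_zero {L : List Arch} {i j : ℕ} (h : j ≤ i) (hj : j ≤ L.length) : bG L i j = 0 := by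
  rw [bG, if_neg (by omega), GG_zero h hj]

theorem GG_eq (L : List Arch) {i m : ℕ} (hi : i ≤ L.length) (hm : m ≤ L.length + 1) :
    GG L i m = (if i < m then 1 else 0) + X * ∑ l ∈ range (L.length + 1),
      (bG L i (l + 1) - bG L i l) * GG L l m := by
  rcases Nat.lt_or_ge L.length m with hm1 | hm1
  · have hm2 : m = L.length + 1 := by omega
    subst hm2
    rw [GG_last, if_pos (by omega)]
    simp only [GG_last]
    rw [← sum_mul, sum_range_sub, bG_zero (Nat.zero_le i) (Nat.zero_le _), sub_zero, bG,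
      if_neg (by omega), GG_last]
    exact Cat_eq
  · rcases Nat.lt_or_ge i m with him | him
    · rw [if_pos him]
      have hiL : i < L.length := by omega
      have hseg : (L.take m).drop i = L[i] :: (L.take m).drop (i + 1) := by
        rw [List.drop_eq_getElem_cons (by rw [List.length_take]; omega), List.getElem_take]
      have hF := F_atoms L[i] ((L.take m).drop (i + 1))
      rw [← hseg] at hF
      have hlen : ((L.take m).drop (i + 1)).length + 1 = m - i := by
        rw [List.length_drop, List.length_take]; omega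
      rw [hlen] at hF
      have hsum : ∑ l ∈ range (L.length + 1), (bG L i (l + 1) - bG L i l) * GG L l m =
          ∑ l ∈ range (m - i), (pg L[i] ((L.take m).drop (i + 1)) (l + 1) -
            pg L[i] ((L.take m).drop (i + 1)) l) * F (atoms (((L.take m).drop i).drop l)) := by
        have h1 : ∑ l ∈ range (L.length + 1), (bG L i (l + 1) - bG L i l) * GG L l m =
            ∑ l ∈ Ico i m, (bG L i (l + 1) - bG L i l) * GG L l m := by
          symm
          apply sum_subset
          · intro l hl
            rw [mem_Ico] at hl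
            rw [mem_range]; omega
          · intro l hl hl'
            rw [mem_range] at hl
            rw [mem_Ico] at hl'
            rcases Nat.lt_or_ge l i with h | h
            · rw [bG_zero h (by omega), bG_zero h.le (by omega)]; ring
            · rw [GG_zero (by omega) hm1, mul_zero]
        rw [h1, sum_Ico_eq_sum_range]
        refine sum_congr rfl fun l hl => ?_
        have hl' := mem_range.1 hl
        have hb : ∀ l' ≤ m - i, bG L i (i + l') = pg L[i] ((L.take m).drop (i + 1)) l' := by
          intro l' hl'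
          match l' with
          | 0 => rw [pg_zero, bG_zero (by omega) (by omega)]
          | 1 =>
            rw [pg_one, bG, if_pos ⟨rfl, hiL⟩, List.getD_eq_getElem _ _ hiL]
          | l' + 2 =>
            rw [pg_add_two, bG, if_neg (by omega), GG, if_pos (by omega), ← hseg,
              List.take_drop, List.take_take]
            congr 3
            rw [min_eq_left (by omega)]
        rw [← hb (l + 1) (by omega), ← hb l (by omega), GG, if_pos hm1, List.drop_drop]
        rfl
      rw [GG, if_pos hm1, hF, hsum]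
    · rw [if_neg (by omega), GG_zero him hm1]
      have : ∑ l ∈ range (L.length + 1), (bG L i (l + 1) - bG L i l) * GG L l m = 0 := by
        apply sum_eq_zero
        intro l hl
        rw [mem_range] at hl
        rcases Nat.lt_or_ge l i with h | h
        · rw [bG_zero h (by omega), bG_zero h.le (by omega)]; ring
        · rw [GG_zero (by omega) hm1, mul_zero]
      rw [this]; ring

/-- The matrix of the segments. -/
noncomputable def MM (k : ℕ) (L : List Arch) : Matrix (Fin (k + 1)) (Fin (k + 1)) ℚ⟦X⟧ :=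
  fun i j => GG L i (j + 1) - GG L i j

/-- The matrix of the first steps. -/
noncomputable def BM (k : ℕ) (L : List Arch) : Matrix (Fin (k + 1)) (Fin (k + 1)) ℚ⟦X⟧ :=
  fun i j => bG L i (j + 1) - bG L i j

/-- `F(⟨Z⟩) - F(Z)` for the `i`-th atom. -/
noncomputable def dl (L : List Arch) (i : ℕ) : ℚ⟦X⟧ :=
  F (wrap (L.getD i Arch.nil)) - F (L.getD i Arch.nil)

theorem GG_sub_bG (L : List Arch) (i j : ℕ) : GG L i j - bG L i j =
    if j = i + 1 ∧ i < L.length then dl L i else 0 := by
  rw [bG]
  split_ifs with h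
  · obtain ⟨rfl, hi⟩ := h
    rw [GG, if_pos (by omega), dl]
    have : (L.take (i + 1)).drop i = [L.getD i Arch.nil] := by
      rw [List.drop_eq_getElem_cons (by rw [List.length_take]; omega), List.getElem_take,
        List.getD_eq_getElem _ _ hi, List.drop_of_length_le (by rw [List.length_take]; omega)]
    rw [this]; rfl
  · ring

theorem MM_eq {k : ℕ} {L : List Arch} (hk : L.length = k) :
    MM k L = 1 + (X : ℚ⟦X⟧) • (BM k L * MM k L) := by
  ext i j : 1
  have hi : (i : ℕ) ≤ L.length := by have := i.2; omega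
  have hj : (j : ℕ) + 1 ≤ L.length + 1 := by have := j.2; omega
  have e1 := GG_eq L hi hj
  have e2 := GG_eq L (m := (j : ℕ)) hi (by omega)
  rw [Matrix.add_apply, Matrix.smul_apply, Matrix.mul_apply, Matrix.one_apply, MM, e1, e2]
  have e3 : ∑ l : Fin (k + 1), BM k L i l * MM k L l j = ∑ l ∈ range (L.length + 1),
      (bG L i (l + 1) - bG L i l) * (GG L l (j + 1) - GG L l j) := by
    rw [hk, Finset.sum_range]
    rfl
  rw [e3]
  have e4 : ∑ l ∈ range (L.length + 1), (bG L i (l + 1) - bG L i l) *
      (GG L l (j + 1) - GG L l j) = ∑ l ∈ range (L.length + 1), (bG L i (l + 1) - bG L i l) *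
      GG L l (j + 1) - ∑ l ∈ range (L.length + 1), (bG L i (l + 1) - bG L i l) * GG L l j := by
    rw [← sum_sub_distrib]
    exact sum_congr rfl fun l _ => by ring
  rw [e4, smul_eq_mul]
  by_cases hij : i = j
  · subst hij
    rw [if_pos (by omega), if_neg (by omega), if_pos rfl]; ring
  · rw [if_neg hij]
    have hij' : (i : ℕ) ≠ j := fun h => hij (Fin.ext h)
    by_cases h : (i : ℕ) < j
    · rw [if_pos (by omega), if_pos h]; ring
    · rw [if_neg (by omega), if_neg h]; ring

/-- The difference `M - B`. -/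
theorem MM_sub_BM {k : ℕ} {L : List Arch} (hk : L.length = k) (i j : Fin (k + 1)) :
    (MM k L - BM k L) i j = (if (j : ℕ) = i ∧ (i : ℕ) < k then dl L i else 0) -
      (if (j : ℕ) = i + 1 ∧ (i : ℕ) < k then dl L i else 0) := by
  have e : (MM k L - BM k L) i j = (GG L i (j + 1) - bG L i (j + 1)) - (GG L i j - bG L i j) := by
    rw [Matrix.sub_apply, MM, BM]; ring
  rw [e, GG_sub_bG, GG_sub_bG, hk]
  congr 1
  by_cases h : (j : ℕ) = i
  · by_cases h' : (i : ℕ) < k
    · rw [if_pos ⟨by omega, h'⟩, if_pos ⟨h, h'⟩]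
    · rw [if_neg (fun h2 => h' h2.2), if_neg (fun h2 => h' h2.2)]
  · rw [if_neg (by omega), if_neg (by omega)]

theorem inv_right {k : ℕ} {L : List Arch} (hk : L.length = k) :
    (1 - (X : ℚ⟦X⟧) • BM k L) * MM k L = 1 := by
  rw [sub_mul, one_mul, Matrix.smul_mul]
  exact sub_eq_of_eq_add (MM_eq hk)

theorem inv_left {k : ℕ} {L : List Arch} (hk : L.length = k) :
    MM k L * (1 - (X : ℚ⟦X⟧) • BM k L) = 1 := by
  rw [mul_eq_one_comm]
  exact inv_right hk

theorem F_wrap_ne (Z : Arch) : F (wrap Z) - F Z ≠ 0 := by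
  intro h
  have h1 : F (wrap Z) = F Z := sub_eq_zero.1 h
  have h2 : phi (wrap Z) = phi Z := by rw [phi, phi, h1]
  have h3 := size_eq_of_phi h2
  rw [size_wrap] at h3
  omega

/-- If `K` intertwines the differences `M - B` then it intertwines the `M`. -/
theorem intertwine {k : ℕ} {L L' : List Arch} (hk : L.length = k) (hk' : L'.length = k)
    (K : Matrix (Fin (k + 1)) (Fin (k + 1)) ℚ⟦X⟧)
    (hK : (MM k L - BM k L) * K = K * (MM k L' - BM k L')) : MM k L * K = K * MM k L' := by
  set M := MM k L
  set B := BM k L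
  set M' := MM k L'
  set B' := BM k L'
  have h1 : (1 - (X : ℚ⟦X⟧) • B) * M = 1 := inv_right hk
  have h2 : M * (1 - (X : ℚ⟦X⟧) • B) = 1 := inv_left hk
  have h3 : (1 - (X : ℚ⟦X⟧) • B') * M' = 1 := inv_right hk'
  set D := M * K - K * M' with hD
  have h4 : D = (X : ℚ⟦X⟧) • (M * D * M') := by
    have e1 : M * ((1 - (X : ℚ⟦X⟧) • B) * K) * M' = K * M' := by
      rw [← mul_assoc, h2, one_mul]
    have e2 : M * (K * (1 - (X : ℚ⟦X⟧) • B')) * M' = M * K := by
      rw [mul_assoc, mul_assoc, h3, mul_one]
    have e3 : B * K - K * B' = M * K - K * M' := by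
      have := hK
      rw [sub_mul, mul_sub] at this
      have h5 : M * K - B * K = K * M' - K * B' := this
      have h6 : M * K - K * M' = B * K - K * B' := by
        rw [sub_eq_sub_iff_add_eq_add] at h5 ⊢
        rw [h5]; abel
      exact h6.symm
    have e4 : (1 - (X : ℚ⟦X⟧) • B) * K - K * (1 - (X : ℚ⟦X⟧) • B') = -((X : ℚ⟦X⟧) • D) := by
      rw [sub_mul, mul_sub, one_mul, mul_one, Matrix.smul_mul, Matrix.mul_smul, hD, ← e3, smul_sub]
      abel
    have e5 : K * M' - M * K = M * (-((X : ℚ⟦X⟧) • D)) * M' := by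
      rw [← e1, ← e2, ← e4]
      rw [e1, e2]
      rw [mul_sub, sub_mul, e1, e2]
    have e6 : D = -(K * M' - M * K) := by rw [hD]; abel
    calc D = -(K * M' - M * K) := e6
      _ = -(M * (-((X : ℚ⟦X⟧) • D)) * M') := by rw [e5]
      _ = (X : ℚ⟦X⟧) • (M * D * M') := by
        rw [mul_neg, neg_mul, neg_neg, Matrix.mul_smul, Matrix.smul_mul]
  have h5 : ∀ n : ℕ, ∀ i j, X ^ n ∣ D i j := by
    intro n
    induction n with
    | zero => intro i j; rw [pow_zero]; exact one_dvd _
    | succ n ih =>
      intro i j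
      rw [h4, Matrix.smul_apply, smul_eq_mul, pow_succ']
      apply mul_dvd_mul_left
      rw [Matrix.mul_apply]
      apply dvd_sum
      intro l _
      apply Dvd.dvd.mul_right
      rw [Matrix.mul_apply]
      apply dvd_sum
      intro l' _
      exact Dvd.dvd.mul_left (ih _ _) _
  have h6 : D = 0 := by
    ext i j n
    rw [Matrix.zero_apply, map_zero]
    exact PowerSeries.X_pow_dvd_iff.1 (h5 (n + 1) i j) n (Nat.lt_succ_self n)
  rw [hD, sub_eq_zero] at h6
  exact h6

/-- The intertwiner for the exchange of the atoms `p - 1` and `p`. -/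
noncomputable def KM (k p : ℕ) (d d' : ℚ⟦X⟧) : Matrix (Fin (k + 1)) (Fin (k + 1)) ℚ⟦X⟧ :=
  fun i j => if (i : ℕ) = p then (if (j : ℕ) = p then d' else if (j : ℕ) + 1 = p then d - d' else 0)
    else (if i = j then d else 0)

theorem sum_two {k : ℕ} (f : Fin (k + 1) → ℚ⟦X⟧) (a b : Fin (k + 1)) (hab : a ≠ b)
    (h : ∀ l, l ≠ a → l ≠ b → f l = 0) : ∑ l, f l = f a + f b := by
  rw [← Finset.sum_pair hab]
  symm
  apply Finset.sum_subset (Finset.subset_univ _)
  intro l _ hl
  rw [Finset.mem_insert, Finset.mem_singleton, not_or] at hl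
  exact h l hl.1 hl.2

/-- The entries of `KM`. -/
def Kf {R : Type*} [CommRing R] (p : ℕ) (d d' : R) (i j : ℕ) : R :=
  if i = p then (if j = p then d' else if j + 1 = p then d - d' else 0)
    else (if i = j then d else 0)

/-- The entries of `M - B`. -/
def Ef {R : Type*} [CommRing R] (k : ℕ) (δ : ℕ → R) (i j : ℕ) : R :=
  (if j = i ∧ i < k then δ i else 0) - (if j = i + 1 ∧ i < k then δ i else 0)

theorem aux_swap {R : Type*} [CommRing R] (k i0 : ℕ) (hp : i0 + 1 < k) (δ δ' : ℕ → R)
    (h1 : δ' i0 = δ (i0 + 1)) (h2 : δ' (i0 + 1) = δ i0)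
    (h3 : ∀ r, r ≠ i0 → r ≠ i0 + 1 → δ' r = δ r) (i j : ℕ) (hi : i < k) :
    δ i * (Kf (i0 + 1) (δ i0) (δ (i0 + 1)) i j - Kf (i0 + 1) (δ i0) (δ (i0 + 1)) (i + 1) j) =
      if i = i0 + 1 then (δ i0 - δ (i0 + 1)) * Ef k δ' i0 j + δ (i0 + 1) * Ef k δ' (i0 + 1) j
        else δ i0 * Ef k δ' i j := by
  by_cases hi0 : i = i0
  · subst hi0
    rw [Ef, h1]
    simp only [Kf]
    split_ifs <;> first | omega | ring
  · by_cases hi1 : i = i0 + 1
    · subst hi1
      rw [Ef, Ef, h1, h2]
      simp only [Kf]
      split_ifs <;> first | omega | ring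
    · rw [if_neg hi1, Ef, h3 i hi0 hi1]
      simp only [Kf]
      split_ifs <;> first | omega | ring

theorem swap_intertwine {k i0 : ℕ} {L L' : List Arch} (hk : L.length = k) (hk' : L'.length = k)
    (hp : i0 + 1 < k) (h1 : dl L' i0 = dl L (i0 + 1)) (h2 : dl L' (i0 + 1) = dl L i0)
    (h3 : ∀ r, r ≠ i0 → r ≠ i0 + 1 → dl L' r = dl L r) :
    (MM k L - BM k L) * KM k (i0 + 1) (dl L i0) (dl L (i0 + 1)) =
      KM k (i0 + 1) (dl L i0) (dl L (i0 + 1)) * (MM k L' - BM k L') := by
  have hKf : ∀ i j : Fin (k + 1), KM k (i0 + 1) (dl L i0) (dl L (i0 + 1)) i j =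
      Kf (i0 + 1) (dl L i0) (dl L (i0 + 1)) i j := by
    intro i j
    rw [KM, Kf]
    simp only [Fin.ext_iff]
  have hEf : ∀ i j : Fin (k + 1), (MM k L - BM k L) i j = Ef k (dl L) i j := by
    intro i j; rw [MM_sub_BM hk, Ef]
  have hEf' : ∀ i j : Fin (k + 1), (MM k L' - BM k L') i j = Ef k (dl L') i j := by
    intro i j; rw [MM_sub_BM hk', Ef]
  ext i j : 1
  rw [Matrix.mul_apply, Matrix.mul_apply]
  simp only [hKf, hEf, hEf']
  have hR : ∑ l : Fin (k + 1), Kf (i0 + 1) (dl L i0) (dl L (i0 + 1)) i l * Ef k (dl L') l j =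
      if (i : ℕ) = i0 + 1 then (dl L i0 - dl L (i0 + 1)) * Ef k (dl L') i0 j +
        dl L (i0 + 1) * Ef k (dl L') (i0 + 1) j else dl L i0 * Ef k (dl L') i j := by
    by_cases hi : (i : ℕ) = i0 + 1
    · rw [if_pos hi, sum_two _ (⟨i0, by omega⟩ : Fin (k + 1)) ⟨i0 + 1, by omega⟩
        (by rw [Ne, Fin.mk.injEq]; omega)]
      · rw [Kf, if_pos hi, if_neg (by simp), if_pos (by simp), Kf, if_pos hi, if_pos (by simp)]
      · intro l hl1 hl2
        have e1 : (l : ℕ) ≠ i0 := fun h => hl1 (Fin.ext h)
        have e2 : (l : ℕ) ≠ i0 + 1 := fun h => hl2 (Fin.ext h)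
        rw [Kf, if_pos hi, if_neg e2, if_neg (by omega), zero_mul]
    · rw [if_neg hi, Finset.sum_eq_single i]
      · rw [Kf, if_neg hi, if_pos rfl]
      · intro l _ hl
        have e1 : (i : ℕ) ≠ l := fun h => hl (Fin.ext h.symm)
        rw [Kf, if_neg hi, if_neg e1, zero_mul]
      · intro h; exact absurd (Finset.mem_univ _) h
  rw [hR]
  by_cases hi : (i : ℕ) < k
  · rw [← aux_swap k i0 hp (dl L) (dl L') h1 h2 h3 i j hi,
      sum_two _ i (⟨i + 1, by omega⟩ : Fin (k + 1)) (by
        intro h; have := congrArg Fin.val h; simp at this)]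
    · have e1 : Ef k (dl L) i i = dl L i := by
        rw [Ef, if_pos ⟨rfl, hi⟩, if_neg (by omega), sub_zero]
      have e2 : Ef k (dl L) i ((⟨i + 1, by omega⟩ : Fin (k + 1)) : ℕ) = -dl L i := by
        rw [Ef, if_neg (by simp), if_pos ⟨rfl, hi⟩, zero_sub]
      rw [e1, e2]
      ring
    · intro l hl1 hl2
      have e1 : (l : ℕ) ≠ i := fun h => hl1 (Fin.ext h)
      have e2 : (l : ℕ) ≠ i + 1 := fun h => hl2 (Fin.ext h)
      rw [Ef, if_neg (by omega), if_neg (by omega), sub_zero, zero_mul]
  · have e1 : ∀ l : ℕ, Ef k (dl L) i l = 0 := by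
      intro l; rw [Ef, if_neg (by omega), if_neg (by omega), sub_zero]
    have e2 : ∀ l : ℕ, Ef k (dl L') i l = 0 := by
      intro l; rw [Ef, if_neg (by omega), if_neg (by omega), sub_zero]
    simp only [e1, e2, zero_mul, Finset.sum_const_zero, mul_zero]
    rw [if_neg (by omega)]

/-- Adjacent atoms commute. -/
theorem F_swap (P Q : List Arch) (a b : Arch) :
    F (atoms (P ++ a :: b :: Q)) = F (atoms (P ++ b :: a :: Q)) := by
  set L := P ++ a :: b :: Q with hL
  set L' := P ++ b :: a :: Q with hL'
  set k := P.length + Q.length + 2 with hkk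
  have hk : L.length = k := by simp [hL, hkk]; omega
  have hk' : L'.length = k := by simp [hL', hkk]; omega
  have g1 : L.getD P.length Arch.nil = a := by
    rw [hL, List.getD_append_right _ _ _ _ le_rfl]; simp
  have g2 : L.getD (P.length + 1) Arch.nil = b := by
    rw [hL, List.getD_append_right _ _ _ _ (by omega)]; simp
  have g3 : L'.getD P.length Arch.nil = b := by
    rw [hL', List.getD_append_right _ _ _ _ le_rfl]; simp
  have g4 : L'.getD (P.length + 1) Arch.nil = a := by
    rw [hL', List.getD_append_right _ _ _ _ (by omega)]; simp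
  have g5 : ∀ r, r ≠ P.length → r ≠ P.length + 1 → L'.getD r Arch.nil = L.getD r Arch.nil := by
    intro r h1 h2
    rcases Nat.lt_or_ge r P.length with h | h
    · rw [hL, hL', List.getD_append _ _ _ _ h, List.getD_append _ _ _ _ h]
    · rw [hL, hL', List.getD_append_right _ _ _ _ h, List.getD_append_right _ _ _ _ h]
      obtain ⟨c, hc⟩ : ∃ c, r - P.length = c + 2 := ⟨r - P.length - 2, by omega⟩
      rw [hc]; simp
  have hI := intertwine hk hk' _ (swap_intertwine (i0 := P.length) hk hk' (by omega)
    (by rw [dl, dl, g3, g2]) (by rw [dl, dl, g4, g1])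
    (fun r h1 h2 => by rw [dl, dl, g5 r h1 h2]))
  have hent := congrFun (congrFun hI 0) (Fin.last k)
  rw [Matrix.mul_apply, Matrix.mul_apply, Finset.sum_eq_single (Fin.last k),
    Finset.sum_eq_single (0 : Fin (k + 1))] at hent
  · have e1 : KM k (P.length + 1) (dl L P.length) (dl L (P.length + 1)) (Fin.last k)
        (Fin.last k) = dl L P.length := by
      rw [KM, if_neg (by rw [Fin.val_last]; omega), if_pos rfl]
    have e2 : KM k (P.length + 1) (dl L P.length) (dl L (P.length + 1)) 0 0 =
        dl L P.length := by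
      rw [KM, if_neg (by rw [Fin.val_zero]; omega), if_pos rfl]
    rw [e1, e2] at hent
    have hd : dl L P.length ≠ 0 := by rw [dl]; exact F_wrap_ne _
    have h3 : MM k L 0 (Fin.last k) = MM k L' 0 (Fin.last k) := by
      have : dl L P.length * (MM k L 0 (Fin.last k) - MM k L' 0 (Fin.last k)) = 0 := by
        linear_combination hent
      rcases mul_eq_zero.1 this with h | h
      · exact absurd h hd
      · exact sub_eq_zero.1 h
    rw [MM, MM, Fin.val_last, Fin.val_zero, ← hk] at h3
    rw [GG_last] at h3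
    have e3 : L.length = L'.length := by rw [hk, hk']
    conv_rhs at h3 => rw [e3, GG_last]
    rw [GG, GG, if_pos le_rfl, if_pos le_rfl, List.take_length, List.take_length, List.drop_zero,
      List.drop_zero] at h3
    linear_combination -h3
  · intro l _ hl
    rw [KM, if_neg (by rw [Fin.val_zero]; omega), if_neg (fun h => hl h.symm), zero_mul]
  · intro h; exact absurd (Finset.mem_univ _) h
  · intro l _ hl
    rw [KM]
    have hl' : (l : ℕ) ≠ k := fun h => hl (Fin.ext (by rw [h, Fin.val_last]))
    by_cases h : (l : ℕ) = P.length + 1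
    · rw [if_pos h, if_neg (by rw [Fin.val_last]; omega), if_neg (by rw [Fin.val_last]; omega),
        mul_zero]
    · rw [if_neg h, if_neg hl, mul_zero]
  · intro h; exact absurd (Finset.mem_univ _) h

end ArchG
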