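import Pool.Agent.Lib.ArchG.Alg

namespace ArchG

open Arch PowerSeries Finset

/-! ### Congruences of power series -/

/-- Congruence modulo `X ^ m`. -/
def Cg (m : ℕ) (x y : ℚ⟦X⟧) : Prop := X ^ m ∣ x - y

namespace Cg

theorem refl (m : ℕ) (x : ℚ⟦X⟧) : Cg m x x := by simp [Cg]

theorem of_eq {m : ℕ} {x y : ℚ⟦X⟧} (h : x = y) : Cg m x y := by rw [h]; exact refl m y

theorem symm {m : ℕ} {x y : ℚ⟦X⟧} (h : Cg m x y) : Cg m y x := by
  rw [Cg, ← neg_sub, dvd_neg]; exact h

theorem trans {m : ℕ} {x y z : ℚ⟦X⟧} (h : Cg m x y) (h' : Cg m y z) : Cg m x z := by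
  have := dvd_add h h'
  rw [Cg]; convert this using 1; ring

theorem add {m : ℕ} {x y x' y' : ℚ⟦X⟧} (h : Cg m x x') (h' : Cg m y y') :
    Cg m (x + y) (x' + y') := by
  have := dvd_add h h'
  rw [Cg]; convert this using 1; ring

theorem sub {m : ℕ} {x y x' y' : ℚ⟦X⟧} (h : Cg m x x') (h' : Cg m y y') :
    Cg m (x - y) (x' - y') := by
  have := dvd_sub h h'
  rw [Cg]; convert this using 1; ring

theorem mul {m : ℕ} {x y x' y' : ℚ⟦X⟧} (h : Cg m x x') (h' : Cg m y y') :
    Cg m (x * y) (x' * y') := by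
  have := dvd_add (Dvd.dvd.mul_right h y) (Dvd.dvd.mul_left h' x')
  rw [Cg]; convert this using 1; ring

theorem mono {m n : ℕ} (hmn : m ≤ n) {x y : ℚ⟦X⟧} (h : Cg n x y) : Cg m x y :=
  (pow_dvd_pow _ hmn).trans h

theorem inv {m : ℕ} {x y : ℚ⟦X⟧} (hx : constantCoeff x = 1) (hy : constantCoeff y = 1)
    (h : Cg m x y) : Cg m x⁻¹ y⁻¹ := by
  have e : x⁻¹ - y⁻¹ = -(x - y) * (x⁻¹ * y⁻¹) := by
    linear_combination y⁻¹ * mul_inv' hx - x⁻¹ * mul_inv' hy
  rw [Cg, e]
  exact Dvd.dvd.mul_right (by rw [dvd_neg]; exact h) _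

theorem sum {ι : Type*} {m : ℕ} {s : Finset ι} {f g : ι → ℚ⟦X⟧}
    (h : ∀ i ∈ s, Cg m (f i) (g i)) : Cg m (∑ i ∈ s, f i) (∑ i ∈ s, g i) := by
  rw [Cg, ← sum_sub_distrib]
  exact dvd_sum h

end Cg

theorem X_dvd_q : X ∣ q := by rw [X_dvd_iff]; exact constantCoeff_q

theorem Cg.qmul {m : ℕ} {x y : ℚ⟦X⟧} (h : Cg m x y) : Cg (m + 1) (q * x) (q * y) := by
  rw [Cg, ← mul_sub, pow_succ']
  exact mul_dvd_mul X_dvd_q h

theorem Cg.mul_of_cc {m : ℕ} {x x' y : ℚ⟦X⟧} (h : Cg m x x') (hy : constantCoeff y = 0) :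
    Cg (m + 1) (x * y) (x' * y) := by
  rw [Cg, ← sub_mul, pow_succ]
  exact mul_dvd_mul h (X_dvd_iff.2 hy)

/-- Entrywise congruence of two lists. -/
def Cl (m : ℕ) (A A' : List ℚ⟦X⟧) : Prop := List.Forall₂ (Cg m) A A'

theorem Cl.length_eq {m : ℕ} {A A' : List ℚ⟦X⟧} (h : Cl m A A') : A.length = A'.length :=
  List.Forall₂.length_eq h

theorem Cl.take {m : ℕ} {A A' : List ℚ⟦X⟧} (h : Cl m A A') (j : ℕ) :
    Cl m (A.take j) (A'.take j) := List.forall₂_take j h

theorem Cl.drop {m : ℕ} {A A' : List ℚ⟦X⟧} (h : Cl m A A') (j : ℕ) :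
    Cl m (A.drop j) (A'.drop j) := List.forall₂_drop j h

theorem Cl.getD {m : ℕ} {A A' : List ℚ⟦X⟧} (h : Cl m A A') (j : ℕ) :
    Cg m (A.getD j 0) (A'.getD j 0) := by
  induction h generalizing j with
  | nil => simp [Cg.refl]
  | cons h1 _ ih =>
    cases j with
    | zero => simpa using h1
    | succ j => simpa using ih j

theorem Cl.sum {m : ℕ} {A A' : List ℚ⟦X⟧} (h : Cl m A A') : Cg m A.sum A'.sum := by
  induction h with
  | nil => exact Cg.refl _ _
  | cons h1 _ ih => rw [List.sum_cons, List.sum_cons]; exact h1.add ih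

/-! ### The function `ee` -/

theorem cc_ee (A : List ℚ⟦X⟧) (z : ℚ⟦X⟧) : constantCoeff (ee A z) = 1 := by
  induction A with
  | nil => rw [ee_nil, map_one]
  | cons a A ih =>
    rw [ee_cons, map_mul, map_mul, cc_one_sub, cc_inv (cc_one_sub _), map_add, ih, map_mul,
      map_mul, constantCoeff_q]
    ring

theorem ee_cong {m : ℕ} {A A' : List ℚ⟦X⟧} (h : Cl m A A') {z z' : ℚ⟦X⟧} (hz : Cg m z z') :
    Cg (m + 1) (ee A z) (ee A' z') := by
  generalize hn : A.length = n
  induction n using Nat.strong_induction_on generalizing A A' z z' with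
  | _ n ih =>
    cases h with
    | nil => rw [ee_nil, ee_nil]; exact Cg.refl _ _
    | @cons a a' A A' h1 h2 =>
      have h2' : Cl m A A' := h2
      have hlen := h2'.length_eq
      rw [List.length_cons] at hn
      rw [ee_cons, ee_cons, ← hlen]
      have k0 := ih A.length (by omega) h2' hz rfl
      have k1 : Cg (m + 1) (1 - q * z) (1 - q * z') := (Cg.refl _ _).sub hz.qmul
      have k2 : Cg (m + 1) (1 - q * (a * z))⁻¹ (1 - q * (a' * z'))⁻¹ :=
        Cg.inv (cc_one_sub _) (cc_one_sub _) ((Cg.refl _ _).sub (h1.mul hz).qmul)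
      have k3 : Cg m (∑ j ∈ range A.length, ee (a :: A.take j) (A.getD j 0) *
          (1 - q * A.getD j 0)⁻¹ * (ee (A.drop (j + 1)) z - A.getD j 0 * ee (A.drop j) z))
          (∑ j ∈ range A.length, ee (a' :: A'.take j) (A'.getD j 0) *
          (1 - q * A'.getD j 0)⁻¹ *
          (ee (A'.drop (j + 1)) z' - A'.getD j 0 * ee (A'.drop j) z')) := by
        refine Cg.sum fun j hj => ?_
        have hj' := mem_range.1 hj
        have m1 : Cg m (ee (a :: A.take j) (A.getD j 0)) (ee (a' :: A'.take j) (A'.getD j 0)) := by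
          refine (ih (j + 1) (by omega) (List.Forall₂.cons h1 (h2'.take j)) (h2'.getD j) ?_).mono
            (Nat.le_succ m)
          rw [List.length_cons, List.length_take]; omega
        have m2 : Cg m (1 - q * A.getD j 0)⁻¹ (1 - q * A'.getD j 0)⁻¹ :=
          (Cg.inv (cc_one_sub _) (cc_one_sub _) ((Cg.refl _ _).sub (h2'.getD j).qmul)).mono
            (Nat.le_succ m)
        have m3 : Cg m (ee (A.drop (j + 1)) z) (ee (A'.drop (j + 1)) z') :=
          (ih (A.drop (j + 1)).length (by rw [List.length_drop]; omega) (h2'.drop (j + 1)) hz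
            rfl).mono (Nat.le_succ m)
        have m4 : Cg m (ee (A.drop j) z) (ee (A'.drop j) z') :=
          (ih (A.drop j).length (by rw [List.length_drop]; omega) (h2'.drop j) hz
            rfl).mono (Nat.le_succ m)
        exact (m1.mul m2).mul (m3.sub ((h2'.getD j).mul m4))
      refine (k1.mul k2).mul (k0.add ?_)
      have k4 := (((Cg.refl m (1 : ℚ⟦X⟧)).sub h1).mul k3).qmul
      rw [mul_assoc, mul_assoc]
      exact k4

/-! ### The function `gg` -/

/-- The function `g` with `e(A, z) = e(A, 0) - q z g(A, z)`. -/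
noncomputable def gg : List ℚ⟦X⟧ → ℚ⟦X⟧ → ℚ⟦X⟧
  | [], _ => 0
  | a :: A, z => (1 - a) * (1 - q * (a * z))⁻¹ * ee (a :: A) 0 +
      (1 - q * (z * ((1 - a) * (1 - q * (a * z))⁻¹))) * (gg A z + q * (1 - a) *
      ∑ j : Fin A.length, ee (a :: A.take j) (A.getD j 0) * (1 - q * A.getD j 0)⁻¹ *
        (gg (A.drop (j + 1)) z - A.getD j 0 * gg (A.drop j) z))
  termination_by A _ => A.length
  decreasing_by
    · simp
    · simp
    · simp

theorem gg_nil (z : ℚ⟦X⟧) : gg [] z = 0 := by rw [gg]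

theorem gg_cons (a : ℚ⟦X⟧) (A : List ℚ⟦X⟧) (z : ℚ⟦X⟧) : gg (a :: A) z =
    (1 - a) * (1 - q * (a * z))⁻¹ * ee (a :: A) 0 +
      (1 - q * (z * ((1 - a) * (1 - q * (a * z))⁻¹))) * (gg A z + q * (1 - a) *
      ∑ j ∈ range A.length, ee (a :: A.take j) (A.getD j 0) * (1 - q * A.getD j 0)⁻¹ *
        (gg (A.drop (j + 1)) z - A.getD j 0 * gg (A.drop j) z)) := by
  rw [gg, Finset.sum_range]

theorem ee_zero_cons (a : ℚ⟦X⟧) (A : List ℚ⟦X⟧) : ee (a :: A) 0 =
    ee A 0 + q * (1 - a) * ∑ j ∈ range A.length, ee (a :: A.take j) (A.getD j 0) *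
      (1 - q * A.getD j 0)⁻¹ * (ee (A.drop (j + 1)) 0 - A.getD j 0 * ee (A.drop j) 0) := by
  rw [ee_cons]
  have h : (1 - q * (a * 0) : ℚ⟦X⟧)⁻¹ = 1 := by
    have := mul_inv' (cc_one_sub (a * 0))
    rw [mul_zero, mul_zero, sub_zero, one_mul] at this
    rw [mul_zero, mul_zero, sub_zero]; exact this
  rw [h, mul_zero, sub_zero, mul_one, one_mul]

theorem ee_eq (A : List ℚ⟦X⟧) (z : ℚ⟦X⟧) : ee A z = ee A 0 - q * z * gg A z := by
  generalize hn : A.length = n
  induction n using Nat.strong_induction_on generalizing A with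
  | _ n ih =>
    cases A with
    | nil => rw [ee_nil, ee_nil, gg_nil]; ring
    | cons a A =>
      rw [List.length_cons] at hn
      have h0 := ee_zero_cons a A
      rw [gg_cons, ee_cons a A z]
      have hS : ∑ j ∈ range A.length, ee (a :: A.take j) (A.getD j 0) *
          (1 - q * A.getD j 0)⁻¹ * (ee (A.drop (j + 1)) z - A.getD j 0 * ee (A.drop j) z) =
          ∑ j ∈ range A.length, ee (a :: A.take j) (A.getD j 0) *
          (1 - q * A.getD j 0)⁻¹ * (ee (A.drop (j + 1)) 0 - A.getD j 0 * ee (A.drop j) 0) -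
          q * z * ∑ j ∈ range A.length, ee (a :: A.take j) (A.getD j 0) *
          (1 - q * A.getD j 0)⁻¹ * (gg (A.drop (j + 1)) z - A.getD j 0 * gg (A.drop j) z) := by
        rw [mul_sum, ← sum_sub_distrib]
        refine sum_congr rfl fun j hj => ?_
        rw [ih (A.drop (j + 1)).length (by rw [List.length_drop]; omega) (A.drop (j + 1)) rfl,
          ih (A.drop j).length (by rw [List.length_drop]; omega) (A.drop j) rfl]
        ring
      have i0 := ih A.length (by omega) A rfl
      rw [hS]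
      set S0 := ∑ j ∈ range A.length, ee (a :: A.take j) (A.getD j 0) *
          (1 - q * A.getD j 0)⁻¹ * (ee (A.drop (j + 1)) 0 - A.getD j 0 * ee (A.drop j) 0)
      set S1 := ∑ j ∈ range A.length, ee (a :: A.take j) (A.getD j 0) *
          (1 - q * A.getD j 0)⁻¹ * (gg (A.drop (j + 1)) z - A.getD j 0 * gg (A.drop j) z)
      have hw := mul_inv' (cc_one_sub (a * z))
      set w := (1 - q * (a * z))⁻¹
      set E := ee (a :: A) 0
      have h1 : (1 - q * z) * w = 1 - q * (z * ((1 - a) * w)) := by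
        linear_combination hw
      rw [h1, i0]
      linear_combination (-1 + q * (z * ((1 - a) * w))) * h0 + 0 * hw

theorem cc_gg {A : List ℚ⟦X⟧} (hA : ∀ a ∈ A, constantCoeff a = 0) (z : ℚ⟦X⟧) :
    constantCoeff (gg A z) = (A.length : ℚ) := by
  induction A with
  | nil => rw [gg_nil]; simp
  | cons a A ih =>
    have ha : constantCoeff a = 0 := hA a List.mem_cons_self
    have ih' := ih (fun b hb => hA b (List.mem_cons_of_mem _ hb))
    rw [gg_cons, map_add, map_mul, map_mul, cc_ee, cc_inv (cc_one_sub _), map_mul, cc_one_sub,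
      map_add, ih', map_mul, map_mul, constantCoeff_q, map_sub, ha, map_one, List.length_cons]
    push_cast; ring

theorem gg_cong {m : ℕ} {A A' : List ℚ⟦X⟧} (h : Cl m A A')
    (hA : ∀ a ∈ A, constantCoeff a = 0) (hA' : ∀ a ∈ A', constantCoeff a = 0) (z : ℚ⟦X⟧) :
    Cg (m + 1) (gg A z + A.sum) (gg A' z + A'.sum) := by
  generalize hn : A.length = n
  induction n using Nat.strong_induction_on generalizing A A' with
  | _ n ih =>
    cases h with
    | nil => exact Cg.refl _ _
    | @cons a a' A A' h1 h2 =>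
      have h2' : Cl m A A' := h2
      have hlen := h2'.length_eq
      rw [List.length_cons] at hn
      have bA : ∀ b ∈ A, constantCoeff b = 0 := fun b hb => hA b (List.mem_cons_of_mem _ hb)
      have bA' : ∀ b ∈ A', constantCoeff b = 0 := fun b hb => hA' b (List.mem_cons_of_mem _ hb)
      have bd : ∀ j, ∀ b ∈ A.drop j, constantCoeff b = 0 :=
        fun j b hb => bA b (List.mem_of_mem_drop hb)
      have bd' : ∀ j, ∀ b ∈ A'.drop j, constantCoeff b = 0 :=
        fun j b hb => bA' b (List.mem_of_mem_drop hb)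
      have weak : ∀ {B B' : List ℚ⟦X⟧}, Cl m B B' → B.length < n →
          (∀ b ∈ B, constantCoeff b = 0) → (∀ b ∈ B', constantCoeff b = 0) →
          Cg m (gg B z) (gg B' z) := by
        intro B B' hB hlt c1 c2
        have := ((ih B.length hlt hB c1 c2 rfl).mono (Nat.le_succ m)).sub hB.sum
        simpa using this
      rw [gg_cons, gg_cons, ← hlen, List.sum_cons, List.sum_cons]
      have ke : Cg (m + 1) (ee (a :: A) 0) (ee (a' :: A') 0) :=
        ee_cong (List.Forall₂.cons h1 h2) (Cg.refl _ _)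
      have kw : Cg (m + 1) (1 - q * (a * z))⁻¹ (1 - q * (a' * z))⁻¹ :=
        Cg.inv (cc_one_sub _) (cc_one_sub _) ((Cg.refl _ _).sub (h1.mul (Cg.refl _ _)).qmul)
      have cw := cc_inv (cc_one_sub (a * z))
      have cw' := cc_inv (cc_one_sub (a' * z))
      have ce := cc_ee (a :: A) 0
      have ce' := cc_ee (a' :: A') 0
      set w := (1 - q * (a * z))⁻¹
      set w' := (1 - q * (a' * z))⁻¹
      set E := ee (a :: A) 0
      set E' := ee (a' :: A') 0
      set S := ∑ j ∈ range A.length, ee (a :: A.take j) (A.getD j 0) *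
          (1 - q * A.getD j 0)⁻¹ * (gg (A.drop (j + 1)) z - A.getD j 0 * gg (A.drop j) z) with hS
      set S' := ∑ j ∈ range A.length, ee (a' :: A'.take j) (A'.getD j 0) *
          (1 - q * A'.getD j 0)⁻¹ * (gg (A'.drop (j + 1)) z - A'.getD j 0 * gg (A'.drop j) z)
          with hS'
      have kS : Cg m S S' := by
        refine Cg.sum fun j hj => ?_
        have hj' := mem_range.1 hj
        have m1 : Cg m (ee (a :: A.take j) (A.getD j 0)) (ee (a' :: A'.take j) (A'.getD j 0)) :=
          (ee_cong (List.Forall₂.cons h1 (h2'.take j)) (h2'.getD j)).mono (Nat.le_succ m)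
        have m2 : Cg m (1 - q * A.getD j 0)⁻¹ (1 - q * A'.getD j 0)⁻¹ :=
          (Cg.inv (cc_one_sub _) (cc_one_sub _) ((Cg.refl _ _).sub (h2'.getD j).qmul)).mono
            (Nat.le_succ m)
        have m3 : Cg m (gg (A.drop (j + 1)) z) (gg (A'.drop (j + 1)) z) :=
          weak (h2'.drop (j + 1)) (by rw [List.length_drop]; omega) (bd _) (bd' _)
        have m4 : Cg m (gg (A.drop j) z) (gg (A'.drop j) z) :=
          weak (h2'.drop j) (by rw [List.length_drop]; omega) (bd _) (bd' _)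
        exact (m1.mul m2).mul (m3.sub ((h2'.getD j).mul m4))
      have kg := ih A.length (by omega) h2' bA bA' rfl
      have kgw := weak h2' (by omega) bA bA'
      -- first part
      have p1 : Cg (m + 1) ((1 - a) * w * E + a) ((1 - a') * w' * E' + a') := by
        have y1 : Cg (m + 1) (w * E) (w' * E') := kw.mul ke
        have y2 : Cg (m + 1) (a * (w * E - 1)) (a' * (w' * E' - 1)) := by
          have z1 : Cg (m + 1) (a * (w * E - 1)) (a' * (w * E - 1)) := by
            apply h1.mul_of_cc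
            rw [map_sub, map_mul, cw, ce]; simp
          have z2 : Cg (m + 1) (a' * (w * E - 1)) (a' * (w' * E' - 1)) :=
            (Cg.refl _ _).mul (y1.sub (Cg.refl _ _))
          exact z1.trans z2
        have := y1.sub y2
        convert this using 1 <;> ring
      -- second part
      have p2 : Cg (m + 1) (gg A z + q * (1 - a) * S + A.sum)
          (gg A' z + q * (1 - a') * S' + A'.sum) := by
        have y1 := kg.add ((((Cg.refl m (1 : ℚ⟦X⟧)).sub h1).mul kS).qmul)
        convert y1 using 1 <;> ring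
      have p3 : Cg (m + 1) (q * (z * ((1 - a) * w) * (gg A z + q * (1 - a) * S)))
          (q * (z * ((1 - a') * w') * (gg A' z + q * (1 - a') * S'))) := by
        apply Cg.qmul
        refine Cg.mul ?_ ?_
        · exact (Cg.refl _ _).mul (((Cg.refl _ _).sub h1).mul (kw.mono (Nat.le_succ m)))
        · exact kgw.add (((Cg.refl _ _).mul ((Cg.refl _ _).sub h1)).mul kS)
      have := (p1.add p2).sub p3
      convert this using 1 <;> ring

end ArchG
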