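import Pool.Agent.Lib.ArchG.Inject

namespace ArchG

open Arch Finset

/-- Sorted lists of numbers at least `m` in which the sum of all `a + 1` is `n`. -/
def parts : ℕ → ℕ → ℕ → List (List ℕ)
  | 0, _, n => if n = 0 then [[]] else []
  | f + 1, m, n => if n = 0 then [[]] else (List.range n).flatMap fun a =>
      if m ≤ a then (parts f a (n - (a + 1))).map (List.cons a) else []

theorem parts_sorted {f m n : ℕ} {σ : List ℕ} (h : σ ∈ parts f m n) :
    σ.Pairwise (· ≤ ·) ∧ ∀ c ∈ σ, m ≤ c := by
  induction f generalizing m n σ with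
  | zero =>
    rw [parts] at h
    split_ifs at h
    · rw [List.mem_singleton] at h; subst h; simp
    · simp at h
  | succ f ih =>
    rw [parts] at h
    split_ifs at h with h0
    · rw [List.mem_singleton] at h; subst h; simp
    · rw [List.mem_flatMap] at h
      obtain ⟨a, _, h⟩ := h
      split_ifs at h with h1
      · rw [List.mem_map] at h
        obtain ⟨τ, hτ, rfl⟩ := h
        obtain ⟨i1, i2⟩ := ih hτ
        refine ⟨List.pairwise_cons.2 ⟨i2, i1⟩, ?_⟩
        intro c hc
        rcases List.mem_cons.1 hc with rfl | hc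
        · exact h1
        · exact h1.trans (i2 c hc)
      · simp at h

/-- Sorted lists with at least two entries in which the sum of all `a + 1` is at most `13`. -/
def alph : List (List ℕ) := ((List.range 14).flatMap fun n => parts 13 0 n).filter
  (fun σ => decide (2 ≤ σ.length))

theorem alph_sorted {σ : List ℕ} (h : σ ∈ alph) : σ.Pairwise (· ≤ ·) ∧ 2 ≤ σ.length := by
  rw [alph, List.mem_filter, List.mem_flatMap] at h
  obtain ⟨⟨n, _, h1⟩, h2⟩ := h
  exact ⟨(parts_sorted h1).1, by simpa using h2⟩

theorem alph_nodup : alph.Nodup := by decide +kernel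

/-- The alphabet. -/
def alphabet : Finset Step := insert Step.wrap (alph.toFinset.image
  fun σ => Step.join (σ.map nest))

theorem map_nest_injective : Function.Injective (fun σ : List ℕ => Step.join (σ.map nest)) := by
  intro σ τ h
  rw [Step.join.injEq] at h
  have hinj : Function.Injective nest := by
    intro a b hab
    rw [← size_nest a, ← size_nest b, hab]
  exact List.map_injective_iff.2 hinj h

theorem alphabet_mem {t : Step} (h : t ∈ alphabet) : t ∈ sortedSteps nest := by
  rw [alphabet, mem_insert, mem_image] at h
  rcases h with h | ⟨σ, h1, h2⟩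
  · exact Or.inl h
  · rw [List.mem_toFinset] at h1
    exact Or.inr ⟨σ, (alph_sorted h1).1, (alph_sorted h1).2, h2.symm⟩

theorem weight_join_nest (σ : List ℕ) :
    (Step.join (σ.map nest)).weight = (σ.map fun a => a + 1).sum + 1 := by
  rw [Step.weight, List.map_map]
  congr 2
  apply List.map_congr_left
  intro a _
  simp

/-- The weights of the joins in the alphabet. -/
def wts : List ℕ := alph.map fun σ => (σ.map fun a => a + 1).sum + 1

theorem sum_list (x : ℝ) (l : List (List ℕ)) (hl : l.Nodup) :
    ∑ t ∈ insert Step.wrap (l.toFinset.image fun σ => Step.join (σ.map nest)), x ^ t.weight =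
      x + ((l.map fun σ => (σ.map fun a => a + 1).sum + 1).map fun n => x ^ n).sum := by
  have h : ∀ l : List (List ℕ), (l.map fun σ => x ^ (Step.join (σ.map nest)).weight).sum =
      ((l.map fun σ => (σ.map fun a => a + 1).sum + 1).map fun n => x ^ n).sum := by
    intro l
    induction l with
    | nil => rfl
    | cons σ l ih => rw [List.map_cons, List.sum_cons, ih, weight_join_nest]; rfl
  have h0 : x ^ Step.wrap.weight = x := by simp [Step.weight]
  rw [sum_insert, sum_image, h0, List.sum_toFinset _ hl, h]
  · exact fun a _ b _ h => map_nest_injective h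
  · rw [mem_image]
    rintro ⟨σ, _, h⟩
    simp at h

theorem sum_alphabet (x : ℝ) : ∑ t ∈ alphabet, x ^ t.weight = x + (wts.map fun n => x ^ n).sum :=
  sum_list x alph alph_nodup

theorem wts_eq : wts = List.replicate 1 3 ++ List.replicate 2 4 ++ List.replicate 4 5 ++
    List.replicate 6 6 ++ List.replicate 10 7 ++ List.replicate 14 8 ++ List.replicate 21 9 ++
    List.replicate 29 10 ++ List.replicate 41 11 ++ List.replicate 55 12 ++
    List.replicate 76 13 ++ List.replicate 100 14 := by decide +kernel

theorem sum_ge : 1 ≤ ∑ t ∈ alphabet, ((2111 / 1000 : ℝ)⁻¹) ^ t.weight := by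
  rw [sum_alphabet, wts_eq]
  simp only [List.map_append, List.sum_append, List.map_replicate, List.sum_replicate,
    nsmul_eq_mul]
  norm_num

theorem wrap_mem : Step.wrap ∈ alphabet := mem_insert_self _ _

theorem growth_211 : ∃ n₀ : ℕ, ∀ n ≥ n₀, (211 / 100 : ℝ) ^ n ≤ (wilfClasses n : ℝ) :=
  growth_bound (good_sortedSteps size_nest) alphabet (fun _ h => alphabet_mem h) wrap_mem
    (by norm_num) (by norm_num) sum_ge

end ArchG
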