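import Pool.Agent.Lib.ArchG.Series

namespace ArchG

open Arch PowerSeries Finset

/-! ### Separated lists -/

theorem prod_ent (M : List Arch) : ∃ U : ℚ⟦X⟧, constantCoeff U = 1 ∧
    coeff 1 U = ((M.map Arch.branch).sum : ℚ) ∧
    (ent M).prod = q ^ (M.map fun Y => Y.size + 1).sum * U := by
  induction M with
  | nil => exact ⟨1, map_one _, by simp [PowerSeries.coeff_one], by simp [ent]⟩
  | cons Y M ihM =>
    obtain ⟨U1, a1, a2, a3⟩ := ihM
    obtain ⟨U2, b1, b2, b3⟩ := phi_form Y
    refine ⟨U2 * U1, by rw [map_mul, a1, b1, one_mul], ?_, ?_⟩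
    · rw [coeff_one_mul', a2, b2, PowerSeries.coeff_zero_eq_constantCoeff_apply,
        PowerSeries.coeff_zero_eq_constantCoeff_apply, a1, b1]
      simp; ring
    · have : ent (Y :: M) = phi (wrap Y) :: ent M := rfl
      rw [this, List.prod_cons, a3, phi_wrap, b3, List.map_cons, List.sum_cons]
      ring

theorem ent_cg {Y : Arch} {m : ℕ} (h : m ≤ Y.size + 1) : Cg m (phi (wrap Y)) 0 := by
  obtain ⟨U, _, _, h3⟩ := phi_form Y
  rw [Cg, sub_zero, phi_wrap, h3, ← mul_assoc, ← pow_succ']
  exact Dvd.dvd.mul_right (X_pow_dvd_q_pow h) _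

theorem Cl_ent_zero {r r' : List Arch} {m : ℕ} (hl : r.length = r'.length)
    (h : ∀ Z ∈ r, m ≤ Z.size + 1) (h' : ∀ Z ∈ r', m ≤ Z.size + 1) : Cl m (ent r) (ent r') := by
  induction r generalizing r' with
  | nil =>
    cases r' with
    | nil => exact List.Forall₂.nil
    | cons Y r' => simp at hl
  | cons Y r ih =>
    cases r' with
    | nil => simp at hl
    | cons Y' r' =>
      refine List.Forall₂.cons ?_ (ih (by simpa using hl)
        (fun Z hZ => h Z (List.mem_cons_of_mem _ hZ)) (fun Z hZ => h' Z (List.mem_cons_of_mem _ hZ)))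
      exact (ent_cg (h Y List.mem_cons_self)).trans (ent_cg (h' Y' List.mem_cons_self)).symm

theorem Cl_refl (m : ℕ) (A : List ℚ⟦X⟧) : Cl m A A := by
  induction A with
  | nil => exact List.Forall₂.nil
  | cons a A ih => exact List.Forall₂.cons (Cg.refl _ _) ih

theorem Cl_append {m : ℕ} (P : List ℚ⟦X⟧) {A A' : List ℚ⟦X⟧} (h : Cl m A A') :
    Cl m (P ++ A) (P ++ A') := by
  induction P with
  | nil => exact h
  | cons a P ih => exact List.Forall₂.cons (Cg.refl _ _) ih

theorem sum_ent_cg {r : List Arch} {m : ℕ} (h : ∀ Z ∈ r, m ≤ Z.size + 1) :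
    Cg m (ent r).sum 0 := by
  induction r with
  | nil => exact Cg.refl _ _
  | cons Y r ih =>
    have e : ent (Y :: r) = phi (wrap Y) :: ent r := rfl
    rw [e, List.sum_cons]
    have := (ent_cg (h Y List.mem_cons_self)).add (ih fun Z hZ => h Z (List.mem_cons_of_mem _ hZ))
    rwa [add_zero] at this

theorem coeff_ent {Y : Arch} {m : ℕ} (h : m ≤ Y.size + 1) : 0 ≤ coeff m (phi (wrap Y)) := by
  obtain ⟨U, h1, _, h3⟩ := phi_form Y
  rw [phi_wrap, h3, ← mul_assoc, ← pow_succ']
  rcases Nat.lt_or_ge m (Y.size + 1) with h4 | h4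
  · rw [coeff_q_pow_mul_of_lt h4]
  · rw [le_antisymm h h4, coeff_q_pow_mul_self h1]; exact zero_le_one

theorem coeff_sum_ent {r : List Arch} {m : ℕ} (h : ∀ Z ∈ r, m ≤ Z.size + 1) :
    0 ≤ coeff m (ent r).sum := by
  induction r with
  | nil => simp [ent]
  | cons Y r ih =>
    have e : ent (Y :: r) = phi (wrap Y) :: ent r := rfl
    rw [e, List.sum_cons, map_add]
    exact add_nonneg (coeff_ent (h Y List.mem_cons_self))
      (ih fun Z hZ => h Z (List.mem_cons_of_mem _ hZ))

theorem Step.weight_pos (t : Step) : 1 ≤ t.weight := by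
  cases t <;> simp [Step.weight]

theorem sum_size_ge (l : List Arch) : l.length ≤ (l.map fun Y => Y.size + 1).sum := by
  induction l with
  | nil => simp
  | cons Y l ih => simp only [List.length_cons, List.map_cons, List.sum_cons]; omega

theorem BB_sep' {l l' : List Arch} (h : Separated l l') (hlen : l.length = l'.length)
    (h2 : 2 ≤ l.length) (z : ℚ⟦X⟧) :
    ∃ k, k + 1 ≤ min (Step.join l).weight (Step.join l').weight ∧
      ¬ X ^ k ∣ BB (ent l) z - BB (ent l') z := by
  obtain ⟨p, Y, r, Y', r', rfl, rfl, hr, hr'⟩ := h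
  set m := Y.size + 1 with hm
  have hlr : r.length = r'.length := by simpa using hlen
  have hY' : Y.size < Y'.size := hr' Y' List.mem_cons_self
  have hCl : Cl m (ent (p ++ Y :: r)) (ent (p ++ Y' :: r')) := by
    rw [ent, ent, List.map_append, List.map_append]
    apply Cl_append
    apply Cl_ent_zero (r := Y :: r) (r' := Y' :: r') (by simpa using hlr)
    · intro Z hZ
      rcases List.mem_cons.1 hZ with rfl | hZ
      · exact le_rfl
      · have := hr Z hZ; omega
    · intro Z hZ
      have := hr' Z hZ; omega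
  have hw : m + 1 < (Step.join (p ++ Y :: r)).weight := by
    have h3 := sum_size_ge p
    have h4 := sum_size_ge r
    simp only [List.length_append, List.length_cons] at h2
    simp only [Step.weight, List.map_append, List.map_cons, List.sum_append, List.sum_cons]
    omega
  have hw' : m + 1 < (Step.join (p ++ Y' :: r')).weight := by
    simp only [Step.weight, List.map_append, List.map_cons, List.sum_append, List.sum_cons]
    omega
  have hprod : ∀ l : List Arch, m + 1 < (Step.join l).weight → Cg (m + 1) (ent l).prod 0 := by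
    intro l hl
    obtain ⟨U, _, _, h3⟩ := prod_ent l
    rw [Cg, sub_zero, h3]
    simp only [Step.weight] at hl
    exact Dvd.dvd.mul_right (X_pow_dvd_q_pow (by omega)) _
  have key := BB_cong hCl (cc_ent _) (cc_ent _) (hprod _ hw) (hprod _ hw') z
  refine ⟨m + 1, by rw [le_min_iff]; omega, ?_⟩
  intro hd
  have hd' : Cg (m + 1) (BB (ent (p ++ Y :: r)) z - BB (ent (p ++ Y' :: r')) z) 0 := by
    rw [Cg, sub_zero]
    exact hd
  have h5 : Cg (m + 1) ((ent (p ++ Y :: r)).sum - (ent (p ++ Y' :: r')).sum) 0 :=
    key.symm.trans hd'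
  have h6 : Cg (m + 1) (ent (Y' :: r')).sum 0 := by
    apply sum_ent_cg
    intro Z hZ
    have := hr' Z hZ; omega
  have h7 : (ent (p ++ Y :: r)).sum - (ent (p ++ Y' :: r')).sum =
      (ent (Y :: r)).sum - (ent (Y' :: r')).sum := by
    simp only [ent, List.map_append, List.sum_append]; ring
  rw [h7] at h5
  have h8 := h5.add h6
  rw [add_zero, Cg, sub_zero, sub_add_cancel] at h8
  have h9 := PowerSeries.X_pow_dvd_iff.1 h8 m (Nat.lt_succ_self m)
  have e : ent (Y :: r) = phi (wrap Y) :: ent r := rfl
  rw [e, List.sum_cons, map_add] at h9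
  have h10 : coeff m (phi (wrap Y)) = 1 := by
    obtain ⟨U, u1, _, u3⟩ := phi_form Y
    rw [phi_wrap, u3, ← mul_assoc, ← pow_succ', hm, coeff_q_pow_mul_self u1]
  have h11 : 0 ≤ coeff m (ent r).sum := by
    apply coeff_sum_ent
    intro Z hZ
    have := hr Z hZ; omega
  rw [h10] at h9
  linarith

theorem BB_sep {l l' : List Arch} (h : Separated l l') (hlen : l.length = l'.length)
    (h2 : 2 ≤ l.length) (z : ℚ⟦X⟧) :
    ¬ X ^ min (Step.join l).weight (Step.join l').weight ∣ BB (ent l) z - BB (ent l') z := by
  obtain ⟨k, h3, h4⟩ := BB_sep' h hlen h2 z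
  exact fun h5 => h4 ((pow_dvd_pow _ (by omega)).trans h5)

/-- The function `BB` of a step. -/
noncomputable def bb : Step → ℚ⟦X⟧ → ℚ⟦X⟧
  | Step.wrap, _ => 0
  | Step.join l, z => BB (ent l) z

theorem ent_length (l : List Arch) : (ent l).length = l.length := by simp [ent]

theorem cc_bb_join {l : List Arch} (h : 2 ≤ l.length) (z : ℚ⟦X⟧) :
    constantCoeff (BB (ent l) z) = 1 - (l.length : ℚ) := by
  rw [cc_BB (cc_ent l) ?_, ent_length]
  intro h0
  rw [← ent_length, h0] at h
  simp at h

theorem bb_ne {S : Set Step} (hS : Good S) {t t' : Step} (ht : t ∈ S) (ht' : t' ∈ S)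
    (hne : t ≠ t') (z : ℚ⟦X⟧) : ¬ X ^ min t.weight t'.weight ∣ bb t z - bb t' z := by
  intro h
  have hpos : 1 ≤ min t.weight t'.weight := by
    rw [le_min_iff]; exact ⟨t.weight_pos, t'.weight_pos⟩
  have h1 : constantCoeff (bb t z - bb t' z) = 0 := by
    rw [← X_dvd_iff, ← pow_one X]
    exact (pow_dvd_pow _ hpos).trans h
  cases t with
  | wrap =>
    cases t' with
    | wrap => exact hne rfl
    | join l =>
      have h2 := hS.1 l ht'
      rw [map_sub, bb, bb, cc_bb_join h2, map_zero] at h1
      have h3 : (2 : ℚ) ≤ l.length := by exact_mod_cast h2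
      linarith
  | join l =>
    have h2 := hS.1 l ht
    have h3 : (2 : ℚ) ≤ l.length := by exact_mod_cast h2
    cases t' with
    | wrap =>
      rw [map_sub, bb, bb, cc_bb_join h2, map_zero] at h1
      linarith
    | join l' =>
      have h2' := hS.1 l' ht'
      rw [map_sub, bb, bb, cc_bb_join h2, cc_bb_join h2'] at h1
      have hlen : l.length = l'.length := by
        have : (l.length : ℚ) = l'.length := by linarith
        exact_mod_cast this
      rcases hS.2 l l' ht ht' hlen with h4 | h4 | h4
      · exact hne (by rw [h4])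
      · exact BB_sep h4 hlen h2 z h
      · rw [min_comm, ← dvd_neg, neg_sub] at h
        exact BB_sep h4 hlen.symm h2' z h

/-- The sharper form of `bb_ne`. -/
theorem bb_ne' {S : Set Step} (hS : Good S) {t t' : Step} (ht : t ∈ S) (ht' : t' ∈ S)
    (hne : t ≠ t') (z : ℚ⟦X⟧) : ∃ k, ¬ X ^ k ∣ bb t z - bb t' z ∧ 
      k ≤ min t.weight t'.weight ∧ ((t = Step.wrap ∨ t' = Step.wrap) → k = 1) ∧
      (t ≠ Step.wrap → t' ≠ Step.wrap → k + 1 ≤ min t.weight t'.weight) := by
  have hpos : 1 ≤ min t.weight t'.weight := by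
    rw [le_min_iff]; exact ⟨t.weight_pos, t'.weight_pos⟩
  have hw : ∀ l : List Arch, 2 ≤ l.length → 3 ≤ (Step.join l).weight := by
    intro l hl
    have := sum_size_ge l
    simp only [Step.weight]; omega
  cases t with
  | wrap =>
    refine ⟨1, ?_, hpos, fun _ => rfl, fun h => absurd rfl h⟩
    cases t' with
    | wrap => exact absurd rfl hne
    | join l =>
      have h2 := hS.1 l ht'
      intro h1
      rw [pow_one, X_dvd_iff, map_sub, bb, bb, cc_bb_join h2, map_zero] at h1
      have h3 : (2 : ℚ) ≤ l.length := by exact_mod_cast h2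
      linarith
  | join l =>
    have h2 := hS.1 l ht
    have h3 : (2 : ℚ) ≤ l.length := by exact_mod_cast h2
    cases t' with
    | wrap =>
      refine ⟨1, ?_, hpos, fun _ => rfl, fun _ h => absurd rfl h⟩
      intro h1
      rw [pow_one, X_dvd_iff, map_sub, bb, bb, cc_bb_join h2, map_zero] at h1
      linarith
    | join l' =>
      have h2' := hS.1 l' ht'
      by_cases hlen : l.length = l'.length
      · rcases hS.2 l l' ht ht' hlen with h4 | h4 | h4
        · exact absurd (by rw [h4]) hne
        · obtain ⟨k, k1, k2⟩ := BB_sep' h4 hlen h2 z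
          refine ⟨k, k2, by omega, ?_, fun _ _ => k1⟩
          rintro (h | h) <;> exact absurd h (by simp)
        · obtain ⟨k, k1, k2⟩ := BB_sep' h4 hlen.symm h2' z
          refine ⟨k, ?_, by rw [min_comm]; omega, ?_, fun _ _ => by rw [min_comm]; exact k1⟩
          · rw [← dvd_neg, neg_sub]; exact k2
          · rintro (h | h) <;> exact absurd h (by simp)
      · refine ⟨1, ?_, hpos, fun _ => rfl, fun _ _ => ?_⟩
        · intro h1
          rw [pow_one, X_dvd_iff, map_sub, bb, bb, cc_bb_join h2, cc_bb_join h2'] at h1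
          apply hlen
          have : (l.length : ℚ) = l'.length := by linarith
          exact_mod_cast this
        · rw [le_min_iff]
          have := hw l h2
          have := hw l' h2'
          omega

/-! ### Words -/

theorem chain_nil : chain [] = Arch.nil := rfl
theorem chain_wrap (w : List Step) : chain (Step.wrap :: w) = wrap (chain w) := rfl
theorem chain_join (l : List Arch) (w : List Step) :
    chain (Step.join l :: w) = atoms (l ++ [chain w]) := rfl

/-- The main part of a step. -/
noncomputable def mainPart : Step → ℚ⟦X⟧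
  | Step.wrap => 1
  | Step.join l => (prod_ent l).choose * ee (ent l) 0

theorem cc_mainPart (t : Step) : constantCoeff (mainPart t) = 1 := by
  cases t with
  | wrap => rw [mainPart, map_one]
  | join l => rw [mainPart, map_mul, (prod_ent l).choose_spec.1, cc_ee, one_mul]

/-- The branching of a step. -/
def stepBranch : Step → ℕ
  | Step.wrap => 0
  | Step.join l => (l.map Arch.branch).sum + l.length.choose 2

theorem coeff_one_mainPart (t : Step) : coeff 1 (mainPart t) = (stepBranch t : ℚ) := by
  cases t with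
  | wrap => rw [mainPart, stepBranch, PowerSeries.coeff_one]; simp
  | join l =>
    rw [mainPart, stepBranch, coeff_one_mul', (prod_ent l).choose_spec.2.1,
      coeff_one_ee (cc_ent l), PowerSeries.coeff_zero_eq_constantCoeff_apply,
      PowerSeries.coeff_zero_eq_constantCoeff_apply, (prod_ent l).choose_spec.1, cc_ee, ent_length]
    push_cast; ring

/-- The correction of a step. -/
noncomputable def corr (t : Step) (z : ℚ⟦X⟧) : ℚ⟦X⟧ := 1 + q * z * bb t z

theorem phi_step (t : Step) (Z : Arch) :
    phi (t.apply Z) = q ^ t.weight * phi Z * (mainPart t * corr t (q * phi Z)) := by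
  cases t with
  | wrap => rw [Step.apply, phi_wrap, Step.weight, mainPart, corr, bb]; ring
  | join l =>
    rw [Step.apply, phi_atoms', Step.weight, mainPart, corr, bb, rr_eq]
    have h := (prod_ent l).choose_spec.2.2
    conv_lhs => rw [h]
    ring

/-- The product of the main parts. -/
noncomputable def UU (w : List Step) : ℚ⟦X⟧ := (w.map mainPart).prod

/-- The product of the corrections. -/
noncomputable def VV : List Step → ℚ⟦X⟧
  | [] => 1
  | t :: w => VV w * corr t (q * phi (chain w))

theorem weight_nil : weight [] = 0 := rfl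
theorem weight_cons (t : Step) (w : List Step) : weight (t :: w) = t.weight + weight w := by
  simp [weight]
theorem weight_append (v w : List Step) : weight (v ++ w) = weight v + weight w := by
  simp [weight]

theorem weight_pos {t : List Step} (h : t ≠ []) : 1 ≤ weight t := by
  cases t with
  | nil => exact absurd rfl h
  | cons a t => rw [weight_cons]; have := a.weight_pos; omega

theorem UU_nil : UU [] = 1 := rfl
theorem UU_cons (t : Step) (w : List Step) : UU (t :: w) = mainPart t * UU w := by simp [UU]

theorem phi_chain (w : List Step) : phi (chain w) = q ^ weight w * (UU w * VV w) := by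
  induction w with
  | nil => simp [chain_nil, phi_nil, UU, VV, weight_nil]
  | cons t w ih =>
    have h := phi_step t (chain w)
    rw [chain, h, UU_cons, VV, weight_cons, pow_add]
    linear_combination (q ^ t.weight * mainPart t * corr t (q * phi (chain w))) * ih

theorem cc_UU (w : List Step) : constantCoeff (UU w) = 1 := by
  induction w with
  | nil => rw [UU_nil, map_one]
  | cons t w ih => rw [UU_cons, map_mul, cc_mainPart, ih, one_mul]

theorem cc_corr (t : Step) (z : ℚ⟦X⟧) : constantCoeff (corr t z) = 1 := by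
  rw [corr]; simp [constantCoeff_q]

theorem cc_VV (w : List Step) : constantCoeff (VV w) = 1 := by
  induction w with
  | nil => rw [VV, map_one]
  | cons t w ih => rw [VV, map_mul, ih, cc_corr, one_mul]

/-- The order of `q * (q * phi (chain w))` is exactly `weight w + 2`. -/
theorem zeta_form (w : List Step) :
    ∃ u : ℚ⟦X⟧, constantCoeff u = 1 ∧ q * (q * phi (chain w)) = X ^ (weight w + 2) * u := by
  refine ⟨s ^ (weight w + 2) * (UU w * VV w), ?_, ?_⟩
  · simp [cc_s, cc_UU, cc_VV]
  · rw [phi_chain, q_eq_Xs]; ring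

theorem dvd_of_dvd_zeta_mul {w : List Step} {m : ℕ} {x : ℚ⟦X⟧}
    (h : X ^ (weight w + 2 + m) ∣ q * (q * phi (chain w)) * x) : X ^ m ∣ x := by
  obtain ⟨u, hu, he⟩ := zeta_form w
  rw [he, mul_assoc] at h
  have h1 := dvd_of_dvd_Xpow_mul h
  rw [mul_comm] at h1
  exact dvd_of_dvd_mul hu h1

theorem corr_cong (t : Step) (w : List Step) :
    X ^ (weight w + 2) ∣ corr t (q * phi (chain w)) - 1 := by
  obtain ⟨u, _, he⟩ := zeta_form w
  have e : corr t (q * phi (chain w)) - 1 =
      q * (q * phi (chain w)) * bb t (q * phi (chain w)) := by rw [corr]; ring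
  rw [e, he, mul_assoc]
  exact Dvd.intro _ rfl

theorem VV_append (v u : List Step) : X ^ (weight u + 2) ∣ VV (v ++ u) - VV u := by
  induction v with
  | nil => simp
  | cons t v ih =>
    rw [List.cons_append, VV]
    have h1 := corr_cong t (v ++ u)
    have hle : weight u + 2 ≤ weight (v ++ u) + 2 := by rw [weight_append]; omega
    have h2 := (pow_dvd_pow _ hle).trans h1
    have e : VV (v ++ u) * corr t (q * phi (chain (v ++ u))) - VV u =
        VV (v ++ u) * (corr t (q * phi (chain (v ++ u))) - 1) + (VV (v ++ u) - VV u) := by ring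
    rw [e]
    exact dvd_add (Dvd.dvd.mul_left h2 _) ih

theorem corr_ne {S : Set Step} (hS : Good S) {t t' : Step} (ht : t ∈ S) (ht' : t' ∈ S)
    (hne : t ≠ t') (w : List Step) : ¬ X ^ (weight w + 2 + min t.weight t'.weight) ∣
      corr t (q * phi (chain w)) - corr t' (q * phi (chain w)) := by
  intro h
  have e : corr t (q * phi (chain w)) - corr t' (q * phi (chain w)) = q * (q * phi (chain w)) *
      (bb t (q * phi (chain w)) - bb t' (q * phi (chain w))) := by rw [corr, corr]; ring
  rw [e] at h
  exact bb_ne hS ht ht' hne _ (dvd_of_dvd_zeta_mul h)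

/-! ### Common suffixes -/

theorem prefix_split {α : Type*} (x y : List α) : x = y ∨
    (∃ t, t ≠ [] ∧ (x = y ++ t ∨ y = x ++ t)) ∨
    ∃ p s s' t t', s ≠ s' ∧ x = p ++ s :: t ∧ y = p ++ s' :: t' := by
  classical
  induction x generalizing y with
  | nil =>
    cases y with
    | nil => exact Or.inl rfl
    | cons b y => exact Or.inr (Or.inl ⟨b :: y, by simp, Or.inr rfl⟩)
  | cons a x ih =>
    cases y with
    | nil => exact Or.inr (Or.inl ⟨a :: x, by simp, Or.inl rfl⟩)
    | cons b y =>
      by_cases hab : a = b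
      · subst hab
        rcases ih y with h | ⟨t, ht, h | h⟩ | ⟨p, s, s', t, t', hs, h1, h2⟩
        · exact Or.inl (by rw [h])
        · exact Or.inr (Or.inl ⟨t, ht, Or.inl (by rw [h]; rfl)⟩)
        · exact Or.inr (Or.inl ⟨t, ht, Or.inr (by rw [h]; rfl)⟩)
        · exact Or.inr (Or.inr ⟨a :: p, s, s', t, t', hs, by rw [h1]; rfl, by rw [h2]; rfl⟩)
      · exact Or.inr (Or.inr ⟨[], a, b, x, y, hab, rfl, rfl⟩)

theorem suffix_split {α : Type*} (x y : List α) : x = y ∨
    (∃ t, t ≠ [] ∧ (x = t ++ y ∨ y = t ++ x)) ∨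
    ∃ p s s' t t', s ≠ s' ∧ x = t ++ s :: p ∧ y = t' ++ s' :: p := by
  rcases prefix_split x.reverse y.reverse with h | ⟨t, ht, h | h⟩ | ⟨p, s, s', t, t', hs, h1, h2⟩
  · exact Or.inl (List.reverse_injective h)
  · refine Or.inr (Or.inl ⟨t.reverse, by simpa using ht, Or.inl ?_⟩)
    apply List.reverse_injective; simpa using h
  · refine Or.inr (Or.inl ⟨t.reverse, by simpa using ht, Or.inr ?_⟩)
    apply List.reverse_injective; simpa using h
  · refine Or.inr (Or.inr ⟨p.reverse, s, s', t.reverse, t'.reverse, hs, ?_, ?_⟩)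
    · apply List.reverse_injective; simpa using h1
    · apply List.reverse_injective; simpa using h2

/-- Words of the same weight with the same product of corrections are equal. -/
theorem eq_of_VV_eq {S : Set Step} (hS : Good S) {w w' : List Step} (hw : ∀ t ∈ w, t ∈ S)
    (hw' : ∀ t ∈ w', t ∈ S) (hwt : weight w = weight w') (h : VV w = VV w') : w = w' := by
  rcases suffix_split w w' with h1 | ⟨t, ht, h1 | h1⟩ | ⟨u, a, b, v, v', hne, h1, h2⟩
  · exact h1
  · rw [h1, weight_append] at hwt; have := weight_pos ht; omega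
  · rw [h1, weight_append] at hwt; have := weight_pos ht; omega
  · exfalso
    have ha : a ∈ S := hw a (by rw [h1]; simp)
    have hb : b ∈ S := hw' b (by rw [h2]; simp)
    have k1 := VV_append v (a :: u)
    have k2 := VV_append v' (b :: u)
    rw [← h1, weight_cons, VV] at k1
    rw [← h2, weight_cons, VV, ← h] at k2
    have m1 : X ^ (weight u + 2 + min a.weight b.weight) ∣
        VV w - VV u * corr a (q * phi (chain u)) :=
      (pow_dvd_pow _ (by have := min_le_left a.weight b.weight; omega)).trans k1
    have m2 : X ^ (weight u + 2 + min a.weight b.weight) ∣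
        VV w - VV u * corr b (q * phi (chain u)) :=
      (pow_dvd_pow _ (by have := min_le_right a.weight b.weight; omega)).trans k2
    have m3 := dvd_sub m2 m1
    have e : VV w - VV u * corr b (q * phi (chain u)) -
        (VV w - VV u * corr a (q * phi (chain u))) =
        (corr a (q * phi (chain u)) - corr b (q * phi (chain u))) * VV u := by ring
    rw [e] at m3
    exact corr_ne hS ha hb hne u (dvd_of_dvd_mul (cc_VV u) m3)

theorem not_dvd_qpow_mul (a : ℕ) {u : ℚ⟦X⟧} (hu : constantCoeff u = 1) :
    ¬ (X : ℚ⟦X⟧) ^ (a + 1) ∣ q ^ a * u := by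
  intro h
  have := PowerSeries.X_pow_dvd_iff.1 h a (Nat.lt_succ_self a)
  rw [coeff_q_pow_mul_self hu] at this
  exact one_ne_zero this

/-- If the series `phi` agree then the sizes agree. -/
theorem size_eq_of_phi {A B : Arch} (h : phi A = phi B) : A.size = B.size := by
  have key : ∀ {A B : Arch}, phi A = phi B → ¬ A.size < B.size := by
    intro A B h hlt
    obtain ⟨U, u1, _, u3⟩ := phi_form A
    obtain ⟨V, _, _, v3⟩ := phi_form B
    refine not_dvd_qpow_mul A.size u1 ?_
    rw [← u3, h, v3]
    exact Dvd.dvd.mul_right (X_pow_dvd_q_pow hlt) _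
  have k1 := key h
  have k2 := key h.symm
  omega

/-- If the series `phi` agree then the branchings agree. -/
theorem branch_eq_of_phi {A B : Arch} (h : phi A = phi B) : A.branch = B.branch := by
  have hs := size_eq_of_phi h
  obtain ⟨U, _, u2, u3⟩ := phi_form A
  obtain ⟨V, _, v2, v3⟩ := phi_form B
  rw [u3, v3, ← hs] at h
  have h1 : U = V := mul_left_cancel₀ (pow_ne_zero _ q_ne_zero) h
  rw [h1, v2] at u2
  exact_mod_cast u2.symm

end ArchG
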