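import Pool.Agent.Lib.ArchG.Cohort

namespace ArchG

open Arch PowerSeries Finset

/-! ### First order comparison of the factors `EE` -/

/-- `x - y = q δ` modulo `X ^ (m + 2)`. -/
def D2 (m : ℕ) (x y δ : ℚ⟦X⟧) : Prop := X ^ (m + 2) ∣ x - y - q * δ

theorem X_dvd_sub_one {x : ℚ⟦X⟧} (h : constantCoeff x = 1) : X ∣ x - 1 := by
  rw [X_dvd_iff, map_sub, h, map_one, sub_self]

theorem q_mul_dvd {m : ℕ} {x : ℚ⟦X⟧} (h : X ^ (m + 1) ∣ x) : X ^ (m + 2) ∣ q * x := by
  have : (X : ℚ⟦X⟧) ^ (m + 2) = X * X ^ (m + 1) := by ring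
  rw [this]
  exact mul_dvd_mul X_dvd_q h

theorem D2.mul {m : ℕ} {x x' y y' δ ε : ℚ⟦X⟧} (h : D2 m x x' δ) (h' : D2 m y y' ε)
    (hδ : X ^ m ∣ δ) (hε : X ^ m ∣ ε) (cy : constantCoeff y = 1) (cx : constantCoeff x' = 1) :
    D2 m (x * y) (x' * y') (δ + ε) := by
  have e : x * y - x' * y' - q * (δ + ε) = (x - x' - q * δ) * y + (y - y' - q * ε) * x' +
      q * (δ * (y - 1)) + q * (ε * (x' - 1)) := by ring
  rw [D2, e]
  refine dvd_add (dvd_add (dvd_add (Dvd.dvd.mul_right h _) (Dvd.dvd.mul_right h' _)) ?_) ?_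
  · apply q_mul_dvd
    rw [pow_succ]
    exact mul_dvd_mul hδ (X_dvd_sub_one cy)
  · apply q_mul_dvd
    rw [pow_succ]
    exact mul_dvd_mul hε (X_dvd_sub_one cx)

theorem D2.inv {m : ℕ} {x x' δ : ℚ⟦X⟧} (h : D2 m x x' δ) (hδ : X ^ m ∣ δ)
    (cx : constantCoeff x = 1) (cx' : constantCoeff x' = 1) : D2 m x⁻¹ x'⁻¹ (-δ) := by
  have h1 := mul_inv' cx
  have h2 := mul_inv' cx'
  have e : x⁻¹ - x'⁻¹ - q * (-δ) = (x - x' - q * δ) * (-(x⁻¹ * x'⁻¹)) +
      q * (δ * -(x⁻¹ * x'⁻¹ - 1)) := by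
    linear_combination x'⁻¹ * h1 - x⁻¹ * h2
  rw [D2, e]
  refine dvd_add (Dvd.dvd.mul_right h _) ?_
  apply q_mul_dvd
  rw [pow_succ]
  refine mul_dvd_mul hδ ?_
  rw [dvd_neg]
  apply X_dvd_sub_one
  rw [map_mul, cc_inv cx, cc_inv cx', one_mul]

theorem D2.of_cg {m : ℕ} {x y : ℚ⟦X⟧} (h : Cg (m + 2) x y) : D2 m x y 0 := by
  rw [D2, mul_zero, sub_zero]; exact h

theorem D2.add {m : ℕ} {x x' y y' δ ε : ℚ⟦X⟧} (h : D2 m x x' δ) (h' : D2 m y y' ε) :
    D2 m (x + y) (x' + y') (δ + ε) := by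
  have := dvd_add h h'
  rw [D2]; convert this using 1; ring

theorem D2.congr {m : ℕ} {x y δ ε : ℚ⟦X⟧} (h : D2 m x y δ) (h' : Cg (m + 1) δ ε) :
    D2 m x y ε := by
  have := dvd_add h (q_mul_dvd h')
  rw [D2]; convert this using 1; ring

theorem D2.q_mul {m : ℕ} {x y δ : ℚ⟦X⟧} (h : Cg (m + 1) (x - y) δ) :
    D2 m (q * x) (q * y) δ := by
  have := q_mul_dvd h
  rw [D2]; convert this using 1; ring

theorem cg_mul_sub {m : ℕ} {x x' y y' : ℚ⟦X⟧} (hx : Cg m x x') (hy : Cg m y y')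
    (cx : constantCoeff x' = 0) : Cg (m + 1) (x * y - x' * y') ((x - x') * y) := by
  have e : x * y - x' * y' - (x - x') * y = (y - y') * x' := by ring
  rw [Cg, e, pow_succ]
  exact mul_dvd_mul hy (X_dvd_iff.2 cx)

theorem cg_mul_const {m : ℕ} {x x' y : ℚ⟦X⟧} {c : ℚ⟦X⟧} (hx : Cg m x x')
    (cy : constantCoeff y = constantCoeff c) : Cg (m + 1) ((x - x') * y) (c * (x - x')) := by
  have e : (x - x') * y - c * (x - x') = (x - x') * (y - c) := by ring
  rw [Cg, e, pow_succ]
  refine mul_dvd_mul hx ?_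
  rw [X_dvd_iff, map_sub, cy, sub_self]

theorem sum_getD (A : List ℚ⟦X⟧) : ∑ j ∈ range A.length, A.getD j 0 = A.sum := by
  induction A with
  | nil => simp
  | cons a A ih =>
    rw [List.length_cons, sum_range_succ', List.sum_cons, ← ih]
    simp [add_comm]

/-- The first order variation of `ee A 0`. -/
theorem ee0_first {m : ℕ} {A A' : List ℚ⟦X⟧} (h : Cl m A A')
    (hA : ∀ a ∈ A, constantCoeff a = 0) (hA' : ∀ a ∈ A', constantCoeff a = 0) :
    D2 m (ee A 0) (ee A' 0) ((1 - (A.length : ℚ⟦X⟧)) * (A.sum - A'.sum)) := by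
  induction h with
  | nil => rw [ee_nil, D2]; simp
  | @cons a a' A A' h1 h2 ih =>
    have h2' : Cl m A A' := h2
    have hlen := h2'.length_eq
    have bA : ∀ b ∈ A, constantCoeff b = 0 := fun b hb => hA b (List.mem_cons_of_mem _ hb)
    have bA' : ∀ b ∈ A', constantCoeff b = 0 := fun b hb => hA' b (List.mem_cons_of_mem _ hb)
    have ca : constantCoeff a = 0 := hA a List.mem_cons_self
    have ca' : constantCoeff a' = 0 := hA' a' List.mem_cons_self
    have ih' := ih bA bA'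
    rw [ee_zero_cons, ee_zero_cons, ← hlen, mul_assoc, mul_assoc]
    have gA : ∀ j, constantCoeff (A.getD j 0) = 0 := by
      intro j
      rcases Nat.lt_or_ge j A.length with hj | hj
      · rw [List.getD_eq_getElem _ _ hj]; exact bA _ (List.getElem_mem hj)
      · rw [List.getD_eq_default _ _ hj, map_zero]
    have gA' : ∀ j, constantCoeff (A'.getD j 0) = 0 := by
      intro j
      rcases Nat.lt_or_ge j A'.length with hj | hj
      · rw [List.getD_eq_getElem _ _ hj]; exact bA' _ (List.getElem_mem hj)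
      · rw [List.getD_eq_default _ _ hj, map_zero]
    set S := ∑ j ∈ range A.length, ee (a :: A.take j) (A.getD j 0) *
      (1 - q * A.getD j 0)⁻¹ * (ee (A.drop (j + 1)) 0 - A.getD j 0 * ee (A.drop j) 0) with hS
    set S' := ∑ j ∈ range A.length, ee (a' :: A'.take j) (A'.getD j 0) *
      (1 - q * A'.getD j 0)⁻¹ * (ee (A'.drop (j + 1)) 0 - A'.getD j 0 * ee (A'.drop j) 0)
      with hS'
    have kS : Cg (m + 1) (S - S') (-(A.sum - A'.sum)) := by
      have e : -(A.sum - A'.sum) = ∑ j ∈ range A.length, -(A.getD j 0 - A'.getD j 0) := by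
        rw [sum_neg_distrib, sum_sub_distrib, sum_getD, hlen, sum_getD]
      rw [e, hS, hS', ← sum_sub_distrib]
      refine Cg.sum fun j hj => ?_
      have m1 : Cg (m + 1) (ee (a :: A.take j) (A.getD j 0) * (1 - q * A.getD j 0)⁻¹)
          (ee (a' :: A'.take j) (A'.getD j 0) * (1 - q * A'.getD j 0)⁻¹) :=
        (ee_cong (List.Forall₂.cons h1 (h2'.take j)) (h2'.getD j)).mul
          (Cg.inv (cc_one_sub _) (cc_one_sub _) ((Cg.refl _ _).sub (h2'.getD j).qmul))
      have c1 : constantCoeff (ee (a :: A.take j) (A.getD j 0) * (1 - q * A.getD j 0)⁻¹) = 1 := by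
        rw [map_mul, cc_ee, cc_inv (cc_one_sub _), one_mul]
      set K := ee (a :: A.take j) (A.getD j 0) * (1 - q * A.getD j 0)⁻¹
      set K' := ee (a' :: A'.take j) (A'.getD j 0) * (1 - q * A'.getD j 0)⁻¹
      have m2 : Cg (m + 1) (ee (A.drop (j + 1)) 0) (ee (A'.drop (j + 1)) 0) :=
        ee_cong (h2'.drop (j + 1)) (Cg.refl _ _)
      have m3 : Cg (m + 1) (ee (A.drop j) 0) (ee (A'.drop j) 0) :=
        ee_cong (h2'.drop j) (Cg.refl _ _)
      have c3 := cc_ee (A.drop j) 0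
      set e1 := ee (A.drop (j + 1)) 0
      set e1' := ee (A'.drop (j + 1)) 0
      set e0 := ee (A.drop j) 0
      set e0' := ee (A'.drop j) 0
      set b := A.getD j 0
      set b' := A'.getD j 0
      have m4 : Cg m b b' := h2'.getD j
      -- K (e1 - b e0) - K' (e1' - b' e0')
      have y1 : Cg (m + 1) (K * (e1 - b * e0)) (K * (e1' - b * e0')) :=
        (Cg.refl _ _).mul (m2.sub ((Cg.refl _ _).mul m3))
      have y2 : Cg (m + 1) (K' * (e1' - b' * e0')) (K * (e1' - b' * e0')) :=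
        m1.symm.mul (Cg.refl _ _)
      have y3 : Cg (m + 1) ((b - b') * (K * e0')) (1 * (b - b')) := by
        apply cg_mul_const m4
        rw [map_mul, c1, cc_ee, one_mul, map_one]
      have y4 := (y1.sub y2).add (((Cg.refl (m + 1) (0 : ℚ⟦X⟧)).sub (y3)))
      have y5 : Cg (m + 1) (K * (e1' - b * e0') - K * (e1' - b' * e0')) (-(b - b')) := by
        have := (Cg.refl (m + 1) (0 : ℚ⟦X⟧)).sub y3
        convert this using 1 <;> ring
      exact (y1.sub y2).trans y5
    have cS : constantCoeff S = (A.length : ℚ) := by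
      rw [hS, map_sum]
      have h : ∀ j ∈ range A.length, constantCoeff (ee (a :: A.take j) (A.getD j 0) *
          (1 - q * A.getD j 0)⁻¹ * (ee (A.drop (j + 1)) 0 - A.getD j 0 * ee (A.drop j) 0)) = 1 := by
        intro j _
        rw [map_mul, map_mul, cc_ee, cc_inv (cc_one_sub _), map_sub, cc_ee, map_mul, gA]
        ring
      rw [sum_congr rfl h]; simp
    have kSm : Cg m S S' := by
      have h3 : Cg m (S - S') (-(A.sum - A'.sum)) := kS.mono (Nat.le_succ m)
      have h4 : Cg m (-(A.sum - A'.sum)) 0 := by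
        rw [Cg, sub_zero, dvd_neg]; exact h2'.sum
      have h5 := h3.trans h4
      rw [Cg, sub_zero] at h5
      exact h5
    have kaS : Cg (m + 1) (a * S - a' * S') ((A.length : ℚ⟦X⟧) * (a - a')) := by
      refine (cg_mul_sub h1 kSm ca').trans (cg_mul_const h1 ?_)
      rw [cS]; simp
    have k1 : Cg (m + 1) ((1 - a) * S - (1 - a') * S')
        (-(A.sum - A'.sum) - (A.length : ℚ⟦X⟧) * (a - a')) := by
      have := kS.sub kaS
      convert this using 1; ring
    have k2 := ih'.add (D2.q_mul k1)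
    rw [List.sum_cons, List.sum_cons, List.length_cons]
    convert k2 using 1
    push_cast; ring

theorem gg_weak {m : ℕ} {A A' : List ℚ⟦X⟧} (h : Cl m A A') {z z' : ℚ⟦X⟧} (hz : Cg m z z') :
    Cg m (gg A z) (gg A' z') := by
  generalize hn : A.length = n
  induction n using Nat.strong_induction_on generalizing A A' with
  | _ n ih =>
    cases h with
    | nil => exact Cg.of_eq (by rw [gg_nil, gg_nil])
    | @cons a a' A A' h1 h2 =>
      have h2' : Cl m A A' := h2
      have hlen := h2'.length_eq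
      rw [List.length_cons] at hn
      rw [gg_cons, gg_cons, ← hlen]
      have kw : Cg m (1 - q * (a * z))⁻¹ (1 - q * (a' * z'))⁻¹ :=
        Cg.inv (cc_one_sub _) (cc_one_sub _) ((Cg.refl _ _).sub ((Cg.refl _ _).mul (h1.mul hz)))
      have ke : Cg m (ee (a :: A) 0) (ee (a' :: A') 0) :=
        (ee_cong (List.Forall₂.cons h1 h2) (Cg.refl _ _)).mono (Nat.le_succ m)
      have kη := ((Cg.refl m (1 : ℚ⟦X⟧)).sub h1).mul kw
      refine (kη.mul ke).add ((((Cg.refl _ _).sub ((Cg.refl _ _).mul (hz.mul kη)))).mul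
        ((ih A.length (by omega) h2' rfl).add
          (((Cg.refl _ _).mul ((Cg.refl _ _).sub h1)).mul (Cg.sum fun j hj => ?_))))
      have hj' := mem_range.1 hj
      have m1 : Cg m (ee (a :: A.take j) (A.getD j 0)) (ee (a' :: A'.take j) (A'.getD j 0)) :=
        (ee_cong (List.Forall₂.cons h1 (h2'.take j)) (h2'.getD j)).mono (Nat.le_succ m)
      have m2 : Cg m (1 - q * A.getD j 0)⁻¹ (1 - q * A'.getD j 0)⁻¹ :=
        (Cg.inv (cc_one_sub _) (cc_one_sub _) ((Cg.refl _ _).sub (h2'.getD j).qmul)).mono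
          (Nat.le_succ m)
      have m3 : Cg m (gg (A.drop (j + 1)) z) (gg (A'.drop (j + 1)) z') :=
        ih _ (by rw [← hn, List.length_drop]; omega) (h2'.drop (j + 1)) rfl
      have m4 : Cg m (gg (A.drop j) z) (gg (A'.drop j) z') :=
        ih _ (by rw [← hn, List.length_drop]; omega) (h2'.drop j) rfl
      exact (m1.mul m2).mul (m3.sub ((h2'.getD j).mul m4))

/-- The first order variation of `EE`. -/
theorem EE_first {m : ℕ} {A A' : List ℚ⟦X⟧} (h : Cl m A A')
    (hA : ∀ a ∈ A, constantCoeff a = 0) (hA' : ∀ a ∈ A', constantCoeff a = 0) (hne : A ≠ [])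
    {z z' : ℚ⟦X⟧} (hz : Cg m z z') (cz' : constantCoeff z' = 0) (cz : constantCoeff z = 0) :
    D2 m (EE A z) (EE A' z')
      ((1 - (A.length : ℚ⟦X⟧)) * ((A.sum - A'.sum) + (z - z'))) := by
  have hne' : A' ≠ [] := by
    intro h0; apply hne
    rw [← List.length_eq_zero_iff, h.length_eq, h0]; rfl
  have hs : X ^ m ∣ A.sum - A'.sum := h.sum
  have hz' : X ^ m ∣ z - z' := hz
  -- variation of `ee A z`
  have k1 : D2 m (ee A z) (ee A' z')
      ((1 - (A.length : ℚ⟦X⟧)) * (A.sum - A'.sum) + -((A.length : ℚ⟦X⟧) * (z - z'))) := by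
    rw [ee_eq A z, ee_eq A' z']
    have y0 := ee0_first h hA hA'
    have y1 : Cg (m + 1) (z * gg A z - z' * gg A' z') ((A.length : ℚ⟦X⟧) * (z - z')) := by
      refine (cg_mul_sub hz (gg_weak h hz) cz').trans (cg_mul_const hz ?_)
      rw [cc_gg hA]; simp
    have y2 : Cg (m + 1) (-(z * gg A z) - -(z' * gg A' z')) (-((A.length : ℚ⟦X⟧) * (z - z'))) := by
      have := (Cg.refl (m + 1) (0 : ℚ⟦X⟧)).sub y1
      convert this using 1 <;> ring
    have y3 := y0.add (D2.q_mul y2)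
    convert y3 using 1 <;> ring
  -- variation of the denominator
  have k2 : D2 m (1 - q * (z * (1 - A.prod * ee A z))) (1 - q * (z' * (1 - A'.prod * ee A' z')))
      (-(z - z')) := by
    have hP : Cg m (A.prod * ee A z) (A'.prod * ee A' z') :=
      h.prod.mul ((ee_cong h hz).mono (Nat.le_succ m))
    have cP : constantCoeff (A.prod * ee A z) = 0 := by
      rw [map_mul, cc_prod hA hne, zero_mul]
    have y1 : Cg (m + 1) (z * (1 - A.prod * ee A z) - z' * (1 - A'.prod * ee A' z'))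
        (1 * (z - z')) := by
      refine (cg_mul_sub hz ((Cg.refl _ _).sub hP) cz').trans (cg_mul_const hz ?_)
      rw [map_sub, cP, map_one, sub_zero]
    have y2 : Cg (m + 1) (-(z * (1 - A.prod * ee A z)) - -(z' * (1 - A'.prod * ee A' z')))
        (-(z - z')) := by
      have := (Cg.refl (m + 1) (0 : ℚ⟦X⟧)).sub y1
      convert this using 1 <;> ring
    have y3 := (D2.of_cg (Cg.refl (m + 2) (1 : ℚ⟦X⟧))).add (D2.q_mul y2)
    convert y3 using 1 <;> ring
  have k3 := k2.inv (by rw [dvd_neg]; exact hz') (cc_one_sub _) (cc_one_sub _)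
  have k4 := k1.mul k3 (dvd_add (Dvd.dvd.mul_left hs _)
    (by rw [dvd_neg]; exact Dvd.dvd.mul_left hz' _))
    (by rw [neg_neg]; exact hz') (cc_inv (cc_one_sub _)) (cc_ee _ _)
  rw [EE, EE]
  convert k4 using 1; ring

end ArchG
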