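import Pool.Agent.Lib.ArchG.Comb

namespace ArchG

open Arch Finset PowerSeries
open scoped Classical

/-- All arch systems with `n` arches. -/
noncomputable def allOf : ℕ → Finset Arch
  | 0 => {Arch.nil}
  | n + 1 => (antidiagonal n).attach.biUnion fun ij =>
      (allOf ij.1.1 ×ˢ allOf ij.1.2).image (fun p => Arch.cons p.1 p.2)
  decreasing_by
    · simp_wf; have := HasAntidiagonal.mem_antidiagonal.1 ij.2; omega
    · simp_wf; have := HasAntidiagonal.mem_antidiagonal.1 ij.2; omega

theorem allOf_zero : allOf 0 = {Arch.nil} := by rw [allOf]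

theorem allOf_succ (n : ℕ) : allOf (n + 1) = (antidiagonal n).biUnion fun ij =>
    (allOf ij.1 ×ˢ allOf ij.2).image (fun p => Arch.cons p.1 p.2) := by
  rw [allOf]
  ext X
  simp

theorem mem_allOf {X : Arch} {n : ℕ} : X ∈ allOf n ↔ X.size = n := by
  induction X generalizing n with
  | nil =>
    cases n with
    | zero => simp [allOf_zero]
    | succ n => simp [allOf_succ]
  | cons A B ihA ihB =>
    cases n with
    | zero => simp [allOf_zero]
    | succ n =>
      rw [allOf_succ]
      simp [ihA, ihB]

/-- The number of arch systems with `n` arches and the property `p`. -/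
noncomputable def cnt (p : Arch → Prop) (n : ℕ) : ℕ := ((allOf n).filter p).card

theorem cnt_eq_card {p : Arch → Prop} {n : ℕ} (S : Finset Arch)
    (h : ∀ Y, Y ∈ S ↔ (Y.size = n ∧ p Y)) : cnt p n = S.card := by
  rw [cnt]
  congr 1
  ext Y
  rw [h, mem_filter, mem_allOf]

theorem mem_filter_allOf {p : Arch → Prop} {n : ℕ} (Y : Arch) :
    Y ∈ (allOf n).filter p ↔ (Y.size = n ∧ p Y) := by
  rw [mem_filter, mem_allOf]

/-- The generating function of the arch systems with the property `p`. -/
noncomputable def gf (p : Arch → Prop) : ℚ⟦X⟧ := PowerSeries.mk fun n => (cnt p n : ℚ)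

theorem coeff_gf (p : Arch → Prop) (n : ℕ) : PowerSeries.coeff n (gf p) = cnt p n := by
  simp [gf]

theorem gf_congr {p q : Arch → Prop} (h : ∀ X, p X ↔ q X) : gf p = gf q := by
  have : p = q := by funext X; exact propext (h X)
  rw [this]

theorem gf_add {p q : Arch → Prop} (h : ∀ X, ¬ (p X ∧ q X)) :
    gf (fun X => p X ∨ q X) = gf p + gf q := by
  ext n
  have hu : cnt (fun X => p X ∨ q X) n = ((allOf n).filter p ∪ (allOf n).filter q).card := by
    apply cnt_eq_card
    intro Y
    simp only [mem_filter, mem_union, mem_allOf]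
    tauto
  rw [map_add, coeff_gf, coeff_gf, coeff_gf, hu, cnt, cnt, card_union_of_disjoint]
  · push_cast; rfl
  · rw [Finset.disjoint_filter]
    intro X _ h1 h2
    exact h X ⟨h1, h2⟩

theorem gf_sub {p q : Arch → Prop} (h : ∀ X, p X → q X) :
    gf (fun X => q X ∧ ¬ p X) = gf q - gf p := by
  have h1 : gf q = gf (fun X => (q X ∧ ¬ p X) ∨ p X) := by
    apply gf_congr
    intro X
    by_cases hp : p X
    · simp [hp, h X hp]
    · simp [hp]
  rw [h1, gf_add]
  · ring
  · intro X hX; exact hX.1.2 hX.2

theorem gf_nil : gf (fun X => X = Arch.nil) = 1 := by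
  ext n
  rw [coeff_gf, PowerSeries.coeff_one]
  cases n with
  | zero =>
    have h : cnt (fun X => X = Arch.nil) 0 = ({Arch.nil} : Finset Arch).card := by
      apply cnt_eq_card
      intro Y
      rw [mem_singleton]
      constructor
      · rintro rfl; simp
      · exact fun h => h.2
    rw [h]
    simp
  | succ n =>
    have h : cnt (fun X => X = Arch.nil) (n + 1) = (∅ : Finset Arch).card := by
      apply cnt_eq_card
      intro Y
      constructor
      · intro h; simp at h
      · rintro ⟨h, rfl⟩; simp at h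
    rw [h]
    simp

theorem gf_cons (p1 p2 : Arch → Prop) :
    gf (fun Y => ∃ y z, Y = Arch.cons y z ∧ p1 y ∧ p2 z) = X * (gf p1 * gf p2) := by
  ext n
  rw [coeff_gf]
  cases n with
  | zero => simp [cnt, allOf_zero, filter_singleton]
  | succ n =>
    rw [PowerSeries.coeff_succ_X_mul, PowerSeries.coeff_mul]
    have h1 : cnt (fun Y => ∃ y z, Y = Arch.cons y z ∧ p1 y ∧ p2 z) (n + 1) =
        ((antidiagonal n).biUnion fun ij =>
          ((allOf ij.1).filter p1 ×ˢ (allOf ij.2).filter p2).image
            (fun p => Arch.cons p.1 p.2)).card := by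
      apply cnt_eq_card
      intro Y
      simp only [mem_filter, mem_biUnion, mem_image, mem_product,
        HasAntidiagonal.mem_antidiagonal, mem_allOf]
      symm
      constructor
      · rintro ⟨h, y, z, rfl, hy, hz⟩
        refine ⟨(y.size, z.size), ?_, (y, z), ⟨⟨rfl, hy⟩, rfl, hz⟩, rfl⟩
        simpa using h
      · rintro ⟨⟨i, j⟩, hij, ⟨y, z⟩, ⟨⟨hi, hy⟩, hj, hz⟩, rfl⟩
        simp only at hij hi hj hy hz
        exact ⟨by simp; omega, y, z, rfl, hy, hz⟩
    rw [h1, card_biUnion]
    · push_cast
      refine sum_congr rfl fun ij _ => ?_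
      rw [card_image_of_injective, card_product, coeff_gf, coeff_gf, cnt, cnt]
      · push_cast; rfl
      · rintro ⟨a, b⟩ ⟨c, d⟩ h
        simpa using h
    · rintro ⟨i, j⟩ _ ⟨k, l⟩ _ hne
      rw [Function.onFun, Finset.disjoint_left]
      simp only [mem_image, mem_product, mem_filter, mem_allOf, not_exists, not_and]
      rintro Y ⟨⟨y, z⟩, ⟨⟨hi, _⟩, hj, _⟩, rfl⟩ ⟨y', z'⟩ ⟨⟨hk, _⟩, hl, _⟩ h
      simp only [Arch.cons.injEq] at h hi hj hk hl
      obtain ⟨rfl, rfl⟩ := h
      apply hne
      rw [← hi, ← hj, ← hk, ← hl]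

/-- The generating function of all arch systems. -/
noncomputable def Cat : ℚ⟦X⟧ := gf (fun _ => True)

theorem Cat_eq : Cat = 1 + X * (Cat * Cat) := by
  have h : gf (fun _ : Arch => True) = gf (fun Y => Y = Arch.nil ∨
      ∃ y z, Y = Arch.cons y z ∧ True ∧ True) := by
    apply gf_congr
    intro Y
    cases Y with
    | nil => simp
    | cons a b => simp
  rw [Cat]
  conv_lhs => rw [h]
  rw [gf_add, gf_nil, gf_cons]
  rintro Y ⟨rfl, y, z, h, _⟩
  simp at h

/-- The generating function of the arch systems avoiding `A`. -/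
noncomputable def F (A : Arch) : ℚ⟦X⟧ := gf (fun X => ¬ Contains X A)

theorem F_nil : F Arch.nil = 0 := by
  ext n
  simp [F, coeff_gf, cnt, contains_nil]

theorem gf_false : gf (fun _ => False) = 0 := by
  ext n
  simp [coeff_gf, cnt]

theorem gf_sum (p : ℕ → Arch → Prop) (k : ℕ) (h : ∀ i < k, ∀ j < k, i ≠ j → ∀ Y, ¬ (p i Y ∧ p j Y)) :
    gf (fun Y => ∃ i < k, p i Y) = ∑ i ∈ range k, gf (p i) := by
  induction k with
  | zero =>
    rw [range_zero, sum_empty, ← gf_false]
    apply gf_congr
    intro Y
    simp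
  | succ k ih =>
    rw [sum_range_succ, ← ih (fun i hi j hj => h i (by omega) j (by omega)), ← gf_add]
    · apply gf_congr
      intro Y
      constructor
      · rintro ⟨i, hi, hp⟩
        rcases Nat.lt_succ_iff_lt_or_eq.1 hi with h1 | rfl
        · exact Or.inl ⟨i, h1, hp⟩
        · exact Or.inr hp
      · rintro (⟨i, hi, hp⟩ | hp)
        · exact ⟨i, by omega, hp⟩
        · exact ⟨k, by omega, hp⟩
    · rintro Y ⟨⟨i, hi, hp⟩, hq⟩
      exact h i (by omega) k (by omega) (by omega) Y ⟨hp, hq⟩

/-- The generating function of the systems without the `i`-th prefix condition. -/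
noncomputable def pg (Z : Arch) (L : List Arch) (i : ℕ) : ℚ⟦X⟧ := gf (fun y => ¬ Pre Z L i y)

theorem pg_zero (Z : Arch) (L : List Arch) : pg Z L 0 = 0 := by
  rw [pg, ← gf_false]
  apply gf_congr
  intro Y
  simp [Pre]

theorem pg_one (Z : Arch) (L : List Arch) : pg Z L 1 = F Z := rfl

theorem pg_add_two (Z : Arch) (L : List Arch) (i : ℕ) :
    pg Z L (i + 2) = F (atoms ((Z :: L).take (i + 2))) := rfl

theorem F_atoms (Z : Arch) (L : List Arch) : F (atoms (Z :: L)) =
    1 + X * ∑ i ∈ range (L.length + 1), (pg Z L (i + 1) - pg Z L i) *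
      F (atoms ((Z :: L).drop i)) := by
  have h : F (atoms (Z :: L)) = gf (fun Y => Y = Arch.nil ∨ ∃ i < L.length + 1,
      ∃ y z, Y = Arch.cons y z ∧ (¬ Pre Z L (i + 1) y ∧ ¬ ¬ Pre Z L i y) ∧
        ¬ Contains z (atoms ((Z :: L).drop i))) := by
    apply gf_congr
    intro Y
    cases Y with
    | nil => simp [not_contains_nil_cons]
    | cons a b =>
      rw [contains_atoms_iff]
      constructor
      · intro h
        right
        push Not at h
        have hk : ¬ Pre Z L (L.length + 1) a := by
          intro hp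
          refine h (L.length + 1) (by simp) hp ?_
          rw [List.drop_of_length_le (by simp)]
          exact contains_nil b
        have hex : ∃ i, ¬ Pre Z L (i + 1) a := ⟨L.length, hk⟩
        classical
        have hle : Nat.find hex ≤ L.length := Nat.find_min' hex hk
        refine ⟨Nat.find hex, by omega, a, b, rfl, ⟨Nat.find_spec hex, ?_⟩, ?_⟩
        · rw [not_not]
          rcases Nat.eq_zero_or_pos (Nat.find hex) with h0 | h0
          · rw [h0]; trivial
          · have h1 := Nat.find_min hex (m := Nat.find hex - 1) (by omega)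
            rw [not_not, Nat.sub_add_cancel h0] at h1
            exact h1
        · refine h _ (by rw [List.length_cons]; omega) ?_
          rcases Nat.eq_zero_or_pos (Nat.find hex) with h0 | h0
          · rw [h0]; trivial
          · have h1 := Nat.find_min hex (m := Nat.find hex - 1) (by omega)
            rw [not_not, Nat.sub_add_cancel h0] at h1
            exact h1
      · rintro (h | ⟨i, hi, y, z, he, ⟨h1, _⟩, h2⟩)
        · simp at h
        · simp only [cons.injEq] at he
          obtain ⟨rfl, rfl⟩ := he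
          rintro ⟨j, hj, h3, h4⟩
          rcases Nat.lt_or_ge i j with hij | hij
          · exact h1 (Pre.mono hij h3)
          · exact h2 (contains_drop hij h4)
  conv_lhs => rw [h]
  rw [gf_add, gf_nil, gf_sum, mul_sum]
  · congr 1
    refine sum_congr rfl fun i _ => ?_
    rw [gf_cons, gf_sub (p := fun y => ¬ Pre Z L i y) (q := fun y => ¬ Pre Z L (i + 1) y)]
    · rfl
    · intro Y h1 h2; exact h1 (Pre.succ h2)
  · intro i _ j _ hij Y
    rintro ⟨⟨y, z, rfl, ⟨h1, h2⟩, _⟩, y', z', he, ⟨h3, h4⟩, _⟩
    simp only [cons.injEq] at he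
    obtain ⟨rfl, rfl⟩ := he
    rw [not_not] at h2 h4
    rcases Nat.lt_or_gt_of_ne hij with h5 | h5
    · exact h1 (Pre.mono h5 h4)
    · exact h3 (Pre.mono h5 h2)
  · rintro Y ⟨rfl, i, _, y, z, h, _⟩
    simp at h

theorem F_wrap (Z : Arch) : F (wrap Z) = 1 + X * (F Z * F (wrap Z)) := by
  have h := F_atoms Z []
  simp only [atoms_cons, atoms_nil, List.length_nil, zero_add, range_one, sum_singleton,
    List.drop_zero, pg_one, pg_zero, sub_zero] at h
  exact h

theorem avoiders_eq (A : Arch) (n : ℕ) : avoiders A n = cnt (fun X => ¬ Contains X A) n := by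
  rw [avoiders, cnt, ← Set.ncard_coe_finset]
  congr 1
  ext Y
  rw [Finset.mem_coe, mem_filter_allOf]
  rfl

theorem F_eq_of_wilf {A B : Arch} (h : WilfEquiv A B) : F A = F B := by
  ext n
  rw [F, F, coeff_gf, coeff_gf, ← avoiders_eq, ← avoiders_eq, h n]

end ArchG
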