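import Mathlib

/-!
Counting words over a finite weighted alphabet.
-/

namespace ArchG.Words

open Finset

variable {σ : Type*} [DecidableEq σ]

/-- The total weight of a word. -/
def wt (g : σ → ℕ) (w : List σ) : ℕ := (w.map g).sum

/-- All words over `L` of weight `n` (letters of weight zero are not used). -/
def words (g : σ → ℕ) (L : Finset σ) : ℕ → Finset (List σ)
  | n => (if n = 0 then {[]} else ∅) ∪ L.attach.biUnion fun t =>
      if h : 1 ≤ g t.1 ∧ g t.1 ≤ n then (words g L (n - g t.1)).image (List.cons t.1) else ∅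
  termination_by n => n
  decreasing_by omega

theorem mem_words {g : σ → ℕ} {L : Finset σ} (hpos : ∀ t ∈ L, 1 ≤ g t) {n : ℕ} {w : List σ} :
    w ∈ words g L n ↔ (∀ t ∈ w, t ∈ L) ∧ wt g w = n := by
  induction w generalizing n with
  | nil =>
    rw [words]
    constructor
    · intro h
      rcases mem_union.1 h with h | h
      · split_ifs at h with h0
        · exact ⟨by simp, by simp [wt, h0]⟩
        · simp at h
      · exfalso
        rw [mem_biUnion] at h
        obtain ⟨t, _, h⟩ := h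
        split_ifs at h with h0
        · simp at h
        · simp at h
    · rintro ⟨_, h⟩
      simp only [wt, List.map_nil, List.sum_nil] at h
      subst h
      simp
  | cons a w ih =>
    rw [words]
    constructor
    · intro h
      rcases mem_union.1 h with h | h
      · split_ifs at h with h0
        · simp at h
        · simp at h
      · rw [mem_biUnion] at h
        obtain ⟨t, _, h⟩ := h
        split_ifs at h with h0
        · rw [mem_image] at h
          obtain ⟨v, hv, he⟩ := h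
          simp only [List.cons.injEq] at he
          obtain ⟨rfl, rfl⟩ := he
          obtain ⟨h1, h2⟩ := ih.1 hv
          refine ⟨?_, ?_⟩
          · intro s hs
            rcases List.mem_cons.1 hs with rfl | hs
            · exact t.2
            · exact h1 s hs
          · simp only [wt, List.map_cons, List.sum_cons] at h2 ⊢
            omega
        · simp at h
    · rintro ⟨h1, h2⟩
      have ha : a ∈ L := h1 a List.mem_cons_self
      refine mem_union_right _ (mem_biUnion.2 ⟨⟨a, ha⟩, mem_attach _ _, ?_⟩)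
      simp only [wt, List.map_cons, List.sum_cons] at h2
      have hg := hpos a ha
      rw [dif_pos ⟨hg, by simp only; omega⟩, mem_image]
      refine ⟨w, ih.2 ⟨fun s hs => h1 s (List.mem_cons_of_mem _ hs), ?_⟩, rfl⟩
      simp only [wt]; omega

theorem card_words {g : σ → ℕ} {L : Finset σ} (hpos : ∀ t ∈ L, 1 ≤ g t) {n : ℕ}
    (hn : ∀ t ∈ L, g t ≤ n) (hn0 : n ≠ 0) :
    (words g L n).card = ∑ t ∈ L, (words g L (n - g t)).card := by
  rw [words, if_neg hn0, empty_union, card_biUnion]
  · rw [← sum_attach L]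
    refine sum_congr rfl fun t _ => ?_
    rw [dif_pos ⟨hpos t.1 t.2, hn t.1 t.2⟩, card_image_of_injective _ (List.cons_injective)]
  · intro t _ t' _ hne
    rw [Function.onFun, Finset.disjoint_left]
    intro w hw hw'
    rw [dif_pos ⟨hpos t.1 t.2, hn t.1 t.2⟩, mem_image] at hw
    rw [dif_pos ⟨hpos t'.1 t'.2, hn t'.1 t'.2⟩, mem_image] at hw'
    obtain ⟨v, _, rfl⟩ := hw
    obtain ⟨v', _, he⟩ := hw'
    simp only [List.cons.injEq] at he
    exact hne (Subtype.ext he.1.symm)

/-- Exponential lower bound for the number of words. -/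
theorem words_lower {g : σ → ℕ} {L : Finset σ} (hpos : ∀ t ∈ L, 1 ≤ g t) {M : ℕ}
    (hM : ∀ t ∈ L, g t ≤ M) {t₀ : σ} (ht₀ : t₀ ∈ L) (h1 : g t₀ = 1) {μ : ℝ} (hμ : 1 ≤ μ)
    (hsum : 1 ≤ ∑ t ∈ L, (μ⁻¹) ^ g t) (n : ℕ) :
    μ ^ n ≤ μ ^ M * (words g L n).card := by
  have hμ0 : 0 < μ := by linarith
  induction n using Nat.strong_induction_on with
  | _ n ih =>
    by_cases hn : n < M
    · have h2 : 1 ≤ (words g L n).card := by
        rw [Nat.one_le_iff_ne_zero, Finset.card_ne_zero]
        refine ⟨List.replicate n t₀, (mem_words hpos).2 ⟨?_, ?_⟩⟩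
        · intro t ht; rw [List.eq_of_mem_replicate ht]; exact ht₀
        · simp [wt, h1]
      have h3 : (1 : ℝ) ≤ (words g L n).card := by exact_mod_cast h2
      calc μ ^ n ≤ μ ^ M := pow_le_pow_right₀ hμ hn.le
        _ = μ ^ M * 1 := by ring
        _ ≤ _ := by gcongr
    · have hM1 : 1 ≤ M := h1 ▸ hM t₀ ht₀
      rw [card_words hpos (fun t ht => (hM t ht).trans (by omega)) (by omega)]
      push_cast
      rw [mul_sum]
      calc μ ^ n ≤ μ ^ n * ∑ t ∈ L, (μ⁻¹) ^ g t := by
            have : 0 < μ ^ n := by positivity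
            nlinarith
        _ = ∑ t ∈ L, μ ^ (n - g t) := by
            rw [mul_sum]
            refine sum_congr rfl fun t ht => ?_
            have hgt : g t ≤ n := (hM t ht).trans (by omega)
            rw [pow_sub₀ μ hμ0.ne' hgt, inv_pow]
        _ ≤ _ := by
            refine sum_le_sum fun t ht => ih _ ?_
            have := hpos t ht
            omega

theorem length_le_wt {g : σ → ℕ} {w : List σ} (h : ∀ t ∈ w, 1 ≤ g t) : w.length ≤ wt g w := by
  induction w with
  | nil => simp [wt]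
  | cons a w ih =>
    have h1 := ih (fun t ht => h t (List.mem_cons_of_mem _ ht))
    have h2 := h a List.mem_cons_self
    simp only [wt, List.map_cons, List.sum_cons, List.length_cons] at h1 ⊢
    omega

/-- Pigeonhole: if `f` is injective on words of the same weight and content then it has many
values on the words of weight `n`. -/
theorem card_le_mul {g : σ → ℕ} {L : Finset σ} (hpos : ∀ t ∈ L, 1 ≤ g t) {β : Type*}
    (f : List σ → β) (n : ℕ) (T : Set β) (hT : T.Finite)
    (hf : ∀ w ∈ words g L n, f w ∈ T)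
    (hinj : ∀ w ∈ words g L n, ∀ w' ∈ words g L n, (∀ t ∈ L, w.count t = w'.count t) →
      f w = f w' → w = w') :
    (words g L n).card ≤ (n + 1) ^ L.card * T.ncard := by
  classical
  let c : List σ → (L → Fin (n + 1)) := fun w t => Fin.ofNat (n + 1) (w.count t.1)
  have hmap : ∀ w ∈ words g L n, c w ∈ (Finset.univ : Finset (L → Fin (n + 1))) :=
    fun _ _ => mem_univ _
  rw [Finset.card_eq_sum_card_fiberwise hmap]
  have hcard : (Finset.univ : Finset (L → Fin (n + 1))).card = (n + 1) ^ L.card := by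
    simp
  rw [← hcard, ← smul_eq_mul, ← Finset.sum_const]
  refine Finset.sum_le_sum fun d _ => ?_
  rw [← Set.ncard_coe_finset]
  refine Set.ncard_le_ncard_of_injOn f ?_ ?_ hT
  · intro w hw
    rw [Finset.mem_coe, mem_filter] at hw
    exact hf w hw.1
  · intro w hw w' hw' h
    rw [Finset.mem_coe, mem_filter] at hw hw'
    refine hinj w hw.1 w' hw'.1 ?_ h
    intro t ht
    have h1 : c w ⟨t, ht⟩ = c w' ⟨t, ht⟩ := by rw [hw.2, hw'.2]
    have hlt : ∀ v ∈ words g L n, v.count t < n + 1 := by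
      intro v hv
      obtain ⟨hv1, hv2⟩ := (mem_words hpos).1 hv
      have h2 := length_le_wt (g := g) (w := v) (fun s hs => hpos s (hv1 s hs))
      have h3 := List.count_le_length (a := t) (l := v)
      omega
    have h2 := congrArg Fin.val h1
    simp only [c, Fin.ofNat] at h2
    rwa [Nat.mod_eq_of_lt (hlt w hw.1), Nat.mod_eq_of_lt (hlt w' hw'.1)] at h2

/-- The growth statement. -/
theorem growth {g : σ → ℕ} {L : Finset σ} (hpos : ∀ t ∈ L, 1 ≤ g t) {t₀ : σ} (ht₀ : t₀ ∈ L)
    (h1 : g t₀ = 1) {μ ν : ℝ} (hν : 1 ≤ ν) (hνμ : ν < μ) (hsum : 1 ≤ ∑ t ∈ L, (μ⁻¹) ^ g t)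
    (N : ℕ → ℕ) (hN : ∀ n, (words g L n).card ≤ (n + 1) ^ L.card * N n) :
    ∃ n₀ : ℕ, ∀ n ≥ n₀, ν ^ n ≤ (N n : ℝ) := by
  have hμ : 1 ≤ μ := by linarith
  have hμ0 : 0 < μ := by linarith
  have hν0 : 0 < ν := by linarith
  set M := ∑ t ∈ L, g t with hMdef
  have hM : ∀ t ∈ L, g t ≤ M := fun t ht => Finset.single_le_sum (f := g) (fun _ _ => Nat.zero_le _) ht
  have hlow := words_lower hpos hM ht₀ h1 hμ hsum
  -- (n+1)^c * μ^M * ν^n ≤ μ^n for large n
  have hlim : Filter.Tendsto (fun n : ℕ => ((n : ℝ) + 1) ^ L.card * (ν / μ) ^ n)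
      Filter.atTop (nhds 0) := by
    have hr : ν / μ < 1 := (div_lt_one hμ0).2 hνμ
    have hr0 : 0 ≤ ν / μ := by positivity
    have h2 := tendsto_pow_const_mul_const_pow_of_lt_one L.card hr0 hr
    have h3 := (Filter.tendsto_add_atTop_iff_nat 1).2 h2
    have h4 : Filter.Tendsto (fun n : ℕ => (((n : ℝ) + 1) ^ L.card * (ν / μ) ^ n)) Filter.atTop
        (nhds ((ν / μ)⁻¹ * 0)) := by
      have h5 := h3.const_mul ((ν / μ)⁻¹)
      refine h5.congr fun n => ?_
      push_cast
      rw [pow_succ]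
      have : ν / μ ≠ 0 := by positivity
      field_simp
    simpa using h4
  have hev := hlim.eventually (gt_mem_nhds (show (0 : ℝ) < (μ ^ M)⁻¹ by positivity))
  obtain ⟨n₀, hn₀⟩ := Filter.eventually_atTop.1 hev
  refine ⟨n₀, fun n hn => ?_⟩
  have h2 := hn₀ n hn
  have h3 := hlow n
  have h4 : ((words g L n).card : ℝ) ≤ ((n : ℝ) + 1) ^ L.card * N n := by
    exact_mod_cast hN n
  have h5 : 0 < ((n : ℝ) + 1) ^ L.card := by positivity
  have h6 : 0 < μ ^ M := by positivity
  have h7 : 0 < μ ^ n := by positivity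
  have h8 : ((n : ℝ) + 1) ^ L.card * ν ^ n * μ ^ M ≤ μ ^ n := by
    rw [div_pow] at h2
    have h9 : ((n : ℝ) + 1) ^ L.card * (ν ^ n / μ ^ n) * μ ^ M < 1 := by
      calc _ < (μ ^ M)⁻¹ * μ ^ M := by gcongr
        _ = 1 := inv_mul_cancel₀ h6.ne'
    have h10 : ((n : ℝ) + 1) ^ L.card * ν ^ n * μ ^ M =
        ((n : ℝ) + 1) ^ L.card * (ν ^ n / μ ^ n) * μ ^ M * μ ^ n := by
      field_simp
    rw [h10]
    nlinarith
  have h11 : ((n : ℝ) + 1) ^ L.card * ν ^ n * μ ^ M ≤ ((n : ℝ) + 1) ^ L.card * N n * μ ^ M := by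
    calc _ ≤ μ ^ n := h8
      _ ≤ μ ^ M * (words g L n).card := h3
      _ ≤ μ ^ M * (((n : ℝ) + 1) ^ L.card * N n) := by gcongr
      _ = _ := by ring
  have h12 : ((n : ℝ) + 1) ^ L.card * ν ^ n ≤ ((n : ℝ) + 1) ^ L.card * N n :=
    le_of_mul_le_mul_right h11 h6
  exact le_of_mul_le_mul_left h12 h5

end ArchG.Words
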