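import Pool.Agent.Lib.ArchG.Decode
import Pool.Agent.Lib.ArchG.Words

namespace ArchG

open Arch PowerSeries Finset

/-- The joins of a word. -/
def joins (w : List Step) : List Step := w.filter (fun t => decide (t ≠ Step.wrap))

theorem UU_eq_joins (w : List Step) : UU w = UU (joins w) := by
  rw [UU, UU, joins]
  induction w with
  | nil => simp
  | cons t w ih =>
    by_cases ht : t = Step.wrap
    · subst ht; simpa [mainPart] using ih
    · simp [ht, ih]

/-- The total branching of the steps of a word. -/
def brs (w : List Step) : ℕ := (w.map stepBranch).sum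

theorem brs_eq_joins (w : List Step) : brs w = brs (joins w) := by
  rw [brs, brs, joins]
  induction w with
  | nil => simp
  | cons t w ih =>
    by_cases ht : t = Step.wrap
    · subst ht; simpa [stepBranch] using ih
    · simp [ht, ih]

theorem branch_apply (t : Step) (Z : Arch) : (t.apply Z).branch = stepBranch t + Z.branch := by
  cases t with
  | wrap => simp [Step.apply, stepBranch, wrap, Arch.branch, Arch.len]
  | join l => rw [Step.apply, branch_atoms, stepBranch]; ring

theorem branch_chain (w : List Step) : (chain w).branch = brs w := by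
  induction w with
  | nil => rfl
  | cons t w ih =>
    rw [chain, branch_apply, ih, brs, brs, List.map_cons, List.sum_cons]

theorem size_apply (t : Step) (Z : Arch) : (t.apply Z).size = t.weight + Z.size := by
  cases t with
  | wrap => rw [Step.apply, size_wrap, Step.weight]; ring
  | join l =>
    rw [Step.apply, size_atoms, Step.weight, List.map_append, List.sum_append]
    simp; ring

theorem size_chain (w : List Step) : (chain w).size = weight w := by
  induction w with
  | nil => rfl
  | cons t w ih => rw [chain, size_apply, ih, weight_cons]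

theorem brs_split (l : List Step) (t : Step) :
    brs l = l.count t * stepBranch t + brs (l.filter (fun r => decide (r ≠ t))) := by
  induction l with
  | nil => simp [brs]
  | cons a l ih =>
    rw [brs, List.map_cons, List.sum_cons, ← brs, ih]
    by_cases ha : a = t
    · subst ha
      simp; ring
    · simp [ha, brs]; ring

theorem count_joins {w : List Step} {t : Step} (ht : t ≠ Step.wrap) :
    (joins w).count t = w.count t := by
  rw [joins, List.count_filter (by simpa using ht)]

theorem count_wrap_joins (w : List Step) : (joins w).count Step.wrap = 0 := by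
  rw [List.count_eq_zero]
  intro h
  simpa using (List.mem_filter.1 h).2

theorem joins_perm {w w' : List Step} (hb : brs (joins w) = brs (joins w')) (t₀ : Step)
    (ht₀ : 1 ≤ stepBranch t₀ ∨ w.count t₀ = w'.count t₀)
    (h : ∀ t, t ≠ Step.wrap → t ≠ t₀ → w.count t = w'.count t) : (joins w).Perm (joins w') := by
  rw [List.perm_iff_count]
  have h1 : ∀ t, t ≠ t₀ → (joins w).count t = (joins w').count t := by
    intro t ht
    by_cases hw : t = Step.wrap
    · rw [hw, count_wrap_joins, count_wrap_joins]
    · rw [count_joins hw, count_joins hw, h t hw ht]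
  intro t
  by_cases ht : t = t₀
  · subst ht
    by_cases hwr : t = Step.wrap
    · rw [hwr, count_wrap_joins, count_wrap_joins]
    rcases ht₀ with ht₀ | ht₀
    · have h2 : ((joins w).filter (fun s => decide (s ≠ t))).Perm
          ((joins w').filter (fun s => decide (s ≠ t))) := by
        rw [List.perm_iff_count]
        intro s
        by_cases hs : s = t
        · subst hs
          have k : ∀ l : List Step, (l.filter (fun r => decide (r ≠ s))).count s = 0 := by
            intro l
            rw [List.count_eq_zero]
            intro h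
            simpa using (List.mem_filter.1 h).2
          rw [k, k]
        · rw [List.count_filter (by simpa using hs), List.count_filter (by simpa using hs), h1 s hs]
      have h3 : brs ((joins w).filter (fun s => decide (s ≠ t))) =
          brs ((joins w').filter (fun s => decide (s ≠ t))) := (h2.map stepBranch).sum_eq
      have k1 := brs_split (joins w) t
      have k2 := brs_split (joins w') t
      rw [hb, h3] at k1
      rw [k2] at k1
      have k3 : (joins w').count t * stepBranch t = (joins w).count t * stepBranch t := by omega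
      exact (Nat.eq_of_mul_eq_mul_right (by omega) k3).symm
    · rw [count_joins hwr, count_joins hwr, ht₀]
  · exact h1 t ht

theorem UV_eq_of_phi {w w' : List Step} (h : phi (chain w) = phi (chain w')) :
    weight w = weight w' ∧ UU w * VV w = UU w' * VV w' := by
  have hwt : weight w = weight w' := by
    rw [← size_chain, ← size_chain]; exact size_eq_of_phi h
  refine ⟨hwt, ?_⟩
  rw [phi_chain, phi_chain, ← hwt] at h
  exact mul_left_cancel₀ (pow_ne_zero _ q_ne_zero) h

theorem stepBranch_pos {l : List Arch} (h : 2 ≤ l.length) : 1 ≤ stepBranch (Step.join l) := by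
  rw [stepBranch]
  have : 1 ≤ l.length.choose 2 := Nat.choose_pos h
  omega

/-- The injectivity theorem in terms of the series `phi`. -/
theorem eq_of_phi_eq {S : Set Step} (hS : Good S) {w w' : List Step} (hw : ∀ t ∈ w, t ∈ S)
    (hw' : ∀ t ∈ w', t ∈ S) (t₀ : Step)
    (h : ∀ t, t ≠ Step.wrap → t ≠ t₀ → w.count t = w'.count t)
    (hphi : phi (chain w) = phi (chain w')) : w = w' := by
  have hb : brs (joins w) = brs (joins w') := by
    rw [← brs_eq_joins, ← brs_eq_joins, ← branch_chain, ← branch_chain]
    exact branch_eq_of_phi hphi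
  have ht₀ : 1 ≤ stepBranch t₀ ∨ (joins w).count t₀ = (joins w').count t₀ := by
    by_cases hmem : t₀ ∈ S
    · cases t₀ with
      | wrap => right; rw [count_wrap_joins, count_wrap_joins]
      | join l => left; exact stepBranch_pos (hS.1 l hmem)
    · right
      have k : ∀ v : List Step, (∀ t ∈ v, t ∈ S) → (joins v).count t₀ = 0 := by
        intro v hv
        rw [List.count_eq_zero]
        intro h
        exact hmem (hv _ (List.mem_filter.1 h).1)
      rw [k w hw, k w' hw']
  have ht₀' : 1 ≤ stepBranch t₀ ∨ w.count t₀ = w'.count t₀ ∨ t₀ = Step.wrap := by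
    rcases ht₀ with h1 | h1
    · exact Or.inl h1
    · by_cases hwr : t₀ = Step.wrap
      · exact Or.inr (Or.inr hwr)
      · rw [count_joins hwr, count_joins hwr] at h1
        exact Or.inr (Or.inl h1)
  have hperm : (joins w).Perm (joins w') := by
    rcases ht₀' with h1 | h1 | h1
    · exact joins_perm hb t₀ (Or.inl h1) h
    · exact joins_perm hb t₀ (Or.inr h1) h
    · rw [List.perm_iff_count]
      intro t
      by_cases hwr : t = Step.wrap
      · rw [hwr, count_wrap_joins, count_wrap_joins]
      · rw [count_joins hwr, count_joins hwr]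
        exact h t hwr (by rw [h1]; exact hwr)
  have hU : UU w = UU w' := by
    rw [UU_eq_joins w, UU_eq_joins w', UU, UU]
    exact (hperm.map mainPart).prod_eq
  obtain ⟨hwt, hUV⟩ := UV_eq_of_phi hphi
  rw [hU] at hUV
  have hV : VV w = VV w' := mul_left_cancel₀ (ne_zero_of_cc (cc_UU w')) hUV
  exact eq_of_VV_eq hS hw hw' hwt hV

theorem phi_eq_of_wilf {A B : Arch} (h : WilfEquiv A B) : phi A = phi B := by
  rw [phi, phi, F_eq_of_wilf h]

/-- The injectivity theorem. -/
theorem eq_of_wilf {S : Set Step} (hS : Good S) {w w' : List Step} (hw : ∀ t ∈ w, t ∈ S)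
    (hw' : ∀ t ∈ w', t ∈ S) (t₀ : Step)
    (h : ∀ t, t ≠ Step.wrap → t ≠ t₀ → w.count t = w'.count t)
    (hwilf : WilfEquiv (chain w) (chain w')) : w = w' :=
  eq_of_phi_eq hS hw hw' t₀ h (phi_eq_of_wilf hwilf)

/-! ### Sorted lists over a fixed choice of one arch system of each size -/

theorem separated_of_sorted {Y : ℕ → Arch} (hY : ∀ n, (Y n).size = n) {σ τ : List ℕ}
    (hσ : σ.Pairwise (· ≤ ·)) (hτ : τ.Pairwise (· ≤ ·)) (hlen : σ.length = τ.length) :
    σ = τ ∨ Separated (σ.map Y) (τ.map Y) ∨ Separated (τ.map Y) (σ.map Y) := by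
  rcases prefix_split σ τ with h | ⟨t, ht, h | h⟩ | ⟨p, a, b, t, t', hne, h1, h2⟩
  · exact Or.inl h
  · exfalso
    rw [h, List.length_append] at hlen
    have := List.length_pos_iff.2 ht
    omega
  · exfalso
    rw [h, List.length_append] at hlen
    have := List.length_pos_iff.2 ht
    omega
  · right
    subst h1 h2
    have k1 : ∀ c ∈ t, a ≤ c := (List.pairwise_cons.1 (List.pairwise_append.1 hσ).2.1).1
    have k2 : ∀ c ∈ t', b ≤ c := (List.pairwise_cons.1 (List.pairwise_append.1 hτ).2.1).1
    rcases Nat.lt_or_gt_of_ne hne with hab | hab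
    · left
      refine ⟨p.map Y, Y a, t.map Y, Y b, t'.map Y, by simp, by simp, ?_, ?_⟩
      · intro Z hZ
        obtain ⟨c, hc, rfl⟩ := List.mem_map.1 hZ
        rw [hY, hY]; exact k1 c hc
      · intro Z hZ
        rcases List.mem_cons.1 hZ with rfl | hZ
        · rw [hY, hY]; exact hab
        · obtain ⟨c, hc, rfl⟩ := List.mem_map.1 hZ
          rw [hY, hY]; exact lt_of_lt_of_le hab (k2 c hc)
    · right
      refine ⟨p.map Y, Y b, t'.map Y, Y a, t.map Y, by simp, by simp, ?_, ?_⟩
      · intro Z hZ
        obtain ⟨c, hc, rfl⟩ := List.mem_map.1 hZ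
        rw [hY, hY]; exact k2 c hc
      · intro Z hZ
        rcases List.mem_cons.1 hZ with rfl | hZ
        · rw [hY, hY]; exact hab
        · obtain ⟨c, hc, rfl⟩ := List.mem_map.1 hZ
          rw [hY, hY]; exact lt_of_lt_of_le hab (k1 c hc)

/-- The steps `wrap` and `join (σ.map Y)` with `σ` sorted of length at least two. -/
def sortedSteps (Y : ℕ → Arch) : Set Step := {t | t = Step.wrap ∨ ∃ σ : List ℕ,
  σ.Pairwise (· ≤ ·) ∧ 2 ≤ σ.length ∧ t = Step.join (σ.map Y)}

theorem good_sortedSteps {Y : ℕ → Arch} (hY : ∀ n, (Y n).size = n) : Good (sortedSteps Y) := by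
  constructor
  · rintro l (h | ⟨σ, _, h2, h3⟩)
    · exact absurd h (by simp)
    · rw [Step.join.injEq] at h3
      rw [h3, List.length_map]; exact h2
  · rintro l l' (h | ⟨σ, s1, _, s3⟩) (h' | ⟨τ, t1, _, t3⟩) hlen
    · exact absurd h (by simp)
    · exact absurd h (by simp)
    · exact absurd h' (by simp)
    · rw [Step.join.injEq] at s3 t3
      subst s3 t3
      rcases separated_of_sorted hY s1 t1 (by simpa using hlen) with h | h | h
      · exact Or.inl (by rw [h])
      · exact Or.inr (Or.inl h)
      · exact Or.inr (Or.inr h)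

/-! ### Counting -/

theorem card_words_le {S : Set Step} (hS : Good S) (L : Finset Step) (hL : ∀ t ∈ L, t ∈ S)
    (n : ℕ) : (Words.words Step.weight L n).card ≤ (n + 1) ^ L.card * wilfClasses n := by
  have hpos : ∀ t ∈ L, 1 ≤ Step.weight t := fun t _ => t.weight_pos
  apply Words.card_le_mul hpos (fun w => avoiders (chain w)) n (avoiders '' {A : Arch | A.size = n})
  · apply Set.Finite.image
    have : {A : Arch | A.size = n} = ↑(allOf n) := by
      ext A; simp [mem_allOf]
    rw [this]; exact Finset.finite_toSet _
  · intro w hw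
    obtain ⟨_, h2⟩ := (Words.mem_words hpos).1 hw
    refine ⟨chain w, ?_, rfl⟩
    rw [Set.mem_ofPred_eq, size_chain]; exact h2
  · intro w hw w' hw' hc hf
    obtain ⟨h1, h2⟩ := (Words.mem_words hpos).1 hw
    obtain ⟨h1', h2'⟩ := (Words.mem_words hpos).1 hw'
    refine eq_of_wilf hS (fun s hs => hL s (h1 s hs))
      (fun s hs => hL s (h1' s hs)) Step.wrap ?_ (fun n => congrFun hf n)
    intro t _ _
    by_cases ht : t ∈ L
    · exact hc t ht
    · rw [List.count_eq_zero.2 (fun h => ht (h1 t h)), List.count_eq_zero.2 (fun h => ht (h1' t h))]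

theorem growth_bound {S : Set Step} (hS : Good S) (L : Finset Step) (hL : ∀ t ∈ L, t ∈ S)
    (hwrap : Step.wrap ∈ L) {μ ν : ℝ} (hν : 1 ≤ ν) (hνμ : ν < μ)
    (hsum : 1 ≤ ∑ t ∈ L, (μ⁻¹) ^ t.weight) :
    ∃ n₀ : ℕ, ∀ n ≥ n₀, ν ^ n ≤ (wilfClasses n : ℝ) :=
  Words.growth (fun t _ => t.weight_pos) hwrap rfl hν hνμ hsum _
    (card_words_le hS L hL)

end ArchG
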