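import Pool.Agent.Lib.ArchG.One

namespace ArchG

open Arch PowerSeries Finset

/-! ### Replacing several occurrences -/

theorem factor_many {Y Y' : Arch} {s : ℕ} {A B : Arch}
    (h : Relation.TransGen (Replace Y Y' s) A B) :
    ∃ W : ℚ⟦X⟧, 0 < constantCoeff W ∧ phi A - phi B = q ^ s * (phi Y - phi Y') * W := by
  induction h with
  | single h =>
    obtain ⟨W, w1, w2⟩ := factor_replace h
    exact ⟨W, by rw [w1]; exact one_pos, w2⟩
  | tail _ h ih =>
    obtain ⟨W, w1, w2⟩ := ih
    obtain ⟨V, v1, v2⟩ := factor_replace h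
    refine ⟨W + V, by rw [map_add, v1]; linarith, ?_⟩
    linear_combination w2 + v2

theorem dvd_of_dvd_mul' {m : ℕ} {x u : ℚ⟦X⟧} (hu : 0 < constantCoeff u) (h : X ^ m ∣ x * u) :
    X ^ m ∣ x := by
  have : x = x * u * u⁻¹ := by
    rw [mul_assoc, PowerSeries.mul_inv_cancel _ (ne_of_gt hu), mul_one]
  rw [this]
  exact Dvd.dvd.mul_right h _

/-- Replacing one or more occurrences of `Y` by `Y'` shifts the first disagreement by exactly
the number of arches outside an occurrence. -/
theorem agree_many {Y Y' : Arch} {s : ℕ} {A B : Arch}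
    (h : Relation.TransGen (Replace Y Y' s) A B) (d : ℕ) :
    (∀ m < d + s, avoiders A m = avoiders B m) ↔ ∀ m < d, avoiders Y m = avoiders Y' m := by
  obtain ⟨W, w1, w2⟩ := factor_many h
  rw [agree_iff, agree_iff, Cg, Cg, w2]
  constructor
  · intro h1
    have h2 := dvd_of_dvd_mul' w1 h1
    have h3 : Cg (s + d) (q ^ s * phi Y) (q ^ s * phi Y') := by
      rw [Cg, ← mul_sub, add_comm]; exact h2
    exact cong_of_q_pow h3
  · intro h1
    apply Dvd.dvd.mul_right
    rw [add_comm, pow_add]
    exact mul_dvd_mul (X_pow_dvd_q_pow le_rfl) h1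

theorem wilf_many {Y Y' : Arch} {s : ℕ} {A B : Arch}
    (h : Relation.TransGen (Replace Y Y' s) A B) : WilfEquiv A B ↔ WilfEquiv Y Y' := by
  constructor
  · intro hw m
    exact (agree_many h (m + 1)).1 (fun k _ => hw k) m (Nat.lt_succ_self m)
  · intro hw m
    exact (agree_many h (m + 1)).2 (fun k _ => hw k) m (by omega)

theorem cohort_replace {Y Y' : Arch} {s : ℕ} {A B : Arch} (h : Replace Y Y' s A B)
    (hc : Cohort Y Y') : Cohort A B := by
  induction h with
  | whole => exact hc
  | @inside s A B P Q _ ih =>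
    exact Cohort.ctx P Q (Or.inr ⟨A, rfl⟩) (Or.inr ⟨B, rfl⟩) ih.wrap

theorem cohort_many {Y Y' : Arch} {s : ℕ} {A B : Arch}
    (h : Relation.TransGen (Replace Y Y' s) A B) (hc : Cohort Y Y') : Cohort A B := by
  induction h with
  | single h => exact cohort_replace h hc
  | tail _ h ih => exact Cohort.trans ih (cohort_replace h hc)

theorem size_replace {Y Y' : Arch} {s : ℕ} {A B : Arch} (h : Replace Y Y' s A B) :
    A.size = Y.size + s ∧ B.size = Y'.size + s := by
  induction h with
  | whole => exact ⟨rfl, rfl⟩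
  | @inside s A B P Q _ ih =>
    rw [size_append, size_append, size_cons, size_cons, ih.1, ih.2]
    omega

theorem size_many {Y Y' : Arch} {s : ℕ} {A B : Arch}
    (h : Relation.TransGen (Replace Y Y' s) A B) : A.size = Y.size + s := by
  induction h with
  | single h => exact (size_replace h).1
  | tail _ _ ih => exact ih

/-! ### The excess -/

theorem excess_cons (X Y : Arch) : (Arch.cons X Y).excess = X.excess + Y.excess + (Y.len - 1) := by
  rw [excess, innerExcess, Arch.len, excess, excess]
  rcases Nat.eq_zero_or_pos Y.len with h | h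
  · rw [h]; simp
  · obtain ⟨k, hk⟩ := Nat.exists_eq_add_of_le' h
    rw [hk]
    have e : (k + 1 + 1 - 1).choose 2 = k + (k + 1 - 1).choose 2 := by
      rw [Nat.add_sub_cancel, Nat.add_sub_cancel, Nat.choose_succ_succ' k 1, Nat.choose_one_right]
    rw [e, Nat.add_sub_cancel]; ring

theorem excess_eq_branch (A : Arch) : A.excess = A.branch := by
  induction A with
  | nil => rfl
  | cons X Y ih1 ih2 => rw [excess_cons, ih1, ih2, Arch.branch]

/-- The strong form of the converse for pairs that arise from systems with at most one branching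
vertex by replacements. -/
theorem converse_one {Y Y' : Arch} (hs : Y.size = Y'.size)
    (hb : (Y.branching ≤ 1 ∧ Y'.branching ≤ 1) ∨ Y.excess ≤ 1) {s : ℕ} {A B : Arch}
    (h : Relation.TransGen (Replace Y Y' s) A B)
    (hav : ∀ m ≤ 2 * A.size - 2, avoiders A m = avoiders B m) : Cohort A B := by
  apply cohort_many h
  rcases Nat.eq_zero_or_pos Y.size with h0 | h0
  · have h0' : Y'.size = 0 := by rw [← hs]; exact h0
    rw [size_eq_zero h0, size_eq_zero h0']; exact Cohort.refl _
  have hav' : ∀ m ≤ 2 * Y.size - 2, avoiders Y m = avoiders Y' m := by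
    have hA := size_many h
    have h1 := (agree_many h (2 * Y.size - 1)).1 (fun m hm => hav m (by omega))
    intro m hm
    exact h1 m (by omega)
  rcases hb with ⟨h1, h2⟩ | h1
  · exact one_branching h1 h2 hs hav'
  · rw [excess_eq_branch] at h1
    exact branch_le_one h1 hs hav'

/-- The strong form of the converse for words. -/
theorem converse_words {S : Set Step} (hS : Good S) {w w' : List Step} (hw : ∀ t ∈ w, t ∈ S)
    (hw' : ∀ t ∈ w', t ∈ S) (t₀ : Step)
    (hcount : ∀ t, t ≠ Step.wrap → t ≠ t₀ → w.count t = w'.count t)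
    {A B : Arch} (hA : Cohort A (chain w)) (hB : Cohort B (chain w')) (hsize : A.size = B.size)
    (hav : ∀ m ≤ 2 * A.size - 2, avoiders A m = avoiders B m) : w = w' ∧ Cohort A B := by
  have e1 := wilf_of_cohort hA
  have e2 := wilf_of_cohort hB
  have s1 : A.size = weight w := by rw [size_of_cohort hA, size_chain]
  have s2 : B.size = weight w' := by rw [size_of_cohort hB, size_chain]
  have h1 : w = w' := by
    apply eq_of_counts hS hw hw' t₀ hcount (by rw [← s1, ← s2, hsize])
    intro m hm
    rw [← e1 m, ← e2 m]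
    exact hav m (by rw [s1]; exact hm)
  refine ⟨h1, ?_⟩
  rw [← h1] at hB
  exact Cohort.trans hA hB.symm

end ArchG
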