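import Pool.Agent.Lib.ArchG.First

namespace ArchG

open Arch PowerSeries Finset

theorem inner_atoms (L : List Arch) : (atoms L).inner = (L.map branching).sum := by
  induction L with
  | nil => rfl
  | cons X L ih => rw [atoms_cons, Arch.inner, ih, List.map_cons, List.sum_cons, branching]

theorem branching_atoms (L : List Arch) : (atoms L).branching =
    (L.map branching).sum + (if 3 ≤ L.length then 1 else 0) := by
  rw [branching, inner_atoms, len_atoms]

theorem branching_wrap (X : Arch) : (wrap X).branching = X.branching := by
  have h : (Arch.cons X Arch.nil).branching = X.branching := by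
    simpa using branching_atoms [X]
  exact h

/-! ### Rules for equivalence -/

theorem cohort_append_atoms {L L' : List Arch} (h : List.Forall₂ Cohort L L') (P : Arch) :
    Cohort (P.append (atoms L)) (P.append (atoms L')) := by
  induction h generalizing P with
  | nil => exact Cohort.refl _
  | @cons Y Y' M M' h1 _ ih =>
    have e : ∀ (Z : Arch) (N : List Arch), P.append (atoms (Z :: N)) =
        P.append ((wrap Z).append (atoms N)) := fun Z N => rfl
    rw [e, e]
    refine Cohort.trans (Cohort.ctx P (atoms M) (Or.inr ⟨Y, rfl⟩) (Or.inr ⟨Y', rfl⟩)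
      (Cohort.wrap h1)) ?_
    rw [← append_assoc, ← append_assoc]
    exact ih _

theorem cohort_perm {L L' : List Arch} (h : L.Perm L') (P : Arch) :
    Cohort (P.append (atoms L)) (P.append (atoms L')) := by
  induction h generalizing P with
  | nil => exact Cohort.refl _
  | @cons Y M M' _ ih =>
    have e : ∀ (Z : Arch) (N : List Arch), P.append (atoms (Z :: N)) =
        P.append ((wrap Z).append (atoms N)) := fun Z N => rfl
    rw [e, e, ← append_assoc, ← append_assoc]
    exact ih _
  | swap Y Z M =>
    exact Cohort.comm (a := wrap Z) (b := wrap Y) P (atoms M) (Or.inr ⟨Z, rfl⟩) (Or.inr ⟨Y, rfl⟩)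
  | trans _ _ ih1 ih2 => exact Cohort.trans (ih1 P) (ih2 P)

theorem cohort_iterate {A B : Arch} (h : Cohort A B) (m : ℕ) :
    Cohort (wrap^[m] A) (wrap^[m] B) := by
  induction m with
  | zero => exact h
  | succ m ih => rw [Function.iterate_succ_apply', Function.iterate_succ_apply']; exact ih.wrap

theorem cohort_move (j : ℕ) (Z : Arch) :
    Cohort ((wrap (nest j)).append (wrap Z)) (wrap^[j + 1] (wrap Z)) := by
  induction j generalizing Z with
  | zero =>
    have h := Cohort.rot (a := Arch.nil) (b := Arch.nil) (c := wrap Z) (Or.inl rfl) (Or.inl rfl)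
      (Or.inr ⟨Z, rfl⟩)
    exact h.symm
  | succ j ih =>
    have h := Cohort.rot (a := wrap (nest j)) (b := Arch.nil) (c := wrap Z)
      (Or.inr ⟨_, rfl⟩) (Or.inl rfl) (Or.inr ⟨Z, rfl⟩)
    rw [append_nil, nil_append] at h
    refine Cohort.trans h.symm ?_
    have h2 := ih (wrap Z)
    rw [Function.iterate_succ_apply]
    exact h2

theorem iterate_nest (m j : ℕ) : wrap^[m] (nest j) = nest (m + j) := by
  induction m with
  | zero => simp
  | succ m ih => rw [Function.iterate_succ_apply', ih, add_right_comm]; rfl

theorem cohort_two (j i : ℕ) : Cohort (atoms [nest j, nest i]) (nest (j + i + 2)) := by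
  have h := cohort_move j (nest i)
  have e : wrap (nest i) = nest (i + 1) := rfl
  rw [e, iterate_nest] at h
  have e2 : j + 1 + (i + 1) = j + i + 2 := by ring
  rw [e2] at h
  exact h

/-- A system without branching vertices is equivalent to a nest. -/
theorem cohort_of_branching_zero (A : Arch) (h : A.branching = 0) : Cohort A (nest A.size) := by
  generalize hn : A.size = n
  induction n using Nat.strong_induction_on generalizing A with
  | _ n ih =>
    obtain ⟨L, rfl⟩ := exists_atoms A
    rw [branching_atoms] at h
    rw [size_atoms] at hn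
    match L, h, hn with
    | [], _, hn =>
      simp at hn
      rw [← hn]; exact Cohort.refl _
    | [Y], h, hn =>
      simp at h hn
      have h1 := ih Y.size (by omega) Y h rfl
      rw [← hn]
      exact Cohort.wrap h1
    | [Y, Z], h, hn =>
      simp at h hn
      have h1 := ih Y.size (by omega) Y h.1 rfl
      have h2 := ih Z.size (by omega) Z h.2 rfl
      have h3 := cohort_append_atoms (List.Forall₂.cons h1 (List.Forall₂.cons h2
        List.Forall₂.nil)) Arch.nil
      rw [nil_append, nil_append] at h3
      refine Cohort.trans h3 ?_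
      have h4 := cohort_two Y.size Z.size
      rw [← hn]
      convert h4 using 2; ring
    | _ :: _ :: _ :: _, h, _ =>
      simp at h

/-- The normal form of a system with one branching vertex. -/
theorem cohort_of_branching_one (A : Arch) (h : A.branching = 1) : ∃ (m : ℕ) (τ : List ℕ),
    τ.Pairwise (· ≤ ·) ∧ 3 ≤ τ.length ∧ Cohort A (wrap^[m] (atoms (τ.map nest))) := by
  generalize hn : A.size = n
  induction n using Nat.strong_induction_on generalizing A with
  | _ n ih =>
    obtain ⟨L, rfl⟩ := exists_atoms A
    rw [branching_atoms] at h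
    rw [size_atoms] at hn
    have two : ∀ Y Z : Arch, Y.branching = 0 → Z.branching = 1 → Z.size < n →
        ∃ (m : ℕ) (τ : List ℕ), τ.Pairwise (· ≤ ·) ∧ 3 ≤ τ.length ∧
          Cohort (atoms [Y, Z]) (wrap^[m] (atoms (τ.map nest))) := by
      intro Y Z hY hZ hlt
      have h1 := cohort_of_branching_zero Y hY
      obtain ⟨m, τ, t1, t2, t3⟩ := ih Z.size hlt Z hZ rfl
      refine ⟨Y.size + 1 + 1 + m, τ, t1, t2, ?_⟩
      have h3 := cohort_append_atoms (List.Forall₂.cons h1 (List.Forall₂.cons t3
        List.Forall₂.nil)) Arch.nil
      rw [nil_append, nil_append] at h3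
      refine Cohort.trans h3 ?_
      have h4 := cohort_move Y.size (wrap^[m] (atoms (τ.map nest)))
      rw [Function.iterate_add_apply, Function.iterate_add_apply]
      exact h4
    by_cases hlen : 3 ≤ L.length
    · rw [if_pos hlen] at h
      have h0 : ∀ Y ∈ L, Y.branching = 0 := by
        intro Y hY
        have := List.single_le_sum (l := L.map branching) (by simp) Y.branching
          (List.mem_map.2 ⟨Y, hY, rfl⟩)
        omega
      refine ⟨0, (L.map size).mergeSort, List.pairwise_mergeSort' _ _, ?_, ?_⟩
      · rw [List.length_mergeSort, List.length_map]; exact hlen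
      · have h1 : List.Forall₂ Cohort L ((L.map size).map nest) := by
          clear hn h hlen two
          induction L with
          | nil => exact List.Forall₂.nil
          | cons Y L ihL =>
            exact List.Forall₂.cons (cohort_of_branching_zero Y (h0 Y List.mem_cons_self))
              (ihL fun Z hZ => h0 Z (List.mem_cons_of_mem _ hZ))
        have h2 := cohort_append_atoms h1 Arch.nil
        have h3 : ((L.map size).map nest).Perm ((L.map size).mergeSort.map nest) :=
          ((List.mergeSort_perm _ _).symm).map nest
        have h4 := cohort_perm h3 Arch.nil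
        rw [nil_append, nil_append] at h2 h4
        exact Cohort.trans h2 h4
    · rw [if_neg hlen] at h
      match L, h, hn, hlen with
      | [], h, _, _ => simp at h
      | [Y], h, hn, _ =>
        simp at h hn
        obtain ⟨m, τ, t1, t2, t3⟩ := ih Y.size (by omega) Y h rfl
        refine ⟨m + 1, τ, t1, t2, ?_⟩
        rw [Function.iterate_succ_apply']
        exact Cohort.wrap t3
      | [Y, Z], h, hn, _ =>
        simp at h hn
        rcases Nat.eq_zero_or_pos Y.branching with hY | hY
        · exact two Y Z hY (by omega) (by omega)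
        · obtain ⟨m, τ, t1, t2, t3⟩ := two Z Y (by omega) (by omega) (by omega)
          refine ⟨m, τ, t1, t2, Cohort.trans ?_ t3⟩
          have := cohort_perm (List.Perm.swap Z Y []) Arch.nil
          rw [nil_append, nil_append] at this
          exact this
      | _ :: _ :: _ :: _, _, _, hlen =>
        simp at hlen

/-! ### Comparison of normal forms -/

theorem choose_two_lt {a b : ℕ} (h : a < b) (ha : 1 ≤ a) : a.choose 2 < b.choose 2 := by
  induction b with
  | zero => omega
  | succ b ih =>
    have e : (b + 1).choose 2 = b + b.choose 2 := by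
      rw [Nat.choose_succ_succ' b 1, Nat.choose_one_right]
    rw [e]
    rcases Nat.lt_succ_iff_lt_or_eq.1 h with h1 | h1
    · have := ih h1; omega
    · subst h1; omega

theorem choose_two_inj {a b : ℕ} (ha : 1 ≤ a) (hb : 1 ≤ b) (h : a.choose 2 = b.choose 2) :
    a = b := by
  rcases Nat.lt_trichotomy a b with h1 | h1 | h1
  · have := choose_two_lt h1 ha; omega
  · exact h1
  · have := choose_two_lt h1 hb; omega

/-- The factors `EE` of two separated lists differ at the order of the first difference. -/
theorem EE_sep {M M' : List Arch} {Z Z' : Arch} (h : Separated (M ++ [Z]) (M' ++ [Z']))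
    (hlen : M.length = M'.length) (h2 : 2 ≤ M.length) {N : ℕ}
    (hN : ((M' ++ [Z']).map fun Y => Y.size + 1).sum ≤ N + 1) :
    ¬ Cg N (EE (ent M) (q * phi Z)) (EE (ent M') (q * phi Z')) := by
  obtain ⟨p, Y, r, Y', r', hl, hl', hr, hr'⟩ := h
  set m := Y.size + 1 with hm
  have hlr : r.length = r'.length := by
    have e1 := congrArg List.length hl
    have e2 := congrArg List.length hl'
    simp only [List.length_append, List.length_cons, List.length_nil] at e1 e2
    omega
  have hY' : Y.size < Y'.size := hr' Y' List.mem_cons_self
  have hCl : Cl m (ent (M ++ [Z])) (ent (M' ++ [Z'])) := by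
    rw [hl, hl', ent, ent, List.map_append, List.map_append]
    apply Cl_append
    apply Cl_ent_zero (r := Y :: r) (r' := Y' :: r') (by simpa using hlr)
    · intro W hW
      rcases List.mem_cons.1 hW with rfl | hW
      · exact le_rfl
      · have := hr W hW; omega
    · intro W hW
      have := hr' W hW; omega
  have hA : Cl m (ent M) (ent M') := by
    have := hCl.take M.length
    rw [ent_append, ent_append, List.take_left' (ent_length M),
      List.take_left' (by rw [ent_length, hlen])] at this
    exact this
  have hz : Cg m (q * phi Z) (q * phi Z') := by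
    have := hCl.getD M.length
    rw [ent_append, ent_append, List.getD_append_right _ _ _ _ (by rw [ent_length]),
      List.getD_append_right _ _ _ _ (by rw [ent_length, hlen]), ent_length, ent_length,
      hlen, Nat.sub_self] at this
    simpa [ent, phi_wrap] using this
  -- the size
  have hN2 : m + 2 ≤ N := by
    rw [hl'] at hN
    have e2 := congrArg List.length hl'
    simp only [List.length_append, List.length_cons, List.length_nil] at e2
    have h3 := sum_size_ge p
    have h4 := sum_size_ge r'
    simp only [List.map_append, List.map_cons, List.sum_append, List.sum_cons] at hN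
    omega
  intro hcg
  have hne : ent M ≠ [] := by
    intro h0
    rw [← List.length_eq_zero_iff, ent_length] at h0
    omega
  have cz : ∀ W : Arch, constantCoeff (q * phi W) = 0 := by
    intro W; rw [map_mul, constantCoeff_q, zero_mul]
  have k1 := EE_first hA (cc_ent M) (cc_ent M') hne hz (cz Z') (cz Z)
  rw [D2] at k1
  have k2 := dvd_sub (hcg.mono hN2) k1
  rw [sub_sub_cancel] at k2
  set δ := ((ent M).sum - (ent M').sum) + (q * phi Z - q * phi Z') with hδ
  rw [ent_length] at k2
  -- divide by `q (1 - |M|)`
  have k3 : X ^ (m + 1) ∣ δ := by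
    have e1 : q * ((1 - (M.length : ℚ⟦X⟧)) * δ) = X ^ 1 * (δ * (s * (1 - (M.length : ℚ⟦X⟧)))) := by
      rw [q_eq_Xs]; ring
    have e2 : (X : ℚ⟦X⟧) ^ (m + 2) = X ^ (1 + (m + 1)) := by ring
    rw [e1, e2] at k2
    have k4 := dvd_of_dvd_Xpow_mul k2
    have hc : constantCoeff (s * (1 - (M.length : ℚ⟦X⟧))) ≠ 0 := by
      rw [map_mul, cc_s, map_sub, map_one, map_natCast]
      have : (2 : ℚ) ≤ M.length := by exact_mod_cast h2
      intro h0
      linarith
    have e3 : δ = δ * (s * (1 - (M.length : ℚ⟦X⟧))) * (s * (1 - (M.length : ℚ⟦X⟧)))⁻¹ := by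
      rw [mul_assoc, PowerSeries.mul_inv_cancel _ hc, mul_one]
    rw [e3]
    exact Dvd.dvd.mul_right k4 _
  have h7 : δ = (ent (Y :: r)).sum - (ent (Y' :: r')).sum := by
    have e1 : (ent (M ++ [Z])).sum = (ent M).sum + q * phi Z := by
      rw [ent_append, List.sum_append, ent_cons]; simp [ent]
    have e2 : (ent (M' ++ [Z'])).sum = (ent M').sum + q * phi Z' := by
      rw [ent_append, List.sum_append, ent_cons]; simp [ent]
    have e3 : δ = (ent (M ++ [Z])).sum - (ent (M' ++ [Z'])).sum := by
      rw [e1, e2, hδ]; ring
    rw [e3, hl, hl', ent_append, ent_append, List.sum_append, List.sum_append]; ring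
  have h6 : Cg (m + 1) (ent (Y' :: r')).sum 0 := by
    apply sum_ent_cg
    intro W hW
    have := hr' W hW; omega
  have h8 : Cg (m + 1) (ent (Y :: r)).sum 0 := by
    have e1 : Cg (m + 1) δ 0 := by rw [Cg, sub_zero]; exact k3
    rw [h7] at e1
    have := e1.add h6
    rw [add_zero, sub_add_cancel] at this
    exact this
  rw [Cg, sub_zero] at h8
  have h9 := PowerSeries.X_pow_dvd_iff.1 h8 m (Nat.lt_succ_self m)
  have e : ent (Y :: r) = phi (wrap Y) :: ent r := rfl
  rw [e, List.sum_cons, map_add] at h9
  have h10 : coeff m (phi (wrap Y)) = 1 := by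
    obtain ⟨U, u1, _, u3⟩ := phi_form Y
    rw [phi_wrap, u3, ← mul_assoc, ← pow_succ', hm, coeff_q_pow_mul_self u1]
  have h11 : 0 ≤ coeff m (ent r).sum := by
    apply coeff_sum_ent
    intro W hW
    have := hr W hW; omega
  rw [h10] at h9
  linarith

/-! ### Normal forms -/

theorem phi_iterate (m : ℕ) (A : Arch) : phi (wrap^[m] A) = q ^ m * phi A := by
  induction m with
  | zero => simp
  | succ m ih => rw [Function.iterate_succ_apply', phi_wrap, ih]; ring

theorem size_iterate (m : ℕ) (A : Arch) : (wrap^[m] A).size = m + A.size := by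
  induction m with
  | zero => simp
  | succ m ih => rw [Function.iterate_succ_apply', size_wrap, ih]; ring

theorem branch_wrap (A : Arch) : (wrap A).branch = A.branch := by
  simp [wrap, Arch.branch, Arch.len]

theorem branch_iterate (m : ℕ) (A : Arch) : (wrap^[m] A).branch = A.branch := by
  induction m with
  | zero => rfl
  | succ m ih => rw [Function.iterate_succ_apply', branch_wrap, ih]

theorem branch_nest (a : ℕ) : (nest a).branch = 0 := by
  induction a with
  | zero => rfl
  | succ a ih => rw [nest, branch_wrap, ih]

theorem branch_nests (σ : List ℕ) (c : ℕ) :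
    (atoms ((σ ++ [c]).map nest)).branch = σ.length.choose 2 := by
  rw [List.map_append, List.map_cons, List.map_nil, branch_atoms, branch_nest, List.length_map,
    List.map_map]
  have : (σ.map (Arch.branch ∘ nest)).sum = 0 := by
    apply List.sum_eq_zero
    intro x hx
    obtain ⟨a, _, rfl⟩ := List.mem_map.1 hx
    exact branch_nest a
  rw [this]; ring

theorem prod_ent_nest (σ : List ℕ) :
    (ent (σ.map nest)).prod = q ^ ((σ.map nest).map fun Y => Y.size + 1).sum := by
  induction σ with
  | nil => simp [ent]
  | cons a σ ih =>
    rw [List.map_cons, ent_cons, List.prod_cons, ih, phi_nest, List.map_cons, List.sum_cons,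
      size_nest]
    ring

theorem phi_nf (m : ℕ) (σ : List ℕ) (c : ℕ) :
    phi (wrap^[m] (atoms ((σ ++ [c]).map nest))) =
      q ^ (wrap^[m] (atoms ((σ ++ [c]).map nest))).size *
        EE (ent (σ.map nest)) (q * phi (nest c)) := by
  rw [phi_iterate, size_iterate, size_atoms, List.map_append, List.map_cons, List.map_nil,
    phi_atoms_EE, prod_ent_nest, phi_nest, List.map_append, List.sum_append]
  simp only [List.map_cons, List.map_nil, List.sum_cons, List.sum_nil, size_nest, add_zero]
  ring

/-- Two normal forms of the same size whose counts agree up to size `2 n - 2` are equal. -/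
theorem nf_inj {m m' : ℕ} {τ τ' : List ℕ} (hτ : τ.Pairwise (· ≤ ·)) (hτ' : τ'.Pairwise (· ≤ ·))
    (h3 : 3 ≤ τ.length) (h3' : 3 ≤ τ'.length) {n : ℕ}
    (hn : (wrap^[m] (atoms (τ.map nest))).size = n)
    (hn' : (wrap^[m'] (atoms (τ'.map nest))).size = n)
    (h : Cg (2 * n - 1) (phi (wrap^[m] (atoms (τ.map nest))))
      (phi (wrap^[m'] (atoms (τ'.map nest))))) : m = m' ∧ τ = τ' := by
  rcases List.eq_nil_or_concat τ with rfl | ⟨σ, c, rfl⟩
  · simp at h3
  rcases List.eq_nil_or_concat τ' with rfl | ⟨σ', c', rfl⟩
  · simp at h3'
  rw [List.concat_eq_append] at *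
  rw [List.concat_eq_append] at *
  have hl : 2 ≤ σ.length := by simpa using h3
  have hl' : 2 ≤ σ'.length := by simpa using h3'
  have hsize : ∀ (k : ℕ) (ρ : List ℕ), (wrap^[k] (atoms (ρ.map nest))).size =
      k + ((ρ.map nest).map fun Y => Y.size + 1).sum := by
    intro k ρ; rw [size_iterate, size_atoms]
  have hn3 : 3 ≤ n := by
    rw [← hn, hsize]
    have := sum_size_ge ((σ ++ [c]).map nest)
    rw [List.length_map] at this
    omega
  have hb : σ.length = σ'.length := by
    have h1 := branch_eq_of_cong (by rw [hn, hn']) (h.mono (by rw [hn]; omega))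
    rw [branch_iterate, branch_iterate, branch_nests, branch_nests] at h1
    exact choose_two_inj (by omega) (by omega) h1
  rw [phi_nf, phi_nf, hn, hn'] at h
  have h1 : Cg (n - 1) (EE (ent (σ.map nest)) (q * phi (nest c)))
      (EE (ent (σ'.map nest)) (q * phi (nest c'))) :=
    cong_of_q_pow (h.mono (by omega))
  have hmap : ∀ (ρ : List ℕ) (e : ℕ), (ρ ++ [e]).map nest = ρ.map nest ++ [nest e] := by
    intro ρ e; simp
  have hsum : ∀ (k : ℕ) (ρ : List ℕ) (e : ℕ), (wrap^[k] (atoms ((ρ ++ [e]).map nest))).size = n →
      ((ρ.map nest ++ [nest e]).map fun Y => Y.size + 1).sum ≤ n - 1 + 1 := by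
    intro k ρ e hk
    rw [hsize, hmap] at hk
    omega
  rcases separated_of_sorted (Y := nest) size_nest hτ hτ' (by simp [hb]) with h4 | h4 | h4
  · refine ⟨?_, h4⟩
    rw [hsize] at hn hn'
    rw [h4] at hn
    omega
  · exfalso
    rw [hmap, hmap] at h4
    exact EE_sep h4 (by simpa using hb) (by simpa using hl) (hsum m' σ' c' hn') h1
  · exfalso
    rw [hmap, hmap] at h4
    exact EE_sep h4 (by simpa using hb.symm) (by simpa using hl') (hsum m σ c hn) h1.symm

theorem size_eq_zero {A : Arch} (h : A.size = 0) : A = Arch.nil := by
  cases A with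
  | nil => rfl
  | cons X Y => simp at h

theorem branching_le_branch (A : Arch) : A.branching ≤ A.branch := by
  generalize hn : A.size = n
  induction n using Nat.strong_induction_on generalizing A with
  | _ n ih =>
    obtain ⟨L, rfl⟩ := exists_atoms A
    rcases List.eq_nil_or_concat L with rfl | ⟨M, Z, rfl⟩
    · exact le_rfl
    · rw [List.concat_eq_append] at *
      rw [branching_atoms, branch_atoms, List.map_append, List.sum_append]
      rw [size_atoms, List.map_append, List.sum_append] at hn
      simp only [List.map_cons, List.map_nil, List.sum_cons, List.sum_nil, add_zero] at hn ⊢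
      have hZ := ih Z.size (by omega) Z rfl
      have hM : (M.map branching).sum ≤ (M.map Arch.branch).sum := by
        apply List.sum_le_sum
        intro Y hY
        have := List.single_le_sum (l := M.map fun X => X.size + 1) (by simp)
          (Y.size + 1) (List.mem_map.2 ⟨Y, hY, rfl⟩)
        exact ih Y.size (by omega) Y rfl
      have hc : (if 3 ≤ (M ++ [Z]).length then 1 else 0) ≤ M.length.choose 2 := by
        split_ifs with h
        · rw [List.length_append, List.length_singleton] at h
          exact Nat.choose_pos (by omega)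
        · exact Nat.zero_le _
      omega

/-- The strong form of the converse for systems with at most one branching vertex. -/
theorem one_branching {A B : Arch} (hA : A.branching ≤ 1) (hB : B.branching ≤ 1)
    (hs : A.size = B.size) (h : ∀ m ≤ 2 * A.size - 2, avoiders A m = avoiders B m) :
    Cohort A B := by
  have hcg : Cg (2 * A.size - 1) (phi A) (phi B) := by
    rcases Nat.eq_zero_or_pos A.size with h0 | h0
    · have hB0 : B.size = 0 := by rw [← hs]; exact h0
      rw [size_eq_zero h0, size_eq_zero hB0]; exact Cg.refl _ _
    · exact agree_iff.1 fun m hm => h m (by omega)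
  have mixed : ∀ {A B : Arch}, A.branching = 0 → B.branching = 1 → A.size = B.size →
      Cg (2 * A.size - 1) (phi A) (phi B) → False := by
    intro A B hA hB hs hcg
    have h1 := cohort_of_branching_zero A hA
    obtain ⟨m, τ, t1, t2, t3⟩ := cohort_of_branching_one B hB
    have e1 := phi_of_cohort h1
    have e2 := phi_of_cohort t3
    have e3 := size_of_cohort t3
    rcases List.eq_nil_or_concat τ with rfl | ⟨σ, c, rfl⟩
    · simp at t2
    rw [List.concat_eq_append] at *
    have hl : 2 ≤ σ.length := by simpa using t2
    have hn3 : 3 ≤ A.size := by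
      rw [hs, e3, size_iterate, size_atoms]
      have := sum_size_ge ((σ ++ [c]).map nest)
      rw [List.length_map] at this
      omega
    have h2 := branch_eq_of_cong hs (hcg.mono (by omega))
    rw [branch_eq_of_phi e1, branch_eq_of_phi e2, branch_nest, branch_iterate,
      branch_nests] at h2
    have : 1 ≤ σ.length.choose 2 := Nat.choose_pos hl
    omega
  rcases Nat.eq_zero_or_pos A.branching with hA0 | hA0
  · rcases Nat.eq_zero_or_pos B.branching with hB0 | hB0
    · have h1 := cohort_of_branching_zero A hA0
      have h2 := cohort_of_branching_zero B hB0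
      rw [hs] at h1
      exact Cohort.trans h1 h2.symm
    · exact (mixed hA0 (by omega) hs hcg).elim
  · rcases Nat.eq_zero_or_pos B.branching with hB0 | hB0
    · exact (mixed hB0 (by omega) hs.symm (by rw [← hs]; exact hcg.symm)).elim
    · obtain ⟨m, τ, t1, t2, t3⟩ := cohort_of_branching_one A (by omega)
      obtain ⟨m', τ', t1', t2', t3'⟩ := cohort_of_branching_one B (by omega)
      have e1 := phi_of_cohort t3
      have e2 := phi_of_cohort t3'
      rw [e1, e2] at hcg
      obtain ⟨rfl, rfl⟩ := nf_inj t1 t1' t2 t2' (size_of_cohort t3).symm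
        ((size_of_cohort t3').symm.trans hs.symm) hcg
      exact Cohort.trans t3 t3'.symm

theorem branching_small {A : Arch} (h : A.size ≤ 2) : A.branching = 0 := by
  generalize hn : A.size = n
  induction n using Nat.strong_induction_on generalizing A with
  | _ n ih =>
    obtain ⟨L, rfl⟩ := exists_atoms A
    have hl := sum_size_ge L
    rw [size_atoms] at h hn
    rw [branching_atoms, if_neg (by omega), add_zero]
    apply List.sum_eq_zero
    intro x hx
    obtain ⟨Y, hY, rfl⟩ := List.mem_map.1 hx
    have := List.single_le_sum (l := L.map fun X => X.size + 1) (by simp)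
      (Y.size + 1) (List.mem_map.2 ⟨Y, hY, rfl⟩)
    exact ih Y.size (by omega) (by omega) rfl

/-- The strong form of the converse for systems of branching weight at most one, against all
systems. -/
theorem branch_le_one {A B : Arch} (hA : A.branch ≤ 1)
    (hs : A.size = B.size) (h : ∀ m ≤ 2 * A.size - 2, avoiders A m = avoiders B m) :
    Cohort A B := by
  have hA1 := (branching_le_branch A).trans hA
  rcases Nat.lt_or_ge A.size 3 with hn | hn
  · exact one_branching hA1 (by rw [branching_small (by omega)]; omega) hs h
  · have hcg : Cg (A.size + 2) (phi A) (phi B) := agree_iff.1 fun m hm => h m (by omega)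
    have hb := branch_eq_of_cong hs hcg
    exact one_branching hA1 ((branching_le_branch B).trans (by omega)) hs h

end ArchG
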