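import Pool.Agent.Lib.ArchG.Strong

namespace ArchG

open Arch PowerSeries Finset

/-! ### Replacing the inside of one arch -/

/-- The factor of `phi` besides the entries. -/
noncomputable def EE (A : List ℚ⟦X⟧) (z : ℚ⟦X⟧) : ℚ⟦X⟧ :=
  ee A z * (1 - q * (z * (1 - A.prod * ee A z)))⁻¹

theorem phi_atoms_EE (L : List Arch) (Z : Arch) : phi (atoms (L ++ [Z])) =
    (ent L).prod * (q * phi Z) * EE (ent L) (q * phi Z) := by
  rw [phi_atoms', rr, EE]
  have h2 := mul_inv' (cc_ee (ent L) 0)
  set e0 := (ee (ent L) 0)⁻¹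
  set E := ee (ent L) (q * phi Z)
  set v := (1 - q * (q * phi Z * (1 - (ent L).prod * E)))⁻¹
  linear_combination ((ent L).prod * (q * phi Z) * E * v) * h2

theorem cc_EE (A : List ℚ⟦X⟧) (z : ℚ⟦X⟧) : constantCoeff (EE A z) = 1 := by
  rw [EE, map_mul, cc_ee, cc_inv (cc_one_sub _), one_mul]

theorem Cl.prod {m : ℕ} {A A' : List ℚ⟦X⟧} (h : Cl m A A') : Cg m A.prod A'.prod := by
  induction h with
  | nil => exact Cg.refl _ _
  | cons h1 _ ih => rw [List.prod_cons, List.prod_cons]; exact h1.mul ih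

theorem EE_cong {m : ℕ} {A A' : List ℚ⟦X⟧} (h : Cl m A A') {z z' : ℚ⟦X⟧} (hz : Cg m z z') :
    Cg (m + 1) (EE A z) (EE A' z') := by
  have h1 := ee_cong h hz
  refine h1.mul (Cg.inv (cc_one_sub _) (cc_one_sub _) ((Cg.refl _ _).sub (Cg.qmul ?_)))
  exact hz.mul ((Cg.refl _ _).sub (h.prod.mul (h1.mono (Nat.le_succ m))))

/-- A difference that always gains one order is a multiple. -/
theorem exists_quot {x y E E' : ℚ⟦X⟧} (h : ∀ m, Cg m x y → Cg (m + 1) E E') :
    ∃ R, E - E' = (x - y) * (X * R) := by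
  by_cases hxy : x - y = 0
  · refine ⟨0, ?_⟩
    rw [mul_zero, mul_zero]
    ext n
    have h1 : Cg (n + 1 + 1) E E' := h (n + 1) (by rw [Cg, hxy]; exact dvd_zero _)
    rw [map_zero]
    exact PowerSeries.X_pow_dvd_iff.1 h1 n (by omega)
  · have h1 := PowerSeries.X_pow_order_mul_divXPowOrder (f := x - y)
    set m := (x - y).order.toNat
    set u := PowerSeries.divXPowOrder (x - y) with hu
    have hcu : constantCoeff u ≠ 0 := by
      rw [hu, Ne, PowerSeries.constantCoeff_divXPowOrder_eq_zero_iff]; exact hxy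
    have h2 : Cg m x y := by rw [Cg, ← h1]; exact Dvd.intro _ rfl
    obtain ⟨T, hT⟩ := h m h2
    refine ⟨T * u⁻¹, ?_⟩
    have h3 : u * u⁻¹ = 1 := PowerSeries.mul_inv_cancel _ hcu
    rw [hT]
    conv_rhs => rw [← h1]
    linear_combination (-(X ^ (m + 1) * T)) * h3

theorem ent_append (L M : List Arch) : ent (L ++ M) = ent L ++ ent M := by simp [ent]
theorem ent_cons (Y : Arch) (M : List Arch) : ent (Y :: M) = q * phi Y :: ent M := by
  simp [ent, phi_wrap]

/-- Replacing the inside of one atom. -/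
theorem factor_one (P Q : List Arch) (Y Y' : Arch) : ∃ W : ℚ⟦X⟧, constantCoeff W = 1 ∧
    phi (atoms (P ++ Y :: Q)) - phi (atoms (P ++ Y' :: Q)) =
      q ^ ((P.map fun Z => Z.size + 1).sum + (Q.map fun Z => Z.size + 1).sum + 1) *
        (phi Y - phi Y') * W := by
  obtain ⟨UP, p1, _, p3⟩ := prod_ent P
  set x := q * phi Y with hx
  set y := q * phi Y' with hy
  rcases List.eq_nil_or_concat Q with rfl | ⟨Q', Z, rfl⟩
  · obtain ⟨R, hR⟩ := exists_quot (x := x) (y := y) (E := EE (ent P) x) (E' := EE (ent P) y)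
      (fun m hm => EE_cong (Cl_refl m _) hm)
    refine ⟨UP * (EE (ent P) x + y * (X * R)), ?_, ?_⟩
    · rw [map_mul, p1, map_add, cc_EE, hy, map_mul, map_mul, constantCoeff_q]; ring
    · rw [phi_atoms_EE, phi_atoms_EE, ← hx, ← hy, p3]
      simp only [List.map_nil, List.sum_nil]
      have e : EE (ent P) x = EE (ent P) y + (x - y) * (X * R) := by linear_combination hR
      have e2 : x - y = q * (phi Y - phi Y') := by rw [hx, hy]; ring
      have e3 : x * EE (ent P) x - y * EE (ent P) y =
          (x - y) * (EE (ent P) x + y * (X * R)) := by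
        linear_combination y * hR
      have e4 : q ^ (List.map (fun Z => Z.size + 1) P).sum * UP * x * EE (ent P) x -
          q ^ (List.map (fun Z => Z.size + 1) P).sum * UP * y * EE (ent P) y =
          q ^ (List.map (fun Z => Z.size + 1) P).sum * UP *
            (x * EE (ent P) x - y * EE (ent P) y) := by ring
      rw [e4, e3, e2]
      ring
  · obtain ⟨UQ, q1, _, q3⟩ := prod_ent Q'
    obtain ⟨UZ, z1, _, z3⟩ := phi_form Z
    rw [List.concat_eq_append]
    set z := q * phi Z with hz
    obtain ⟨R, hR⟩ := exists_quot (x := x) (y := y) (E := EE (ent P ++ x :: ent Q') z)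
      (E' := EE (ent P ++ y :: ent Q') z)
      (fun m hm => EE_cong (Cl_append _ (List.Forall₂.cons hm (Cl_refl m _))) (Cg.refl _ _))
    have a1 : ∀ W : Arch, P ++ W :: (Q' ++ [Z]) = (P ++ W :: Q') ++ [Z] := by
      intro W; simp
    rw [a1 Y, a1 Y', phi_atoms_EE, phi_atoms_EE, ent_append, ent_append, ent_cons, ent_cons,
      ← hx, ← hy, ← hz, List.prod_append, List.prod_append, List.prod_cons, List.prod_cons, p3, q3]
    set E := EE (ent P ++ x :: ent Q') z with hE
    set E' := EE (ent P ++ y :: ent Q') z with hE'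
    refine ⟨UP * UQ * UZ * (E + y * (X * R)), ?_, ?_⟩
    · rw [map_mul, map_mul, map_mul, p1, q1, z1, map_add, hE, cc_EE, hy, map_mul, map_mul,
        constantCoeff_q]; ring
    · have e2 : x - y = q * (phi Y - phi Y') := by rw [hx, hy]; ring
      have e3 : x * E - y * E' = (x - y) * (E + y * (X * R)) := by
        linear_combination y * hR
      simp only [List.map_append, List.sum_append, List.map_cons, List.map_nil, List.sum_cons,
        List.sum_nil, add_zero]
      set sP := (List.map (fun Z => Z.size + 1) P).sum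
      set sQ := (List.map (fun Z => Z.size + 1) Q').sum
      have e4 : q ^ sP * UP * (x * (q ^ sQ * UQ)) * z * E -
          q ^ sP * UP * (y * (q ^ sQ * UQ)) * z * E' =
          q ^ sP * UP * (q ^ sQ * UQ) * z * (x * E - y * E') := by ring
      rw [e4, e3, e2, hz, z3]
      ring

theorem factor_replace {Y Y' : Arch} {s : ℕ} {A B : Arch} (h : Replace Y Y' s A B) :
    ∃ W : ℚ⟦X⟧, constantCoeff W = 1 ∧ phi A - phi B = q ^ s * (phi Y - phi Y') * W := by
  induction h with
  | whole => exact ⟨1, map_one _, by ring⟩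
  | @inside s A B P Q _ ih =>
    obtain ⟨W, w1, w2⟩ := ih
    obtain ⟨LP, rfl⟩ := exists_atoms P
    obtain ⟨LQ, rfl⟩ := exists_atoms Q
    obtain ⟨V, v1, v2⟩ := factor_one LP LQ A B
    refine ⟨W * V, by rw [map_mul, w1, v1, one_mul], ?_⟩
    have e : ∀ Z : Arch, (atoms LP).append (Arch.cons Z (atoms LQ)) = atoms (LP ++ Z :: LQ) := by
      intro Z; rw [atoms_append, atoms_cons]
    rw [e, e, v2, w2, size_atoms, size_atoms]
    ring

theorem cong_of_phi {A B : Arch} {N : ℕ} (h : Cg N (phi A) (phi B)) : Cg N (F A) (F B) := by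
  have e : ∀ A : Arch, F A = Cat * (1 - phi A) * (1 - q * phi A)⁻¹ := by
    intro A
    have h1 := phi_rel A
    have h2 := mul_inv' (cc_one_sub (phi A))
    linear_combination (1 - q * phi A)⁻¹ * h1 - F A * h2
  rw [e A, e B]
  exact ((Cg.refl _ _).mul ((Cg.refl _ _).sub h)).mul (Cg.inv (cc_one_sub _) (cc_one_sub _)
    ((Cg.refl _ _).sub ((Cg.refl _ _).mul h)))

theorem agree_iff {A B : Arch} {N : ℕ} :
    (∀ m < N, avoiders A m = avoiders B m) ↔ Cg N (phi A) (phi B) := by
  constructor
  · intro h; exact phi_cong (F_cong h)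
  · intro h m hm
    have h1 := PowerSeries.X_pow_dvd_iff.1 (cong_of_phi h) m hm
    rw [map_sub, F, F, coeff_gf, coeff_gf, ← avoiders_eq, ← avoiders_eq, sub_eq_zero] at h1
    exact_mod_cast h1

/-- Replacing an inside shifts the first disagreement by exactly the number of arches outside. -/
theorem agree_replace {Y Y' : Arch} {s : ℕ} {A B : Arch} (h : Replace Y Y' s A B) (d : ℕ) :
    (∀ m < d + s, avoiders A m = avoiders B m) ↔ ∀ m < d, avoiders Y m = avoiders Y' m := by
  obtain ⟨W, w1, w2⟩ := factor_replace h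
  rw [agree_iff, agree_iff, Cg, Cg, w2]
  constructor
  · intro h1
    have h2 := dvd_of_dvd_mul w1 h1
    have h3 : Cg (s + d) (q ^ s * phi Y) (q ^ s * phi Y') := by
      rw [Cg, ← mul_sub, add_comm]; exact h2
    exact cong_of_q_pow h3
  · intro h1
    apply Dvd.dvd.mul_right
    rw [add_comm, pow_add]
    exact mul_dvd_mul (X_pow_dvd_q_pow le_rfl) h1

theorem wilf_replace {Y Y' : Arch} {s : ℕ} {A B : Arch} (h : Replace Y Y' s A B) :
    WilfEquiv A B ↔ WilfEquiv Y Y' := by
  constructor
  · intro hw m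
    exact (agree_replace h (m + 1)).1 (fun k _ => hw k) m (Nat.lt_succ_self m)
  · intro hw m
    exact (agree_replace h (m + 1)).2 (fun k _ => hw k) m (by omega)

end ArchG
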