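import Pool.Agent.Lib.ArchG.Cong

namespace ArchG

open Arch PowerSeries Finset

/-- `q = X * s` with `s` of constant term one. -/
noncomputable def s : ℚ⟦X⟧ := Cat * Cat

theorem q_eq_Xs : q = X * s := by rw [s, q_eq]

theorem cc_s : constantCoeff s = 1 := by simp [s, constantCoeff_Cat]

theorem q_ne_zero : q ≠ 0 := by
  rw [q_eq_Xs]
  exact mul_ne_zero X_ne_zero (ne_zero_of_cc cc_s)

theorem X_pow_dvd_q_pow {m k : ℕ} (h : m ≤ k) : (X : ℚ⟦X⟧) ^ m ∣ q ^ k := by
  rw [q_eq_Xs, mul_pow]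
  exact Dvd.dvd.mul_right (pow_dvd_pow _ h) _

theorem coeff_q_pow_mul_self {a : ℕ} {u : ℚ⟦X⟧} (hu : constantCoeff u = 1) :
    coeff a (q ^ a * u) = 1 := by
  rw [q_eq_Xs, mul_pow, mul_assoc, PowerSeries.coeff_X_pow_mul', if_pos le_rfl, Nat.sub_self,
    PowerSeries.coeff_zero_eq_constantCoeff_apply, map_mul, map_pow, cc_s, one_pow, hu, one_mul]

theorem coeff_q_pow_mul_of_lt {a b : ℕ} (h : a < b) (u : ℚ⟦X⟧) : coeff a (q ^ b * u) = 0 := by
  rw [q_eq_Xs, mul_pow, mul_assoc, PowerSeries.coeff_X_pow_mul', if_neg (by omega)]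

/-- If a product with a series of constant term one is divisible by `X ^ m`, so is the other
factor. -/
theorem dvd_of_dvd_mul {m : ℕ} {x u : ℚ⟦X⟧} (hu : constantCoeff u = 1) (h : X ^ m ∣ x * u) :
    X ^ m ∣ x := by
  have : x = x * u * u⁻¹ := by rw [mul_assoc, mul_inv' hu, mul_one]
  rw [this]
  exact Dvd.dvd.mul_right h _

theorem dvd_of_dvd_Xpow_mul {n m : ℕ} {x : ℚ⟦X⟧} (h : X ^ (n + m) ∣ X ^ n * x) :
    X ^ m ∣ x := by
  rw [pow_add] at h
  exact (mul_dvd_mul_iff_left (pow_ne_zero _ X_ne_zero)).1 h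

theorem coeff_one_mul' (x y : ℚ⟦X⟧) :
    coeff 1 (x * y) = coeff 0 x * coeff 1 y + coeff 1 x * coeff 0 y := by
  rw [PowerSeries.coeff_mul, show (1 : ℕ) = 0 + 1 from rfl, Finset.Nat.antidiagonal_succ]
  simp

theorem coeff_one_q_mul (x : ℚ⟦X⟧) : coeff 1 (q * x) = constantCoeff x := by
  rw [coeff_one_mul', PowerSeries.coeff_zero_eq_constantCoeff_apply, constantCoeff_q,
    PowerSeries.coeff_zero_eq_constantCoeff_apply, ← pow_one q, ← mul_one (q ^ 1),
    coeff_q_pow_mul_self (map_one _)]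
  ring

/-! ### The factor of a join -/

/-- The correction in the factor of a join. -/
noncomputable def rr (A : List ℚ⟦X⟧) (z : ℚ⟦X⟧) : ℚ⟦X⟧ :=
  ee A z * (ee A 0)⁻¹ * (1 - q * (z * (1 - A.prod * ee A z)))⁻¹

/-- `rr = 1 + q z BB`. -/
noncomputable def BB (A : List ℚ⟦X⟧) (z : ℚ⟦X⟧) : ℚ⟦X⟧ :=
  ((1 - A.prod * ee A z) - gg A z * (ee A 0)⁻¹) * (1 - q * (z * (1 - A.prod * ee A z)))⁻¹

theorem rr_eq (A : List ℚ⟦X⟧) (z : ℚ⟦X⟧) : rr A z = 1 + q * z * BB A z := by
  rw [rr, BB]
  have h1 := mul_inv' (cc_one_sub (z * (1 - A.prod * ee A z)))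
  have h2 := mul_inv' (cc_ee A 0)
  have h3 := ee_eq A z
  set v := (1 - q * (z * (1 - A.prod * ee A z)))⁻¹
  set P := A.prod
  set e0 := (ee A 0)⁻¹
  set E := ee A z
  linear_combination h1 + v * h2 + (e0 * v) * h3

theorem cc_rr (A : List ℚ⟦X⟧) (z : ℚ⟦X⟧) : constantCoeff (rr A z) = 1 := by
  rw [rr_eq]; simp [constantCoeff_q]

theorem cc_prod {A : List ℚ⟦X⟧} (hA : ∀ a ∈ A, constantCoeff a = 0) (hne : A ≠ []) :
    constantCoeff A.prod = 0 := by
  cases A with
  | nil => exact absurd rfl hne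
  | cons a A => rw [List.prod_cons, map_mul, hA a List.mem_cons_self, zero_mul]

theorem cc_BB {A : List ℚ⟦X⟧} (hA : ∀ a ∈ A, constantCoeff a = 0) (hne : A ≠ []) (z : ℚ⟦X⟧) :
    constantCoeff (BB A z) = 1 - (A.length : ℚ) := by
  rw [BB, map_mul, cc_inv (cc_one_sub _), map_sub, map_sub, map_mul, map_mul, cc_gg hA,
    cc_inv (cc_ee _ _), cc_prod hA hne, map_one]
  ring

/-- The main comparison of two corrections. -/
theorem BB_cong {m : ℕ} {A A' : List ℚ⟦X⟧} (h : Cl m A A')
    (hA : ∀ a ∈ A, constantCoeff a = 0) (hA' : ∀ a ∈ A', constantCoeff a = 0)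
    (hP : Cg (m + 1) A.prod 0) (hP' : Cg (m + 1) A'.prod 0) (z : ℚ⟦X⟧) :
    Cg (m + 1) (BB A z - BB A' z) (A.sum - A'.sum) := by
  have hg := gg_cong h hA hA' z
  have he : Cg (m + 1) (ee A 0) (ee A' 0) := ee_cong h (Cg.refl _ _)
  have hE : Cg (m + 1) (A.prod * ee A z) 0 := by
    have := hP.mul (Cg.refl (m + 1) (ee A z))
    rwa [zero_mul] at this
  have hE' : Cg (m + 1) (A'.prod * ee A' z) 0 := by
    have := hP'.mul (Cg.refl (m + 1) (ee A' z))
    rwa [zero_mul] at this
  have hei : Cg (m + 1) (ee A 0)⁻¹ (ee A' 0)⁻¹ := Cg.inv (cc_ee _ _) (cc_ee _ _) he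
  have cei := cc_inv (cc_ee A 0)
  have hs := h.sum
  rw [BB, BB]
  set e0 := (ee A 0)⁻¹
  set e0' := (ee A' 0)⁻¹
  set Q := A.prod * ee A z
  set Q' := A'.prod * ee A' z
  have hv : Cg (m + 1) (1 - q * (z * (1 - Q)))⁻¹ (1 - q * (z * (1 - 0)))⁻¹ := by
    refine Cg.inv (cc_one_sub _) (cc_one_sub _) ((Cg.refl _ _).sub ((Cg.refl _ _).mul
      ((Cg.refl _ _).mul ((Cg.refl _ _).sub hE))))
  have hv' : Cg (m + 1) (1 - q * (z * (1 - Q')))⁻¹ (1 - q * (z * (1 - 0)))⁻¹ := by
    refine Cg.inv (cc_one_sub _) (cc_one_sub _) ((Cg.refl _ _).sub ((Cg.refl _ _).mul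
      ((Cg.refl _ _).mul ((Cg.refl _ _).sub hE'))))
  have cv := cc_inv (cc_one_sub (z * (1 - 0)))
  set v0 := (1 - q * (z * (1 - 0)))⁻¹
  have h1 : Cg (m + 1) (((1 - Q) - gg A z * e0) * (1 - q * (z * (1 - Q)))⁻¹)
      ((1 - gg A z * e0) * v0) := by
    refine Cg.mul ?_ hv
    have := ((Cg.refl (m + 1) (1 : ℚ⟦X⟧)).sub hE).sub (Cg.refl (m + 1) (gg A z * e0))
    rwa [sub_zero] at this
  have h2 : Cg (m + 1) (((1 - Q') - gg A' z * e0') * (1 - q * (z * (1 - Q')))⁻¹)
      ((1 - gg A' z * e0') * v0) := by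
    refine Cg.mul ?_ hv'
    have := ((Cg.refl (m + 1) (1 : ℚ⟦X⟧)).sub hE').sub (Cg.refl (m + 1) (gg A' z * e0'))
    rwa [sub_zero] at this
  refine (h1.sub h2).trans ?_
  -- the difference of the `g`
  have hgw : Cg m (gg A z) (gg A' z) := by
    have := (hg.mono (Nat.le_succ m)).sub hs
    simpa using this
  have h3 : Cg (m + 1) (gg A z * e0 - gg A' z * e0') (A'.sum - A.sum) := by
    have y1 : Cg (m + 1) (gg A' z * e0) (gg A' z * e0') := (Cg.refl _ _).mul hei
    have y2 : Cg (m + 1) (gg A z * (e0 - 1)) (gg A' z * (e0 - 1)) := by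
      apply hgw.mul_of_cc
      rw [map_sub, cei]; simp
    have y3 := (y2.add hg).add y1
    rw [Cg] at y3 ⊢
    convert y3 using 1; ring
  have h4 : Cg (m + 1) ((A.sum) * (v0 - 1)) ((A'.sum) * (v0 - 1)) := by
    apply hs.mul_of_cc
    rw [map_sub, cv]; simp
  have h5 := (((Cg.refl (m + 1) (0 : ℚ⟦X⟧)).sub h3).mul (Cg.refl (m + 1) v0)).add h4
  rw [Cg] at h5 ⊢
  convert h5 using 1; ring

/-! ### The form of `phi` -/

theorem phi_atoms' (L : List Arch) (Z : Arch) : phi (atoms (L ++ [Z])) =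
    (ent L).prod * (q * phi Z) * (ee (ent L) 0 * rr (ent L) (q * phi Z)) := by
  have h := phi_atoms L Z
  rw [phi_wrap] at h
  have h1 := mul_inv' (cc_one_sub (q * phi Z * (1 - (ent L).prod * ee (ent L) (q * phi Z))))
  have h2 := mul_inv' (cc_ee (ent L) 0)
  rw [rr]
  set v := (1 - q * (q * phi Z * (1 - (ent L).prod * ee (ent L) (q * phi Z))))⁻¹
  set e0 := (ee (ent L) 0)⁻¹
  set E := ee (ent L) (q * phi Z)
  set f := phi (atoms (L ++ [Z]))
  linear_combination (-f) * h1 + v * h - ((ent L).prod * (q * phi Z) * E * v) * h2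

/-- The branching of an arch system: the sum of `(k_v - 1) (k_v - 2) / 2` over all arches `v`
and over the system itself, where `k_v` is the number of atoms inside `v`, respectively of the
system. -/
def _root_.ArchG.Arch.branch : Arch → ℕ
  | Arch.nil => 0
  | Arch.cons X Y => X.branch + Y.branch + (Y.len - 1)

theorem exists_atoms (A : Arch) : ∃ L, A = atoms L := by
  induction A with
  | nil => exact ⟨[], rfl⟩
  | cons X Y _ ih =>
    obtain ⟨L, hL⟩ := ih
    exact ⟨X :: L, by rw [atoms_cons, ← hL]⟩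

theorem len_atoms (L : List Arch) : (atoms L).len = L.length := by
  induction L with
  | nil => rfl
  | cons X L ih => rw [atoms_cons, Arch.len, ih, List.length_cons]

theorem branch_atoms (L : List Arch) (Z : Arch) : (atoms (L ++ [Z])).branch =
    (L.map Arch.branch).sum + Z.branch + L.length.choose 2 := by
  induction L with
  | nil => simp [Arch.branch, Arch.len]
  | cons X L ih =>
    rw [List.cons_append, atoms_cons, Arch.branch, ih, len_atoms]
    simp only [List.length_append, List.length_cons, List.length_nil, List.map_cons, List.sum_cons]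
    have := Nat.choose_succ_succ L.length 1
    simp at this
    rw [this]
    omega

theorem cc_ent (L : List Arch) : ∀ a ∈ ent L, constantCoeff a = 0 := by
  intro a ha
  rw [ent, List.mem_map] at ha
  obtain ⟨Y, _, rfl⟩ := ha
  rw [phi_wrap, map_mul, constantCoeff_q, zero_mul]

theorem coeff_one_ee {A : List ℚ⟦X⟧} (hA : ∀ a ∈ A, constantCoeff a = 0) :
    coeff 1 (ee A 0) = (A.length.choose 2 : ℚ) := by
  induction A with
  | nil => rw [ee_nil]; simp [PowerSeries.coeff_one]
  | cons a A ih =>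
    have ha : constantCoeff a = 0 := hA a List.mem_cons_self
    have hA' : ∀ b ∈ A, constantCoeff b = 0 := fun b hb => hA b (List.mem_cons_of_mem _ hb)
    rw [ee_zero_cons, map_add, ih hA', mul_assoc, coeff_one_q_mul, map_mul, map_sub, ha, map_sum,
      map_one]
    have h : ∀ j ∈ range A.length, constantCoeff (ee (a :: A.take j) (A.getD j 0) *
        (1 - q * A.getD j 0)⁻¹ * (ee (A.drop (j + 1)) 0 - A.getD j 0 * ee (A.drop j) 0)) = 1 := by
      intro j hj
      have hj' := mem_range.1 hj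
      have h0 : constantCoeff (A.getD j 0) = 0 := by
        rw [List.getD_eq_getElem _ _ hj']
        exact hA' _ (List.getElem_mem hj')
      rw [map_mul, map_mul, cc_ee, cc_inv (cc_one_sub _), map_sub, cc_ee, map_mul, h0]
      ring
    rw [sum_congr rfl h]
    have := Nat.choose_succ_succ A.length 1
    simp at this
    rw [List.length_cons, this]
    simp
    ring

theorem coeff_one_rr (A : List ℚ⟦X⟧) {z : ℚ⟦X⟧} (hz : constantCoeff z = 0) :
    coeff 1 (rr A z) = 0 := by
  rw [rr_eq, map_add, mul_assoc, coeff_one_q_mul, map_mul, hz, PowerSeries.coeff_one]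
  simp

/-- `phi A = q ^ |A| * U` with `U` of constant term one and coefficient `branch A`. -/
theorem phi_form (A : Arch) : ∃ U : ℚ⟦X⟧, constantCoeff U = 1 ∧ coeff 1 U = (A.branch : ℚ) ∧
    phi A = q ^ A.size * U := by
  generalize hn : A.size = n
  induction n using Nat.strong_induction_on generalizing A with
  | _ n ih =>
    obtain ⟨L, hL⟩ := exists_atoms A
    rcases List.eq_nil_or_concat L with rfl | ⟨L', Z, rfl⟩
    · rw [atoms_nil] at hL
      subst hL
      rw [size_nil] at hn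
      refine ⟨1, map_one _, ?_, ?_⟩
      · simp [PowerSeries.coeff_one, Arch.branch]
      · rw [phi_nil, ← hn]; simp
    · rw [List.concat_eq_append] at hL
      subst hL
      rw [phi_atoms']
      rw [size_atoms, List.map_append, List.sum_append] at hn
      simp only [List.map_cons, List.map_nil, List.sum_cons, List.sum_nil, add_zero] at hn
      obtain ⟨UZ, z1, z2, z3⟩ := ih Z.size (by omega) Z rfl
      have key : ∀ M : List Arch, (∀ Y ∈ M, Y.size < n) → ∃ U : ℚ⟦X⟧, constantCoeff U = 1 ∧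
          coeff 1 U = ((M.map Arch.branch).sum : ℚ) ∧
          (ent M).prod = q ^ (M.map fun Y => Y.size + 1).sum * U := by
        intro M hM
        induction M with
        | nil => exact ⟨1, map_one _, by simp [PowerSeries.coeff_one], by simp [ent]⟩
        | cons Y M ihM =>
          obtain ⟨U1, a1, a2, a3⟩ := ihM (fun W hW => hM W (List.mem_cons_of_mem _ hW))
          obtain ⟨U2, b1, b2, b3⟩ := ih Y.size (hM Y List.mem_cons_self) Y rfl
          refine ⟨U2 * U1, by rw [map_mul, a1, b1, one_mul], ?_, ?_⟩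
          · rw [coeff_one_mul', a2, b2, PowerSeries.coeff_zero_eq_constantCoeff_apply,
              PowerSeries.coeff_zero_eq_constantCoeff_apply, a1, b1]
            simp; ring
          · have : ent (Y :: M) = phi (wrap Y) :: ent M := rfl
            rw [this, List.prod_cons, a3, phi_wrap, b3, List.map_cons, List.sum_cons]
            ring
      obtain ⟨UL, l1, l2, l3⟩ := key L' (by
        intro Y hY
        have := List.single_le_sum (l := L'.map fun X => X.size + 1) (by simp)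
          (Y.size + 1) (List.mem_map.2 ⟨Y, hY, rfl⟩)
        omega)
      refine ⟨UL * UZ * (ee (ent L') 0 * rr (ent L') (q * phi Z)), ?_, ?_, ?_⟩
      · rw [map_mul, map_mul, map_mul, l1, z1, cc_ee, cc_rr]; ring
      · have hz : constantCoeff (q * phi Z) = 0 := by rw [map_mul, constantCoeff_q, zero_mul]
        rw [coeff_one_mul', coeff_one_mul', coeff_one_mul', l2, z2, coeff_one_ee (cc_ent L'),
          coeff_one_rr _ hz, branch_atoms]
        simp only [PowerSeries.coeff_zero_eq_constantCoeff_apply, map_mul, l1, z1, cc_ee, cc_rr]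
        simp [ent]
        ring
      · rw [l3, z3, ← hn]
        ring

end ArchG
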