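import Pool.Agent.Lib.ArchG.Inject

namespace ArchG

open Arch PowerSeries Finset

/-! ### Agreement of finitely many counts -/

theorem F_cong {A B : Arch} {N : ℕ} (h : ∀ m < N, avoiders A m = avoiders B m) :
    Cg N (F A) (F B) := by
  rw [Cg, PowerSeries.X_pow_dvd_iff]
  intro m hm
  rw [map_sub, F, F, coeff_gf, coeff_gf, ← avoiders_eq, ← avoiders_eq, h m hm, sub_self]

theorem phi_cong {A B : Arch} {N : ℕ} (h : Cg N (F A) (F B)) : Cg N (phi A) (phi B) := by
  rw [phi, phi]
  exact ((Cg.refl _ _).sub h).mul (Cg.inv (cc_den A) (cc_den B)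
    ((Cg.refl _ _).sub ((Cg.refl _ _).mul h)))

theorem cong_of_q_pow {n N : ℕ} {U V : ℚ⟦X⟧} (h : Cg (n + N) (q ^ n * U) (q ^ n * V)) :
    Cg N U V := by
  rw [Cg, ← mul_sub, q_eq_Xs, mul_pow, mul_assoc] at h
  have h1 := dvd_of_dvd_Xpow_mul h
  rw [mul_comm] at h1
  exact dvd_of_dvd_mul (by rw [map_pow, cc_s, one_pow]) h1

theorem branch_eq_of_cong {A B : Arch} (hs : A.size = B.size)
    (h : Cg (A.size + 2) (phi A) (phi B)) : A.branch = B.branch := by
  obtain ⟨U, _, u2, u3⟩ := phi_form A
  obtain ⟨V, _, v2, v3⟩ := phi_form B
  rw [u3, v3, ← hs] at h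
  have h1 := cong_of_q_pow h
  have h2 := PowerSeries.X_pow_dvd_iff.1 h1 1 (by norm_num)
  rw [map_sub, u2, v2, sub_eq_zero] at h2
  exact_mod_cast h2

theorem le_weight_of_mem {t : Step} {v : List Step} (h : t ∈ v) : t.weight ≤ weight v := by
  induction v with
  | nil => simp at h
  | cons a v ih =>
    rw [weight_cons]
    rcases List.mem_cons.1 h with rfl | h
    · omega
    · have := ih h; omega

theorem weight_join_ge {l : List Arch} (h : 2 ≤ l.length) : 3 ≤ (Step.join l).weight := by
  have := sum_size_ge l
  simp only [Step.weight]; omega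

theorem weight_ge_of_ne {S : Set Step} (hS : Good S) {t : Step} (ht : t ∈ S)
    (hne : t ≠ Step.wrap) : 3 ≤ t.weight := by
  cases t with
  | wrap => exact absurd rfl hne
  | join l => exact weight_join_ge (hS.1 l ht)

/-- Words of the same content whose products of corrections agree to a certain order are
equal. -/
theorem eq_of_VV_cong {S : Set Step} (hS : Good S) {w w' : List Step} (hw : ∀ t ∈ w, t ∈ S)
    (hw' : ∀ t ∈ w', t ∈ S) (hwt : weight w = weight w')
    (hc : ∀ t, t ≠ Step.wrap → w.count t = w'.count t)
    (h : Cg (weight w - 1) (VV w) (VV w')) : w = w' := by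
  rcases suffix_split w w' with h1 | ⟨t, ht, h1 | h1⟩ | ⟨u, a, b, v, v', hne, h1, h2⟩
  · exact h1
  · rw [h1, weight_append] at hwt; have := weight_pos ht; omega
  · rw [h1, weight_append] at hwt; have := weight_pos ht; omega
  · exfalso
    have ha : a ∈ S := hw a (by rw [h1]; simp)
    have hb : b ∈ S := hw' b (by rw [h2]; simp)
    have k1 := VV_append v (a :: u)
    have k2 := VV_append v' (b :: u)
    rw [← h1, weight_cons, VV] at k1
    rw [← h2, weight_cons, VV] at k2
    obtain ⟨k, d1, d2, d3, d4⟩ := bb_ne' hS ha hb hne (q * phi (chain u))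
    have hww : weight w = weight v + a.weight + weight u := by
      rw [h1, weight_append, weight_cons]; ring
    have hww' : weight w' = weight v' + b.weight + weight u := by
      rw [h2, weight_append, weight_cons]; ring
    have hbv : b ≠ Step.wrap → b ∈ v := by
      intro hb0
      have := hc b hb0
      rw [h1, h2, List.count_append, List.count_append, List.count_cons_of_ne (by simpa using hne),
        List.count_cons_self] at this
      by_contra hcon
      rw [List.count_eq_zero.2 hcon] at this
      omega
    have hav : a ≠ Step.wrap → a ∈ v' := by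
      intro ha0
      have := hc a ha0
      rw [h1, h2, List.count_append, List.count_append, List.count_cons_self,
        List.count_cons_of_ne (by simpa using hne.symm)] at this
      by_contra hcon
      rw [List.count_eq_zero.2 hcon] at this
      omega
    have hlt : weight u + 2 + k ≤ weight w - 1 := by
      by_cases ha0 : a = Step.wrap
      · have hb0 : b ≠ Step.wrap := by rw [← ha0]; exact hne.symm
        have e1 := le_weight_of_mem (hbv hb0)
        have e2 := weight_ge_of_ne hS hb hb0
        have e3 := d3 (Or.inl ha0)
        have e4 := a.weight_pos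
        omega
      · by_cases hb0 : b = Step.wrap
        · have e1 := le_weight_of_mem (hav ha0)
          have e2 := weight_ge_of_ne hS ha ha0
          have e3 := d3 (Or.inr hb0)
          have e4 := b.weight_pos
          omega
        · have e1 := le_weight_of_mem (hbv hb0)
          have e2 := weight_ge_of_ne hS hb hb0
          have e3 := d4 ha0 hb0
          rw [le_min_iff] at e3
          omega
    rw [le_min_iff] at d2
    have m1 : X ^ (weight u + 2 + k) ∣ VV w - VV u * corr a (q * phi (chain u)) :=
      (pow_dvd_pow _ (by omega)).trans k1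
    have m2 : X ^ (weight u + 2 + k) ∣ VV w' - VV u * corr b (q * phi (chain u)) :=
      (pow_dvd_pow _ (by omega)).trans k2
    have m0 : X ^ (weight u + 2 + k) ∣ VV w - VV w' := (pow_dvd_pow _ hlt).trans h
    have m3 := dvd_sub m0 (dvd_sub m1 m2)
    have e : VV w - VV w' - (VV w - VV u * corr a (q * phi (chain u)) -
        (VV w' - VV u * corr b (q * phi (chain u)))) =
        (corr a (q * phi (chain u)) - corr b (q * phi (chain u))) * VV u := by ring
    rw [e] at m3
    have m4 := dvd_of_dvd_mul (cc_VV u) m3
    have e' : corr a (q * phi (chain u)) - corr b (q * phi (chain u)) = q * (q * phi (chain u)) *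
        (bb a (q * phi (chain u)) - bb b (q * phi (chain u))) := by rw [corr, corr]; ring
    rw [e'] at m4
    exact d1 (dvd_of_dvd_zeta_mul m4)

theorem all_wrap_of_weight_le {S : Set Step} (hS : Good S) {w : List Step} (hw : ∀ t ∈ w, t ∈ S)
    (h : weight w ≤ 2) : w = List.replicate (weight w) Step.wrap := by
  have h1 : ∀ t ∈ w, t = Step.wrap := by
    intro t ht
    by_contra hne
    have e1 := le_weight_of_mem ht
    have e2 := weight_ge_of_ne hS (hw t ht) hne
    omega
  have h2 : w = List.replicate w.length Step.wrap := List.eq_replicate_iff.2 ⟨rfl, h1⟩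
  have h3 : weight w = w.length := by
    rw [h2, weight, List.map_replicate, List.sum_replicate, List.length_replicate]
    simp [Step.weight]
  rw [h3]; exact h2

theorem content_of_branch {S : Set Step} (hS : Good S) {w w' : List Step}
    (hw : ∀ t ∈ w, t ∈ S) (hw' : ∀ t ∈ w', t ∈ S) (t₀ : Step)
    (h : ∀ t, t ≠ Step.wrap → t ≠ t₀ → w.count t = w'.count t)
    (hbr : (chain w).branch = (chain w').branch) :
    ∀ t, t ≠ Step.wrap → w.count t = w'.count t := by
  have hb : brs (joins w) = brs (joins w') := by
    rw [← brs_eq_joins, ← brs_eq_joins, ← branch_chain, ← branch_chain]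
    exact hbr
  intro t ht
  by_cases htt : t = t₀
  · subst htt
    have ht₀ : 1 ≤ stepBranch t ∨ w.count t = w'.count t := by
      by_cases hmem : t ∈ S
      · cases t with
        | wrap => exact absurd rfl ht
        | join l => left; exact stepBranch_pos (hS.1 l hmem)
      · right
        rw [List.count_eq_zero.2 (fun h => hmem (hw _ h)),
          List.count_eq_zero.2 (fun h => hmem (hw' _ h))]
    have hperm := joins_perm hb t ht₀ h
    rw [← count_joins (w := w) ht, ← count_joins (w := w') ht]
    exact hperm.count_eq t
  · exact h t ht htt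

/-- The injectivity theorem from the counts up to size `2 n - 2`. -/
theorem eq_of_counts {S : Set Step} (hS : Good S) {w w' : List Step} (hw : ∀ t ∈ w, t ∈ S)
    (hw' : ∀ t ∈ w', t ∈ S) (t₀ : Step)
    (h : ∀ t, t ≠ Step.wrap → t ≠ t₀ → w.count t = w'.count t)
    (hwt : weight w = weight w')
    (hav : ∀ m ≤ 2 * weight w - 2, avoiders (chain w) m = avoiders (chain w') m) : w = w' := by
  rcases Nat.lt_or_ge (weight w) 3 with hn | hn
  · rw [all_wrap_of_weight_le hS hw (by omega), all_wrap_of_weight_le hS hw' (by omega), hwt]
  · have h1 : Cg (2 * weight w - 1) (phi (chain w)) (phi (chain w')) :=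
      phi_cong (F_cong fun m hm => hav m (by omega))
    have hbr : (chain w).branch = (chain w').branch := by
      apply branch_eq_of_cong
      · rw [size_chain, size_chain, hwt]
      · apply h1.mono
        rw [size_chain]; omega
    have hc := content_of_branch hS hw hw' t₀ h hbr
    have hperm : (joins w).Perm (joins w') := by
      rw [List.perm_iff_count]
      intro t
      by_cases hwr : t = Step.wrap
      · rw [hwr, count_wrap_joins, count_wrap_joins]
      · rw [count_joins hwr, count_joins hwr]
        exact hc t hwr
    have hU : UU w = UU w' := by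
      rw [UU_eq_joins w, UU_eq_joins w', UU, UU]
      exact (hperm.map mainPart).prod_eq
    rw [phi_chain, phi_chain, ← hwt] at h1
    have h2 : Cg (weight w + (weight w - 1)) (q ^ weight w * (UU w * VV w))
        (q ^ weight w * (UU w' * VV w')) := h1.mono (by omega)
    have h3 := cong_of_q_pow h2
    rw [← hU, Cg, ← mul_sub, mul_comm] at h3
    have h4 := dvd_of_dvd_mul (cc_UU w) h3
    exact eq_of_VV_cong hS hw hw' hwt hc h4

end ArchG
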